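import Pool.Agent.R250.MC4

set_option autoImplicit false

/-! # Functions on the exterior of the disc: uniqueness of logarithms and roots, circle averages -/

namespace Pool.Agent.W5h55.JU

open Complex Metric Set Filter Topology MeasureTheory
open Pool.Agent.W677.Mar Pool.Agent.R250.MC

theorem ev_ext : ∀ᶠ z : ℂ in Bornology.cobounded ℂ, 1 < ‖z‖ :=
  tendsto_norm_cobounded_atTop.eventually_gt_atTop 1

theorem ne_zero_of_ext {z : ℂ} (hz : 1 < ‖z‖) : z ≠ 0 := by
  rintro rfl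
  rw [norm_zero] at hz
  linarith

/-- a function with zero derivative is constant -/
theorem const_of_deriv {f : ℂ → ℂ} {c : ℂ} (hf : Hol f c) (h : ∀ z, 1 < ‖z‖ → deriv f z = 0)
    {z : ℂ} (hz : 1 < ‖z‖) : f z = c := by
  have h00 : (0 : ℂ) ∈ ball (0 : ℂ) 1 := mem_ball_self one_pos
  have hF := hat_diff hf
  have hne : ∀ w ∈ ball (0 : ℂ) 1, w ≠ 0 → deriv (hat f c) w = 0 := by
    intro w hw hw0
    rw [(hat_hasDeriv hf hw hw0).deriv, h _ (inv_ext hw hw0), zero_mul]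
  have hall : EqOn (deriv (hat f c)) 0 (ball 0 1) := by
    intro w hw
    by_cases hw0 : w = 0
    · have hcont : ContinuousAt (deriv (hat f c)) 0 :=
        ((hF.deriv isOpen_ball).continuousOn.continuousAt (isOpen_ball.mem_nhds h00))
      rw [hw0]
      have h2 : Tendsto (deriv (hat f c)) (𝓝[≠] 0) (𝓝 (deriv (hat f c) 0)) :=
        hcont.tendsto.mono_left nhdsWithin_le_nhds
      refine tendsto_nhds_unique h2 ?_
      refine tendsto_const_nhds.congr' ?_
      filter_upwards [self_mem_nhdsWithin, nhdsWithin_le_nhds (isOpen_ball.mem_nhds h00)] with x hx hxb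
      exact (hne x hxb hx).symm
    · exact hne w hw hw0
  have hzi : z⁻¹ ∈ ball (0 : ℂ) 1 := by
    rw [mem_ball_zero_iff, norm_inv]
    exact inv_lt_one_of_one_lt₀ hz
  have h1 := isOpen_ball.is_const_of_deriv_eq_zero (convex_ball (0 : ℂ) 1).isPreconnected hF hall
    hzi h00
  rw [hat_zero, hat_ne _ _ (inv_ne_zero (ne_zero_of_ext hz)), inv_inv] at h1
  exact h1

theorem exp_one {f : ℂ → ℂ} (hf : Hol f 0) (h : ∀ z, 1 < ‖z‖ → Complex.exp (f z) = 1)
    {z : ℂ} (hz : 1 < ‖z‖) : f z = 0 := by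
  refine const_of_deriv hf (fun z hz => ?_) hz
  have h1 : HasDerivAt f (deriv f z) z :=
    (hf.1.differentiableAt (isOpen_ext.mem_nhds hz)).hasDerivAt
  have h2 : (fun z => Complex.exp (f z)) =ᶠ[𝓝 z] fun _ => 1 := by
    filter_upwards [isOpen_ext.mem_nhds hz] with w hw using h w hw
  have h3 := h2.deriv_eq
  rw [h1.cexp.deriv, deriv_const, h z hz, one_mul] at h3
  exact h3

theorem root_one {f : ℂ → ℂ} {d : ℕ} (hd : d ≠ 0) (hf : Hol f 1)
    (h : ∀ z, 1 < ‖z‖ → f z ^ d = 1) {z : ℂ} (hz : 1 < ‖z‖) : f z = 1 := by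
  refine const_of_deriv hf (fun z hz => ?_) hz
  have h1 : HasDerivAt f (deriv f z) z :=
    (hf.1.differentiableAt (isOpen_ext.mem_nhds hz)).hasDerivAt
  have h2 : (fun z => f z ^ d) =ᶠ[𝓝 z] fun _ => 1 := by
    filter_upwards [isOpen_ext.mem_nhds hz] with w hw using h w hw
  have h3 := h2.deriv_eq
  rw [(h1.fun_pow d).deriv, deriv_const] at h3
  have hne : f z ≠ 0 := by
    intro h0
    have := h z hz
    rw [h0, zero_pow hd] at this
    exact zero_ne_one this
  have h4 : (d : ℂ) ≠ 0 := by exact_mod_cast hd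
  rcases mul_eq_zero.1 h3 with h5 | h5
  · rcases mul_eq_zero.1 h5 with h6 | h6
    · exact absurd h6 h4
    · exact absurd h6 (pow_ne_zero _ hne)
  · exact h5

theorem pow_ext {z : ℂ} (hz : 1 < ‖z‖) {d : ℕ} (hd : d ≠ 0) : 1 < ‖z ^ d‖ := by
  rw [norm_pow]
  exact one_lt_pow₀ hz hd

theorem tendsto_pow_cob {d : ℕ} (hd : d ≠ 0) :
    Tendsto (fun z : ℂ => z ^ d) (Bornology.cobounded ℂ) (Bornology.cobounded ℂ) := by
  rw [← tendsto_norm_atTop_iff_cobounded]
  simp only [norm_pow]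
  exact (tendsto_pow_atTop hd).comp tendsto_norm_cobounded_atTop

theorem tendsto_mul_cob {w : ℂ} (hw : ‖w‖ = 1) :
    Tendsto (fun z : ℂ => w * z) (Bornology.cobounded ℂ) (Bornology.cobounded ℂ) := by
  rw [← tendsto_norm_atTop_iff_cobounded]
  simp only [norm_mul, hw, one_mul]
  exact tendsto_norm_cobounded_atTop

theorem Hol.comp_pow {f : ℂ → ℂ} {c : ℂ} (hf : Hol f c) {d : ℕ} (hd : d ≠ 0) :
    Hol (fun z => f (z ^ d)) c := by
  refine ⟨?_, hf.2.comp (tendsto_pow_cob hd)⟩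
  exact hf.1.comp ((differentiable_id.pow d).differentiableOn) fun z hz => pow_ext hz hd

theorem Hol.comp_mul {f : ℂ → ℂ} {c : ℂ} (hf : Hol f c) {w : ℂ} (hw : ‖w‖ = 1) :
    Hol (fun z => f (w * z)) c := by
  refine ⟨?_, hf.2.comp (tendsto_mul_cob hw)⟩
  refine hf.1.comp ((differentiable_id.const_mul w).differentiableOn) fun z hz => ?_
  show 1 < ‖w * z‖
  rw [norm_mul, hw, one_mul]
  exact hz

/-- The point `r e^{iθ}`. -/
noncomputable def cc (r θ : ℝ) : ℂ := (r : ℂ) * Complex.exp ((θ : ℂ) * Complex.I)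

theorem norm_cc {r : ℝ} (hr : 0 ≤ r) (θ : ℝ) : ‖cc r θ‖ = r := by
  rw [cc, norm_mul, Complex.norm_exp_ofReal_mul_I, Complex.norm_real, Real.norm_of_nonneg hr, mul_one]

theorem cc_ext {r : ℝ} (hr : 1 < r) (θ : ℝ) : 1 < ‖cc r θ‖ := by
  rw [norm_cc (by linarith)]; exact hr

theorem cc_cont (r : ℝ) : Continuous (cc r) := by
  unfold cc
  fun_prop

theorem cc_per (r : ℝ) : Function.Periodic (cc r) (2 * Real.pi) := by
  intro θ
  unfold cc
  congr 1
  push_cast
  rw [add_mul, Complex.exp_add, Complex.exp_two_pi_mul_I, mul_one]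

theorem cc_add (r θ α : ℝ) : cc r (θ + α) = cc 1 α * cc r θ := by
  unfold cc
  push_cast
  rw [add_mul, Complex.exp_add]
  ring

theorem cc_pow (r θ : ℝ) (d : ℕ) : cc r θ ^ d = cc (r ^ d) (d * θ) := by
  unfold cc
  rw [mul_pow, ← Complex.exp_nat_mul]
  push_cast
  congr 2
  ring

theorem contOn_cc {g : ℂ → ℝ} (hg : ContinuousOn g {z : ℂ | 1 < ‖z‖}) {r : ℝ} (hr : 1 < r) :
    Continuous fun θ => g (cc r θ) :=
  hg.comp_continuous (cc_cont r) (fun θ => cc_ext hr θ)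

theorem int_rot {g : ℂ → ℝ} (r α : ℝ) :
    ∫ θ in (0 : ℝ)..(2 * Real.pi), g (cc 1 α * cc r θ) = ∫ θ in (0 : ℝ)..(2 * Real.pi), g (cc r θ) := by
  have hper : Function.Periodic (fun θ => g (cc r θ)) (2 * Real.pi) := by
    intro θ
    simp only [cc_per r θ]
  have h1 : ∀ θ, g (cc 1 α * cc r θ) = (fun θ => g (cc r θ)) (θ + α) := by
    intro θ
    simp only [cc_add]
  simp only [h1]
  rw [intervalIntegral.integral_comp_add_right (fun θ => g (cc r θ)) α, zero_add, add_comm]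
  have := hper.intervalIntegral_add_eq α 0
  rw [zero_add] at this
  exact this

/-- the root of unity `e^{2πi/d}` -/
noncomputable def om (d : ℕ) : ℂ := Complex.exp (2 * Real.pi * Complex.I / d)

theorem om_pow_eq (d k : ℕ) : om d ^ k = cc 1 (k * (2 * Real.pi / d)) := by
  unfold om cc
  rw [← Complex.exp_nat_mul]
  push_cast
  rw [one_mul]
  congr 1
  ring

theorem norm_om (d : ℕ) : ‖om d‖ = 1 := by
  have := om_pow_eq d 1
  rw [pow_one] at this
  rw [this, norm_cc zero_le_one]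

theorem norm_om_pow (d k : ℕ) : ‖om d ^ k‖ = 1 := by
  rw [norm_pow, norm_om, one_pow]

theorem om_prim {d : ℕ} (hd : d ≠ 0) : IsPrimitiveRoot (om d) d := by
  exact Complex.isPrimitiveRoot_exp d hd

theorem om_pow {d : ℕ} (hd : d ≠ 0) : om d ^ d = 1 := (om_prim hd).pow_eq_one

/-- the average over the rotations by `d`-th roots of unity -/
noncomputable def av (d : ℕ) (g : ℂ → ℝ) (z : ℂ) : ℝ :=
  (1 / d) * ∑ k ∈ Finset.range d, g (om d ^ k * z)

theorem int_av {d : ℕ} (hd : d ≠ 0) {g : ℂ → ℝ} (hg : ContinuousOn g {z : ℂ | 1 < ‖z‖}) {r : ℝ}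
    (hr : 1 < r) :
    ∫ θ in (0 : ℝ)..(2 * Real.pi), av d g (cc r θ) = ∫ θ in (0 : ℝ)..(2 * Real.pi), g (cc r θ) := by
  unfold av
  rw [intervalIntegral.integral_const_mul, intervalIntegral.integral_finsetSum]
  · have h1 : ∀ k ∈ Finset.range d, ∫ θ in (0 : ℝ)..(2 * Real.pi), g (om d ^ k * cc r θ) =
        ∫ θ in (0 : ℝ)..(2 * Real.pi), g (cc r θ) := by
      intro k _
      rw [om_pow_eq]
      exact int_rot r _
    rw [Finset.sum_congr rfl h1, Finset.sum_const, Finset.card_range, nsmul_eq_mul]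
    have : (d : ℝ) ≠ 0 := by exact_mod_cast hd
    field_simp
  · intro k _
    apply Continuous.intervalIntegrable
    refine hg.comp_continuous (continuous_const.mul (cc_cont r)) fun θ => ?_
    show 1 < ‖om d ^ k * cc r θ‖
    rw [norm_mul, norm_om_pow, one_mul]
    exact cc_ext hr θ

theorem int_pow {d : ℕ} (hd : d ≠ 0) {F : ℂ → ℝ} (hF : ContinuousOn F {z : ℂ | 1 < ‖z‖}) {r : ℝ}
    (hr : 1 < r) :
    ∫ θ in (0 : ℝ)..(2 * Real.pi), F (cc r θ ^ d) =
      ∫ θ in (0 : ℝ)..(2 * Real.pi), F (cc (r ^ d) θ) := by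
  have hd0 : (d : ℝ) ≠ 0 := by exact_mod_cast hd
  have hrd : 1 < r ^ d := one_lt_pow₀ hr hd
  have hper : Function.Periodic (fun θ => F (cc (r ^ d) θ)) (2 * Real.pi) := by
    intro θ
    simp only [cc_per (r ^ d) θ]
  simp only [cc_pow]
  rw [intervalIntegral.integral_comp_mul_left (fun θ => F (cc (r ^ d) θ)) hd0, mul_zero]
  have h1 := hper.intervalIntegral_add_zsmul_eq (d : ℤ) 0 (fun t₁ t₂ =>
    (contOn_cc hF hrd).intervalIntegrable t₁ t₂)
  rw [zero_add, zero_add] at h1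
  have h2 : (d : ℤ) • (2 * Real.pi) = (d : ℝ) * (2 * Real.pi) := by simp
  rw [h2] at h1
  rw [h1]
  simp only [smul_eq_mul, zsmul_eq_mul, Int.cast_natCast]
  field_simp

end Pool.Agent.W5h55.JU
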