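import Pool.Agent.W5h55.JU.J1

set_option autoImplicit false

/-! # The average of `|x - y|^{-q}` over the `d`-th roots, and elementary inequalities -/

namespace Pool.Agent.W5h55.JU

open Complex Metric Set Filter Topology MeasureTheory

theorem sum_rpow_le {q : ℝ} (hq0 : 0 ≤ q) (hq1 : q < 1) (n : ℕ) :
    ∑ k ∈ Finset.range n, ((k + 1 : ℕ) : ℝ) ^ (-q) ≤ (n : ℝ) ^ (1 - q) / (1 - q) := by
  have h1q : 0 < 1 - q := by linarith
  induction n with
  | zero => simp [Real.zero_rpow h1q.ne']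
  | succ n ih =>
    rw [Finset.sum_range_succ]
    have hn : (0 : ℝ) < (n : ℝ) + 1 := by positivity
    have e0 : ((n + 1 : ℕ) : ℝ) = (n : ℝ) + 1 := by push_cast; ring
    rw [e0]
    have h1 : ((n : ℝ) / (n + 1)) ^ (1 - q) ≤ 1 - (1 - q) / (n + 1) := by
      have h2 := rpow_one_add_le_one_add_mul_self (s := -1 / ((n : ℝ) + 1)) (by
        rw [neg_div, neg_le_neg_iff, div_le_one hn]; linarith) h1q.le (by linarith)
      have e1 : 1 + -1 / ((n : ℝ) + 1) = (n : ℝ) / (n + 1) := by field_simp; ring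
      have e2 : 1 + (1 - q) * (-1 / ((n : ℝ) + 1)) = 1 - (1 - q) / (n + 1) := by ring
      rw [e1, e2] at h2
      exact h2
    rw [Real.div_rpow (by positivity) hn.le] at h1
    have hp : 0 < ((n : ℝ) + 1) ^ (1 - q) := Real.rpow_pos_of_pos hn _
    rw [div_le_iff₀ hp] at h1
    have e3 : ((n : ℝ) + 1) ^ (1 - q) / ((n : ℝ) + 1) = ((n : ℝ) + 1) ^ (-q) := by
      rw [div_eq_iff hn.ne']
      conv_rhs => rhs; rw [← Real.rpow_one ((n : ℝ) + 1)]
      rw [← Real.rpow_add hn]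
      congr 1
      ring
    have e4 : (1 - (1 - q) / ((n : ℝ) + 1)) * ((n : ℝ) + 1) ^ (1 - q) =
        ((n : ℝ) + 1) ^ (1 - q) - (1 - q) * ((n : ℝ) + 1) ^ (-q) := by
      rw [← e3]
      ring
    rw [e4] at h1
    have h5 : (n : ℝ) ^ (1 - q) / (1 - q) ≤ (((n : ℝ) + 1) ^ (1 - q) - (1 - q) * ((n : ℝ) + 1) ^ (-q)) /
        (1 - q) := by
      apply div_le_div_of_nonneg_right h1 h1q.le
    have e6 : (((n : ℝ) + 1) ^ (1 - q) - (1 - q) * ((n : ℝ) + 1) ^ (-q)) / (1 - q) =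
        ((n : ℝ) + 1) ^ (1 - q) / (1 - q) - ((n : ℝ) + 1) ^ (-q) := by
      field_simp
    rw [e6] at h5
    linarith

/-- distance of roots of unity -/
theorem om_dist {n k : ℕ} (hk : k < n) :
    4 * (min ((k + 1 : ℕ) : ℝ) ((n - k : ℕ) : ℝ)) / ((n + 1 : ℕ) : ℝ) ≤ ‖om (n + 1) ^ (k + 1) - 1‖ := by
  have hpi := Real.pi_pos
  have hn : (0 : ℝ) < ((n + 1 : ℕ) : ℝ) := by positivity
  have e1 : om (n + 1) ^ (k + 1) = Complex.exp (Complex.I * ((2 * (Real.pi * ((k + 1 : ℕ) : ℝ) /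
      ((n + 1 : ℕ) : ℝ)) : ℝ) : ℂ)) := by
    unfold om
    rw [← Complex.exp_nat_mul]
    congr 1
    push_cast
    ring
  rw [e1, Complex.norm_exp_I_mul_ofReal_sub_one, mul_div_cancel_left₀ _ (two_ne_zero)]
  set x : ℝ := Real.pi * ((k + 1 : ℕ) : ℝ) / ((n + 1 : ℕ) : ℝ) with hx
  have hx0 : 0 ≤ x := by positivity
  have hkn : ((k + 1 : ℕ) : ℝ) ≤ ((n + 1 : ℕ) : ℝ) := by
    exact_mod_cast (by omega : k + 1 ≤ n + 1)
  have hxpi : x ≤ Real.pi := by
    rw [hx, div_le_iff₀ hn]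
    exact mul_le_mul_of_nonneg_left hkn hpi.le
  have hs0 : 0 ≤ Real.sin x := Real.sin_nonneg_of_nonneg_of_le_pi hx0 hxpi
  rw [Real.norm_of_nonneg (by positivity)]
  have hnk : ((n - k : ℕ) : ℝ) = ((n + 1 : ℕ) : ℝ) - ((k + 1 : ℕ) : ℝ) := by
    rw [Nat.cast_sub hk.le]
    push_cast
    ring
  rcases le_or_gt x (Real.pi / 2) with h1 | h1
  · have h2 := Real.mul_le_sin hx0 h1
    have h3 : 2 / Real.pi * x = 2 * ((k + 1 : ℕ) : ℝ) / ((n + 1 : ℕ) : ℝ) := by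
      rw [hx]
      field_simp
    rw [h3] at h2
    have h4 : 4 * (min ((k + 1 : ℕ) : ℝ) ((n - k : ℕ) : ℝ)) / ((n + 1 : ℕ) : ℝ) ≤
        4 * ((k + 1 : ℕ) : ℝ) / ((n + 1 : ℕ) : ℝ) := by
      apply div_le_div_of_nonneg_right _ hn.le
      have := min_le_left ((k + 1 : ℕ) : ℝ) ((n - k : ℕ) : ℝ)
      linarith
    have h5 : 4 * ((k + 1 : ℕ) : ℝ) / ((n + 1 : ℕ) : ℝ) = 2 * (2 * ((k + 1 : ℕ) : ℝ) / ((n + 1 : ℕ) : ℝ)) := by
      ring
    linarith
  · have h2 := Real.mul_le_sin (x := Real.pi - x) (by linarith) (by linarith)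
    rw [Real.sin_pi_sub] at h2
    have h3 : 2 / Real.pi * (Real.pi - x) = 2 * ((n - k : ℕ) : ℝ) / ((n + 1 : ℕ) : ℝ) := by
      rw [hx, hnk]
      field_simp
    rw [h3] at h2
    have h4 : 4 * (min ((k + 1 : ℕ) : ℝ) ((n - k : ℕ) : ℝ)) / ((n + 1 : ℕ) : ℝ) ≤
        4 * ((n - k : ℕ) : ℝ) / ((n + 1 : ℕ) : ℝ) := by
      apply div_le_div_of_nonneg_right _ hn.le
      have := min_le_right ((k + 1 : ℕ) : ℝ) ((n - k : ℕ) : ℝ)
      linarith
    have h5 : 4 * ((n - k : ℕ) : ℝ) / ((n + 1 : ℕ) : ℝ) = 2 * (2 * ((n - k : ℕ) : ℝ) / ((n + 1 : ℕ) : ℝ)) := by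
      ring
    linarith

theorem norm_geom (x y : ℂ) (n : ℕ) {M : ℝ} (hx : ‖x‖ ≤ M) (hy : ‖y‖ ≤ M) :
    ‖x ^ (n + 1) - y ^ (n + 1)‖ ≤ ‖x - y‖ * (((n + 1 : ℕ) : ℝ) * M ^ n) := by
  have hM : 0 ≤ M := (norm_nonneg _).trans hx
  rw [← Commute.mul_geom_sum₂ (Commute.all x y), norm_mul]
  apply mul_le_mul_of_nonneg_left _ (norm_nonneg _)
  refine (norm_sum_le _ _).trans ?_
  have h1 : ∀ i ∈ Finset.range (n + 1), ‖x ^ i * y ^ (n + 1 - 1 - i)‖ ≤ M ^ n := by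
    intro i hi
    have hi' : i < n + 1 := Finset.mem_range.1 hi
    rw [norm_mul, norm_pow, norm_pow]
    calc ‖x‖ ^ i * ‖y‖ ^ (n + 1 - 1 - i) ≤ M ^ i * M ^ (n + 1 - 1 - i) := by gcongr
      _ = M ^ n := by rw [← pow_add]; congr 1; omega
  refine (Finset.sum_le_sum h1).trans ?_
  rw [Finset.sum_const, Finset.card_range, nsmul_eq_mul]

/-- the case where the nearest root is the first one -/
theorem root_core {n : ℕ} {x y : ℂ} {q : ℝ} (hq0 : 0 < q) (hq1 : q < 1) {M : ℝ} (hM : 0 < M)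
    (hMx : M = max ‖x‖ ‖y‖) (hxy : x ^ (n + 1) ≠ y ^ (n + 1))
    (hmin : ∀ k, ‖x - y‖ ≤ ‖om (n + 1) ^ k * x - y‖) :
    (1 / ((n + 1 : ℕ) : ℝ)) * ∑ k ∈ Finset.range (n + 1), ‖om (n + 1) ^ k * x - y‖ ^ (-q) ≤
      2 / (1 - q) * M ^ (-q) +
      ((n + 1 : ℕ) : ℝ) ^ (q - 1) * (M ^ n / ‖x ^ (n + 1) - y ^ (n + 1)‖) ^ q := by
  have h1q : 0 < 1 - q := by linarith
  have hn : (0 : ℝ) < ((n + 1 : ℕ) : ℝ) := by positivity
  obtain ⟨N, hN⟩ : ∃ N : ℝ, N = ((n + 1 : ℕ) : ℝ) := ⟨_, rfl⟩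
  have hN0 : 0 < N := by rw [hN]; exact hn
  have hΔ : 0 < ‖x ^ (n + 1) - y ^ (n + 1)‖ := norm_pos_iff.2 (sub_ne_zero.2 hxy)
  rw [Finset.sum_range_succ', mul_add]
  apply add_le_add
  · -- the other roots
    have hkey : ∀ k ∈ Finset.range n, ‖om (n + 1) ^ (k + 1) * x - y‖ ^ (-q) ≤
        (M / N) ^ (-q) * (((k + 1 : ℕ) : ℝ) ^ (-q) + ((n - 1 - k + 1 : ℕ) : ℝ) ^ (-q)) := by
      intro k hk
      have hk' : k < n := Finset.mem_range.1 hk
      set w := om (n + 1) ^ (k + 1) with hw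
      have hwn : ‖w‖ = 1 := norm_om_pow _ _
      have hd := om_dist hk'
      rw [← hw] at hd
      have h1 := hmin (k + 1)
      rw [← hw] at h1
      have h2 : ‖w - 1‖ * ‖x‖ ≤ 2 * ‖w * x - y‖ := by
        have e1 : (w - 1) * x = (w * x - y) - (x - y) := by ring
        rw [← norm_mul, e1]
        refine (norm_sub_le _ _).trans ?_
        linarith
      have h3 : ‖w - 1‖ * ‖y‖ ≤ 2 * ‖w * x - y‖ := by
        have e1 : (w - 1) * y = (w * x - y) - w * (x - y) := by ring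
        rw [← norm_mul, e1]
        refine (norm_sub_le _ _).trans ?_
        rw [norm_mul w, hwn, one_mul]
        linarith
      have h4 : ‖w - 1‖ * M ≤ 2 * ‖w * x - y‖ := by
        rw [hMx]
        rcases max_cases ‖x‖ ‖y‖ with ⟨h5, _⟩ | ⟨h5, _⟩
        · rw [h5]; exact h2
        · rw [h5]; exact h3
      have hnk0 : 0 < n - k := by omega
      have hmpos : 0 < min ((k + 1 : ℕ) : ℝ) ((n - k : ℕ) : ℝ) := by
        apply lt_min
        · positivity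
        · exact_mod_cast hnk0
      set m := min ((k + 1 : ℕ) : ℝ) ((n - k : ℕ) : ℝ) with hm
      have h5 : M / N * m ≤ ‖w * x - y‖ := by
        rw [← hN] at hd
        have h6 : 4 * m / N * M ≤ 2 * ‖w * x - y‖ := (mul_le_mul_of_nonneg_right hd hM.le).trans h4
        have e1 : 4 * m / N * M = 4 * (M / N * m) := by ring
        rw [e1] at h6
        have : 0 ≤ M / N * m := by positivity
        linarith
      have h6 : ‖w * x - y‖ ^ (-q) ≤ (M / N * m) ^ (-q) :=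
        Real.rpow_le_rpow_of_nonpos (by positivity) h5 (by linarith)
      refine h6.trans ?_
      rw [Real.mul_rpow (by positivity) hmpos.le]
      apply mul_le_mul_of_nonneg_left _ (by positivity)
      have e2 : n - 1 - k + 1 = n - k := by omega
      rw [e2]
      rw [hm]
      rcases min_cases ((k + 1 : ℕ) : ℝ) ((n - k : ℕ) : ℝ) with ⟨h7, _⟩ | ⟨h7, _⟩
      · rw [h7]
        have : 0 ≤ ((n - k : ℕ) : ℝ) ^ (-q) := by positivity
        linarith
      · rw [h7]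
        have : 0 ≤ ((k + 1 : ℕ) : ℝ) ^ (-q) := by positivity
        linarith
    have h1 := Finset.sum_le_sum hkey
    rw [← Finset.mul_sum, Finset.sum_add_distrib,
      Finset.sum_range_reflect (fun k => ((k + 1 : ℕ) : ℝ) ^ (-q)) n] at h1
    have h2 := sum_rpow_le hq0.le hq1 n
    have h3 : (n : ℝ) ^ (1 - q) ≤ N ^ (1 - q) := by
      apply Real.rpow_le_rpow (by positivity) _ h1q.le
      rw [hN]
      push_cast
      linarith
    have h4 : ∑ k ∈ Finset.range n, ((k + 1 : ℕ) : ℝ) ^ (-q) + ∑ k ∈ Finset.range n,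
        ((k + 1 : ℕ) : ℝ) ^ (-q) ≤ 2 * (N ^ (1 - q) / (1 - q)) := by
      have := div_le_div_of_nonneg_right h3 h1q.le
      linarith
    have h5 : ∑ k ∈ Finset.range n, ‖om (n + 1) ^ (k + 1) * x - y‖ ^ (-q) ≤
        (M / N) ^ (-q) * (2 * (N ^ (1 - q) / (1 - q))) :=
      h1.trans (mul_le_mul_of_nonneg_left h4 (by positivity))
    rw [← hN]
    have e1 : (1 / N) * ((M / N) ^ (-q) * (2 * (N ^ (1 - q) / (1 - q)))) = 2 / (1 - q) * M ^ (-q) := by
      rw [Real.div_rpow hM.le hN0.le]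
      have e2 : N ^ (1 - q) = N * N ^ (-q) := by
        rw [show (1 - q) = 1 + (-q) by ring, Real.rpow_add hN0, Real.rpow_one]
      rw [e2]
      have : N ^ (-q) ≠ 0 := (Real.rpow_pos_of_pos hN0 _).ne'
      field_simp
    rw [← e1]
    exact mul_le_mul_of_nonneg_left h5 (by positivity)
  · -- the nearest root
    rw [pow_zero, one_mul, ← hN]
    have h1 := norm_geom x y n (M := M) (by rw [hMx]; exact le_max_left _ _)
      (by rw [hMx]; exact le_max_right _ _)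
    rw [← hN] at h1
    have hxy0 : 0 < ‖x - y‖ := by
      rcases (norm_nonneg (x - y)).eq_or_lt with h2 | h2
      · rw [← h2, zero_mul] at h1
        linarith
      · exact h2
    have h2 : ‖x - y‖ ^ (-q) ≤ (N * (M ^ n / ‖x ^ (n + 1) - y ^ (n + 1)‖)) ^ q := by
      rw [Real.rpow_neg (norm_nonneg _), ← Real.inv_rpow (norm_nonneg _)]
      apply Real.rpow_le_rpow (by positivity) _ hq0.le
      rw [inv_le_iff_one_le_mul₀ hxy0]
      rw [← mul_div_assoc, div_mul_eq_mul_div, le_div_iff₀ hΔ, one_mul]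
      linarith
    have h3 := mul_le_mul_of_nonneg_left h2 (by positivity : 0 ≤ 1 / N)
    refine h3.trans (le_of_eq ?_)
    rw [Real.mul_rpow hN0.le (by positivity), ← mul_assoc]
    congr 1
    rw [Real.rpow_sub_one hN0.ne']
    ring

theorem sum_shift {d : ℕ} {f : ℕ → ℝ} (hf : ∀ k, f (k + d) = f k) (m : ℕ) :
    ∑ k ∈ Finset.range d, f (k + m) = ∑ k ∈ Finset.range d, f k := by
  induction m with
  | zero => simp
  | succ m ih =>
    rw [← ih]
    have h1 := Finset.sum_range_succ (fun k => f (k + m)) d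
    have h2 := Finset.sum_range_succ' (fun k => f (k + m)) d
    have h3 : f (d + m) = f (0 + m) := by
      rw [add_comm d m, zero_add]
      exact hf m
    have h4 : ∀ k ∈ Finset.range d, f (k + (m + 1)) = f (k + 1 + m) := by
      intro k _
      congr 1
      ring
    rw [Finset.sum_congr rfl h4]
    linarith

/-- **the average over the roots** -/
theorem root_avg {d : ℕ} (hd : 1 ≤ d) {x y : ℂ} {q : ℝ} (hq0 : 0 < q) (hq1 : q < 1) {M : ℝ}
    (hM : 0 < M) (hMx : M = max ‖x‖ ‖y‖) (hxy : x ^ d ≠ y ^ d) :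
    (1 / (d : ℝ)) * ∑ k ∈ Finset.range d, ‖om d ^ k * x - y‖ ^ (-q) ≤
      2 / (1 - q) * M ^ (-q) + (d : ℝ) ^ (q - 1) * (M ^ (d - 1) / ‖x ^ d - y ^ d‖) ^ q := by
  obtain ⟨n, rfl⟩ : ∃ n, d = n + 1 := ⟨d - 1, by omega⟩
  have hom : om (n + 1) ^ (n + 1) = 1 := om_pow (Nat.succ_ne_zero n)
  obtain ⟨k₀, hk₀, hmin⟩ := Finset.exists_min_image (Finset.range (n + 1))
    (fun k => ‖om (n + 1) ^ k * x - y‖) ⟨0, Finset.mem_range.2 (Nat.succ_pos n)⟩
  have hmod : ∀ k : ℕ, om (n + 1) ^ k = om (n + 1) ^ (k % (n + 1)) := by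
    intro k
    conv_lhs => rw [← Nat.div_add_mod k (n + 1)]
    rw [pow_add, pow_mul, hom, one_pow, one_mul]
  have hmin' : ∀ k : ℕ, ‖om (n + 1) ^ k₀ * x - y‖ ≤ ‖om (n + 1) ^ k * x - y‖ := by
    intro k
    rw [hmod k]
    exact hmin _ (Finset.mem_range.2 (Nat.mod_lt _ (Nat.succ_pos n)))
  have hx' : ‖om (n + 1) ^ k₀ * x‖ = ‖x‖ := by
    rw [norm_mul, norm_om_pow, one_mul]
  have hpow : (om (n + 1) ^ k₀ * x) ^ (n + 1) = x ^ (n + 1) := by
    rw [mul_pow, ← pow_mul, mul_comm k₀, pow_mul, hom, one_pow, one_mul]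
  have h1 := root_core (n := n) (x := om (n + 1) ^ k₀ * x) (y := y) hq0 hq1 hM (by rw [hx']; exact hMx)
    (by rw [hpow]; exact hxy) (fun k => by
      rw [← mul_assoc, ← pow_add]
      exact hmin' _)
  rw [hpow] at h1
  have h2 : ∀ k ∈ Finset.range (n + 1), ‖om (n + 1) ^ k * (om (n + 1) ^ k₀ * x) - y‖ ^ (-q) =
      (fun k => ‖om (n + 1) ^ k * x - y‖ ^ (-q)) (k + k₀) := by
    intro k _
    simp only [pow_add, mul_assoc]
  rw [Finset.sum_congr rfl h2, sum_shift (f := fun k => ‖om (n + 1) ^ k * x - y‖ ^ (-q)) (by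
    intro k
    simp only [pow_add, hom, mul_one])] at h1
  exact h1

/-- the key inequality -/
theorem key {d : ℕ} (hd : 1 ≤ d) {D γ Δ M s q : ℝ} (hD : 0 < D) (hD7 : D ≤ 7) (hΔ : 0 < Δ)
    (hγΔ : γ - D ≤ Δ) (hM : 0 < M) (hMd : M ^ d = max D γ) (hq0 : 0 < q) (hq1 : q < 1)
    (hs : 0 ≤ s) (hsq : s + q / d ≤ q) :
    (max 1 D⁻¹) ^ s * M ^ (-q) ≤ (max 1 D⁻¹) ^ (s + q / d) ∧
    (max 1 D⁻¹) ^ s * (M ^ (d - 1) / Δ) ^ q ≤
      14 * ((max 1 D⁻¹) ^ (s + q / d) + (max 1 Δ⁻¹) ^ q) := by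
  have hd0 : (0 : ℝ) < d := by exact_mod_cast hd
  set a := max 1 D⁻¹ with ha
  set b := max 1 Δ⁻¹ with hb
  have ha1 : 1 ≤ a := le_max_left _ _
  have hb1 : 1 ≤ b := le_max_left _ _
  have ha0 : 0 < a := by linarith
  have hb0 : 0 < b := by linarith
  set T := M ^ d with hT
  have hTD : D ≤ T := by rw [hMd]; exact le_max_left _ _
  have hT0 : 0 < T := by linarith
  set u := M ^ (-q) with hu
  have hu0 : 0 < u := Real.rpow_pos_of_pos hM _
  have huT : u = T ^ (-(q / d)) := by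
    rw [hu, hT, ← Real.rpow_natCast, ← Real.rpow_mul hM.le]
    congr 1
    field_simp
  have hua : u ≤ a ^ (q / d) := by
    rw [huT]
    calc T ^ (-(q / d)) ≤ D ^ (-(q / d)) := by
          apply Real.rpow_le_rpow_of_nonpos hD hTD
          have : 0 ≤ q / d := by positivity
          linarith
      _ = (D⁻¹) ^ (q / d) := by rw [Real.rpow_neg hD.le, Real.inv_rpow hD.le]
      _ ≤ a ^ (q / d) := by
          apply Real.rpow_le_rpow (by positivity) (le_max_right _ _) (by positivity)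
  have h1 : a ^ s * u ≤ a ^ (s + q / d) := by
    rw [Real.rpow_add ha0]
    exact mul_le_mul_of_nonneg_left hua (Real.rpow_nonneg ha0.le _)
  refine ⟨h1, ?_⟩
  have e1 : (M ^ (d - 1) / Δ) ^ q = u * (T / Δ) ^ q := by
    have e2 : M ^ (d - 1) / Δ = M⁻¹ * (T / Δ) := by
      rw [hT]
      obtain ⟨n, rfl⟩ : ∃ n, d = n + 1 := ⟨d - 1, by omega⟩
      simp only [Nat.add_sub_cancel]
      rw [pow_succ]
      field_simp
    rw [e2, Real.mul_rpow (by positivity) (by positivity), Real.inv_rpow hM.le, ← Real.rpow_neg hM.le]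
  rw [e1, ← mul_assoc]
  have hau0 : 0 ≤ a ^ s * u := by positivity
  rcases le_or_gt T (2 * D) with h2 | h2
  · -- `T ≤ 2 D`
    have h3 : a ^ s * u ≤ a ^ q := h1.trans (Real.rpow_le_rpow_of_exponent_le ha1 hsq)
    have h4 : T * a ≤ 14 := by
      rw [ha]
      rcases max_cases 1 D⁻¹ with ⟨h5, _⟩ | ⟨h5, _⟩
      · rw [h5]; linarith
      · rw [h5]
        calc T * D⁻¹ ≤ 2 * D * D⁻¹ := mul_le_mul_of_nonneg_right h2 (by positivity)
          _ = 2 := by field_simp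
          _ ≤ 14 := by norm_num
    have h5 : (T * a) ^ q ≤ 14 := by
      calc (T * a) ^ q ≤ 14 ^ q := Real.rpow_le_rpow (by positivity) h4 hq0.le
        _ ≤ 14 ^ (1 : ℝ) := Real.rpow_le_rpow_of_exponent_le (by norm_num) hq1.le
        _ = 14 := Real.rpow_one _
    have h6 : (Δ⁻¹) ^ q ≤ b ^ q := Real.rpow_le_rpow (by positivity) (le_max_right _ _) hq0.le
    calc a ^ s * u * (T / Δ) ^ q ≤ a ^ q * (T / Δ) ^ q :=
          mul_le_mul_of_nonneg_right h3 (by positivity)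
      _ = (T * a) ^ q * (Δ⁻¹) ^ q := by
          rw [div_eq_mul_inv, Real.mul_rpow hT0.le (by positivity), Real.mul_rpow hT0.le ha0.le]
          ring
      _ ≤ 14 * b ^ q := by
          apply mul_le_mul h5 h6 (by positivity) (by norm_num)
      _ ≤ 14 * (a ^ (s + q / d) + b ^ q) := by
          have : 0 ≤ a ^ (s + q / d) := by positivity
          linarith
  · have hTγ : T = γ := by
      rw [hMd]
      rcases max_cases D γ with ⟨h3, _⟩ | ⟨h3, _⟩
      · exfalso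
        rw [hMd, h3] at h2
        linarith
      · exact h3
    have h3 : T / Δ ≤ 2 := by
      rw [div_le_iff₀ hΔ]
      rw [hTγ] at h2 ⊢
      linarith
    have h4 : (T / Δ) ^ q ≤ 2 := by
      calc (T / Δ) ^ q ≤ 2 ^ q := Real.rpow_le_rpow (by positivity) h3 hq0.le
        _ ≤ 2 ^ (1 : ℝ) := Real.rpow_le_rpow_of_exponent_le (by norm_num) hq1.le
        _ = 2 := Real.rpow_one _
    calc a ^ s * u * (T / Δ) ^ q ≤ a ^ (s + q / d) * 2 :=
          mul_le_mul h1 h4 (by positivity) (by positivity)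
      _ ≤ 14 * (a ^ (s + q / d) + b ^ q) := by
          have : 0 ≤ a ^ (s + q / d) := by positivity
          have : 0 ≤ b ^ q := by positivity
          linarith

theorem max_rpow_le {u q : ℝ} (hu : 0 ≤ u) : (max 1 u⁻¹) ^ q ≤ 1 + u ^ (-q) := by
  rcases max_cases 1 u⁻¹ with ⟨h, _⟩ | ⟨h, _⟩
  · rw [h, Real.one_rpow]
    have : 0 ≤ u ^ (-q) := Real.rpow_nonneg hu _
    linarith
  · rw [h, Real.inv_rpow hu, ← Real.rpow_neg hu]
    linarith

/-- **the average of the truncated kernel over the roots** -/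
theorem avg_a {d : ℕ} (hd : 1 ≤ d) {x y c X Y : ℂ} (hX : X = x ^ d + c) (hY : Y = y ^ d + c)
    (hx : x ≠ 0) (hXY : X ≠ Y) (h7 : ‖X - c‖ ≤ 7) {q s : ℝ} (hq0 : 0 < q) (hq1 : q < 1) (hs : 0 ≤ s)
    (hsq : s + q / d ≤ q) :
    (max 1 ‖X - c‖⁻¹) ^ s * ((1 / (d : ℝ)) * ∑ k ∈ Finset.range d,
        (max 1 ‖om d ^ k * x - y‖⁻¹) ^ q) ≤
      17 / (1 - q) * (max 1 ‖X - c‖⁻¹) ^ (s + q / d) +
        14 * (d : ℝ) ^ (q - 1) * (max 1 ‖X - Y‖⁻¹) ^ q := by
  have hd0 : (0 : ℝ) < d := by exact_mod_cast hd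
  have hd1 : (1 : ℝ) ≤ d := by exact_mod_cast hd
  have h1q : 0 < 1 - q := by linarith
  have hdne : d ≠ 0 := by omega
  have eXc : X - c = x ^ d := by rw [hX]; ring
  have eXY : X - Y = x ^ d - y ^ d := by rw [hX, hY]; ring
  have hxy : x ^ d ≠ y ^ d := by
    intro h
    apply hXY
    rw [hX, hY, h]
  obtain ⟨M, hMx⟩ : ∃ M, M = max ‖x‖ ‖y‖ := ⟨_, rfl⟩
  have hM : 0 < M := by
    rw [hMx]
    exact lt_of_lt_of_le (norm_pos_iff.2 hx) (le_max_left _ _)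
  have hD : 0 < ‖X - c‖ := by
    rw [eXc, norm_pow]
    exact pow_pos (norm_pos_iff.2 hx) _
  have hΔ : 0 < ‖X - Y‖ := norm_pos_iff.2 (sub_ne_zero.2 hXY)
  have hMd : M ^ d = max ‖X - c‖ (‖y‖ ^ d) := by
    rw [eXc, norm_pow, hMx]
    rcases max_cases ‖x‖ ‖y‖ with ⟨h, h'⟩ | ⟨h, h'⟩
    · rw [h, max_eq_left]
      exact pow_le_pow_left₀ (norm_nonneg _) h' d
    · rw [h, max_eq_right]
      exact pow_le_pow_left₀ (norm_nonneg _) h'.le d
  have hγΔ : ‖y‖ ^ d - ‖X - c‖ ≤ ‖X - Y‖ := by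
    rw [eXc, eXY, ← norm_pow]
    have := norm_sub_norm_le (y ^ d) (x ^ d)
    rw [norm_sub_rev] at this
    exact this
  obtain ⟨k1, k2⟩ := key hd hD h7 hΔ hγΔ hM hMd hq0 hq1 hs hsq
  set a := max 1 ‖X - c‖⁻¹ with ha
  set b := max 1 ‖X - Y‖⁻¹ with hb
  have ha1 : 1 ≤ a := le_max_left _ _
  have hb1 : 1 ≤ b := le_max_left _ _
  have hR := root_avg hd hq0 hq1 hM hMx hxy
  rw [← eXY] at hR
  have h1 : (1 / (d : ℝ)) * ∑ k ∈ Finset.range d, (max 1 ‖om d ^ k * x - y‖⁻¹) ^ q ≤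
      1 + (1 / (d : ℝ)) * ∑ k ∈ Finset.range d, ‖om d ^ k * x - y‖ ^ (-q) := by
    have h2 : ∑ k ∈ Finset.range d, (max 1 ‖om d ^ k * x - y‖⁻¹) ^ q ≤
        ∑ k ∈ Finset.range d, (1 + ‖om d ^ k * x - y‖ ^ (-q)) :=
      Finset.sum_le_sum fun k _ => max_rpow_le (norm_nonneg _)
    rw [Finset.sum_add_distrib, Finset.sum_const, Finset.card_range, nsmul_eq_mul, mul_one] at h2
    have h3 := mul_le_mul_of_nonneg_left h2 (by positivity : 0 ≤ 1 / (d : ℝ))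
    rw [mul_add] at h3
    have e : 1 / (d : ℝ) * d = 1 := by field_simp
    rw [e] at h3
    exact h3
  have has : 0 ≤ a ^ s := by positivity
  have has' : a ^ s ≤ a ^ (s + q / d) := by
    apply Real.rpow_le_rpow_of_exponent_le ha1
    have : 0 ≤ q / d := by positivity
    linarith
  have hdq : (d : ℝ) ^ (q - 1) ≤ 1 := Real.rpow_le_one_of_one_le_of_nonpos hd1 (by linarith)
  have hdq0 : 0 ≤ (d : ℝ) ^ (q - 1) := by positivity
  have hap : 0 ≤ a ^ (s + q / d) := by positivity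
  have hbp : 0 ≤ b ^ q := by positivity
  calc a ^ s * ((1 / (d : ℝ)) * ∑ k ∈ Finset.range d, (max 1 ‖om d ^ k * x - y‖⁻¹) ^ q)
      ≤ a ^ s * (1 + (2 / (1 - q) * M ^ (-q) + (d : ℝ) ^ (q - 1) * (M ^ (d - 1) / ‖X - Y‖) ^ q)) := by
        apply mul_le_mul_of_nonneg_left _ has
        linarith
    _ = a ^ s + 2 / (1 - q) * (a ^ s * M ^ (-q)) +
        (d : ℝ) ^ (q - 1) * (a ^ s * (M ^ (d - 1) / ‖X - Y‖) ^ q) := by ring
    _ ≤ a ^ (s + q / d) + 2 / (1 - q) * a ^ (s + q / d) +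
        (d : ℝ) ^ (q - 1) * (14 * (a ^ (s + q / d) + b ^ q)) := by
        apply add_le_add (add_le_add has' _) _
        · exact mul_le_mul_of_nonneg_left k1 (by positivity)
        · exact mul_le_mul_of_nonneg_left k2 hdq0
    _ ≤ a ^ (s + q / d) + 2 / (1 - q) * a ^ (s + q / d) + 14 * a ^ (s + q / d) +
        14 * (d : ℝ) ^ (q - 1) * b ^ q := by nlinarith
    _ ≤ 17 / (1 - q) * a ^ (s + q / d) + 14 * (d : ℝ) ^ (q - 1) * b ^ q := by
        have h9 : 15 ≤ 15 / (1 - q) := by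
          rw [le_div_iff₀ h1q]
          linarith
        have e9 : 17 / (1 - q) = 15 / (1 - q) + 2 / (1 - q) := by ring
        rw [e9]
        nlinarith

/-- the average far from the set -/
theorem avg_top {d : ℕ} (hd : 1 ≤ d) {x y : ℂ} (hx : 1 ≤ ‖x‖) (hxy : x ^ d ≠ y ^ d)
    (h5 : max ‖x‖ ‖y‖ ^ d ≤ 5 * ‖x ^ d - y ^ d‖) {q : ℝ} (hq0 : 0 < q) (hq1 : q < 1) :
    (1 / (d : ℝ)) * ∑ k ∈ Finset.range d, (max 1 ‖om d ^ k * x - y‖⁻¹) ^ q ≤ 8 / (1 - q) := by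
  have hd0 : (0 : ℝ) < d := by exact_mod_cast hd
  have hd1 : (1 : ℝ) ≤ d := by exact_mod_cast hd
  have h1q : 0 < 1 - q := by linarith
  obtain ⟨M, hMx⟩ : ∃ M, M = max ‖x‖ ‖y‖ := ⟨_, rfl⟩
  have hM1 : 1 ≤ M := by
    rw [hMx]
    exact hx.trans (le_max_left _ _)
  have hM : 0 < M := by linarith
  have hΔ : 0 < ‖x ^ d - y ^ d‖ := norm_pos_iff.2 (sub_ne_zero.2 hxy)
  have hR := root_avg hd hq0 hq1 hM hMx hxy
  rw [← hMx] at h5
  have h1 : (1 / (d : ℝ)) * ∑ k ∈ Finset.range d, (max 1 ‖om d ^ k * x - y‖⁻¹) ^ q ≤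
      1 + (1 / (d : ℝ)) * ∑ k ∈ Finset.range d, ‖om d ^ k * x - y‖ ^ (-q) := by
    have h2 : ∑ k ∈ Finset.range d, (max 1 ‖om d ^ k * x - y‖⁻¹) ^ q ≤
        ∑ k ∈ Finset.range d, (1 + ‖om d ^ k * x - y‖ ^ (-q)) :=
      Finset.sum_le_sum fun k _ => max_rpow_le (norm_nonneg _)
    rw [Finset.sum_add_distrib, Finset.sum_const, Finset.card_range, nsmul_eq_mul, mul_one] at h2
    have h3 := mul_le_mul_of_nonneg_left h2 (by positivity : 0 ≤ 1 / (d : ℝ))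
    rw [mul_add] at h3
    have e : 1 / (d : ℝ) * d = 1 := by field_simp
    rw [e] at h3
    exact h3
  have h2 : M ^ (-q) ≤ 1 := Real.rpow_le_one_of_one_le_of_nonpos hM1 (by linarith)
  have h3 : (M ^ (d - 1) / ‖x ^ d - y ^ d‖) ^ q ≤ 5 := by
    have h4 : M ^ (d - 1) / ‖x ^ d - y ^ d‖ ≤ 5 := by
      rw [div_le_iff₀ hΔ]
      exact (pow_le_pow_right₀ hM1 (by omega)).trans h5
    calc (M ^ (d - 1) / ‖x ^ d - y ^ d‖) ^ q ≤ 5 ^ q := Real.rpow_le_rpow (by positivity) h4 hq0.le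
      _ ≤ 5 ^ (1 : ℝ) := Real.rpow_le_rpow_of_exponent_le (by norm_num) hq1.le
      _ = 5 := Real.rpow_one _
  have h4 : (d : ℝ) ^ (q - 1) ≤ 1 := Real.rpow_le_one_of_one_le_of_nonpos hd1 (by linarith)
  have h40 : 0 ≤ (d : ℝ) ^ (q - 1) := by positivity
  have h5 : (d : ℝ) ^ (q - 1) * (M ^ (d - 1) / ‖x ^ d - y ^ d‖) ^ q ≤ 1 * 5 :=
    mul_le_mul h4 h3 (by positivity) (by norm_num)
  have h6 : 2 / (1 - q) * M ^ (-q) ≤ 2 / (1 - q) := mul_le_of_le_one_right (by positivity) h2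
  have h9 : 6 ≤ 6 / (1 - q) := by
    rw [le_div_iff₀ h1q]
    linarith
  have e9 : 8 / (1 - q) = 6 / (1 - q) + 2 / (1 - q) := by ring
  rw [e9]
  linarith

/-- weighted arithmetic-geometric mean inequality with total weight at most one -/
theorem amgm (k : ℕ) {w u : ℕ → ℝ} (hw : ∀ i, 0 ≤ w i) (hw1 : ∑ i ∈ Finset.range k, w i ≤ 1) :
    Real.exp (∑ i ∈ Finset.range k, w i * u i) ≤ 1 + ∑ i ∈ Finset.range k, w i * Real.exp (u i) := by
  set w' : ℕ → ℝ := fun i => if i < k then w i else 1 - ∑ i ∈ Finset.range k, w i with hw'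
  set u' : ℕ → ℝ := fun i => if i < k then u i else 0 with hu'
  have hW : ∀ i ∈ Finset.range k, w' i = w i := fun i hi => by
    simp only [hw', Finset.mem_range.1 hi, if_true]
  have hU : ∀ i ∈ Finset.range k, u' i = u i := fun i hi => by
    simp only [hu', Finset.mem_range.1 hi, if_true]
  have hWk : w' k = 1 - ∑ i ∈ Finset.range k, w i := by simp [hw']
  have hUk : u' k = 0 := by simp [hu']
  have h := convexOn_exp.map_sum_le (t := Finset.range (k + 1)) (w := w') (p := u') (by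
    intro i _
    simp only [hw']
    split_ifs
    · exact hw i
    · linarith) (by
    rw [Finset.sum_range_succ, hWk, Finset.sum_congr rfl hW]
    ring) (fun i _ => mem_univ _)
  simp only [smul_eq_mul] at h
  rw [Finset.sum_range_succ, Finset.sum_range_succ, hWk, hUk, mul_zero, add_zero, Real.exp_zero,
    mul_one] at h
  have e1 : ∑ i ∈ Finset.range k, w' i * u' i = ∑ i ∈ Finset.range k, w i * u i :=
    Finset.sum_congr rfl fun i hi => by rw [hW i hi, hU i hi]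
  have e2 : ∑ i ∈ Finset.range k, w' i * Real.exp (u' i) = ∑ i ∈ Finset.range k, w i * Real.exp (u i) :=
    Finset.sum_congr rfl fun i hi => by rw [hW i hi, hU i hi]
  rw [e1, e2] at h
  have h0 : 0 ≤ ∑ i ∈ Finset.range k, w i := Finset.sum_nonneg fun i _ => hw i
  linarith

theorem exp_le_quad (x : ℝ) : Real.exp x ≤ 1 + x + x ^ 2 * Real.exp |x| := by
  rcases le_or_gt |x| 1 with h | h
  · have h1 := Real.abs_exp_sub_one_sub_id_le h
    have h2 := (abs_le.1 h1).2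
    have h3 : 1 ≤ Real.exp |x| := Real.one_le_exp (abs_nonneg x)
    nlinarith [sq_nonneg x]
  · have h3 : 1 ≤ Real.exp |x| := Real.one_le_exp (abs_nonneg x)
    have h4 : 1 ≤ x ^ 2 := by
      rw [← sq_abs]
      nlinarith
    have h5 : Real.exp x ≤ Real.exp |x| := Real.exp_le_exp.2 (le_abs_self x)
    rcases le_or_gt 0 x with h6 | h6
    · nlinarith
    · have h7 : Real.exp x ≤ 1 := Real.exp_le_one_iff.2 h6.le
      rw [abs_of_neg h6] at h h3 ⊢
      nlinarith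

theorem sq_le_exp {x : ℝ} (hx : 0 ≤ x) : x ^ 2 ≤ 2 * Real.exp x := by
  have := Real.quadratic_le_exp_of_nonneg hx
  nlinarith

end Pool.Agent.W5h55.JU
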