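import Pool.Agent.W5h55.JU.K9

set_option autoImplicit false

/-! # Rotation: real parameters and small parameters -/

namespace Pool.Agent.W5h55.JK

open Complex Metric Set Filter Topology MeasureTheory
open Pool.Agent.W677.Mar Pool.Agent.R250.MC Pool.Agent.W5h55.JU

variable {d : ℕ → ℕ} {c : ℕ → ℂ} {ψ h : ℕ → ℂ → ℂ}

/-- the ray lemma -/
theorem ray {θ : ℝ → ℝ} (hc : ContinuousOn θ (Ici 0)) (hcos : ∀ s, 0 ≤ s → Real.cos (θ s) ≠ 0)
    (hlim : Tendsto θ atTop (𝓝 0)) : |θ 0| < Real.pi / 2 := by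
  have hpi := Real.pi_gt_three
  by_contra hcon
  push Not at hcon
  obtain ⟨s₁, hs1, hs2⟩ := ((eventually_ge_atTop (0 : ℝ)).and
    ((tendsto_order.1 hlim.abs).2 1 (by simp))).exists
  have hIVT := intermediate_value_Icc' hs1 ((hc.mono Icc_subset_Ici_self).abs)
  obtain ⟨s, hs, hs'⟩ := hIVT ⟨by linarith, hcon⟩
  have hs'' : |θ s| = Real.pi / 2 := hs'
  apply hcos s hs.1
  rw [← Real.cos_abs, hs'', Real.cos_pi_div_two]

/-- existence of logarithms -/
theorem exists_log {q : ℂ → ℂ} (hq : Hol q 1) (hne : ∀ z, 1 < ‖z‖ → q z ≠ 0) :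
    ∃ g : ℂ → ℂ, Hol g 0 ∧ ∀ z, 1 < ‖z‖ → Complex.exp (g z) = q z := by
  have h00 : (0 : ℂ) ∈ ball (0 : ℂ) 1 := mem_ball_self one_pos
  set F : ℂ → ℂ := hat q 1 with hF
  have hFd := hat_diff hq
  have hF0 : F 0 = 1 := hat_zero _ _
  have hFne : ∀ w ∈ ball (0 : ℂ) 1, F w ≠ 0 := by
    intro w hw
    by_cases hw0 : w = 0
    · rw [hw0, hF0]; exact one_ne_zero
    · rw [hF, hat_ne _ _ hw0]
      exact hne _ (inv_ext hw hw0)
  have hdd : DifferentiableOn ℂ (fun w => deriv F w / F w) (ball 0 1) :=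
    (hFd.deriv isOpen_ball).div hFd hFne
  obtain ⟨g, hg0, hg⟩ := hdd.isExactOn_ball.with_val_at 0 0
  have hFder : ∀ w ∈ ball (0 : ℂ) 1, HasDerivAt F (deriv F w) w := fun w hw =>
    (hFd.differentiableAt (isOpen_ball.mem_nhds hw)).hasDerivAt
  have hgd : DifferentiableOn ℂ g (ball 0 1) := fun w hw =>
    (hg w hw).differentiableAt.differentiableWithinAt
  have hprod : ∀ w ∈ ball (0 : ℂ) 1, HasDerivAt (fun w => Complex.exp (-g w) * F w) 0 w := by
    intro w hw
    have h1 : HasDerivAt (fun w => Complex.exp (-g w) * F w)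
        (Complex.exp (-g w) * -(deriv F w / F w) * F w + Complex.exp (-g w) * deriv F w) w :=
      ((hg w hw).fun_neg.cexp).mul (hFder w hw)
    have h2 : deriv F w / F w * F w = deriv F w := div_mul_cancel₀ _ (hFne w hw)
    refine h1.congr_deriv ?_
    linear_combination (-Complex.exp (-g w)) * h2
  have hconst : ∀ w ∈ ball (0 : ℂ) 1, Complex.exp (-g w) * F w = 1 := by
    intro w hw
    have h1 := isOpen_ball.is_const_of_deriv_eq_zero (convex_ball (0 : ℂ) 1).isPreconnected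
      (f := fun w => Complex.exp (-g w) * F w)
      (fun w hw => (hprod w hw).differentiableAt.differentiableWithinAt)
      (fun w hw => (hprod w hw).deriv) hw h00
    simp only [hg0, neg_zero, Complex.exp_zero, hF0, one_mul] at h1
    exact h1
  refine ⟨fun z => g z⁻¹, ⟨?_, ?_⟩, ?_⟩
  · intro z hz
    have hz1 : 1 < ‖z‖ := hz
    have hzi : z⁻¹ ∈ ball (0 : ℂ) 1 := by
      rw [mem_ball_zero_iff, norm_inv]
      exact inv_lt_one_of_one_lt₀ hz1
    exact ((hg _ hzi).comp z (hasDerivAt_inv (ne_zero_of_ext hz1))).differentiableAt.differentiableWithinAt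
  · have h1 : ContinuousAt g 0 := (hg 0 h00).continuousAt
    have h2 := h1.tendsto
    rw [hg0] at h2
    exact h2.comp tendsto_inv₀_cobounded
  · intro z hz
    have hzi : z⁻¹ ∈ ball (0 : ℂ) 1 := by
      rw [mem_ball_zero_iff, norm_inv]
      exact inv_lt_one_of_one_lt₀ hz
    have h1 := hconst _ hzi
    rw [hF, hat_ne _ _ (inv_ne_zero (ne_zero_of_ext hz)), inv_inv, Complex.exp_neg] at h1
    have h2 := Complex.exp_ne_zero (g z⁻¹)
    exact (inv_mul_eq_one₀ h2).1 h1

theorem log_ker (ψ : ℂ → ℂ) (y : ℕ → ℂ) (j : ℕ) (z : ℂ) :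
    Real.log (ker ψ y j z) = Real.log (max 1 ‖ψ z - y (j + 1)‖⁻¹) := rfl

/-- from bounded rotation to the structure `Dyn` -/
theorem Sys.dyn (J : Sys d c ψ h) {A δ : ℝ} (hA : 0 ≤ A) (hδ : 0 ≤ δ)
    (hrot : ∀ n j, j < n → ∃ g : ℂ → ℂ, Hol g 0 ∧
      (∀ z, 1 < ‖z‖ → Complex.exp (g z) = (ψ n z - crit d c n (j + 1)) / z) ∧
      ∀ z, 1 < ‖z‖ → |(g z).im| ≤ A + δ * Real.log (ker (ψ n) (crit d c n) j z)) :
    ∃ G, Dyn (Real.sqrt (1 + δ ^ 2)) (A + 2) d c ψ h G := by
  choose! G hG using hrot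
  refine ⟨G, J, ?_, by linarith, fun n j hj => (hG n j hj).1, fun n j hj => (hG n j hj).2.1, ?_⟩
  · rw [Real.one_le_sqrt]
    nlinarith
  · intro n j hj z hz
    have h1 := J.re_le n j hz ((hG n j hj).2.1 z hz)
    have h2 := (hG n j hj).2.2 z hz
    have hl := log_ker_nonneg (ψ n) (crit d c n) j z
    set l := Real.log (ker (ψ n) (crit d c n) j z) with hld
    obtain ⟨ρ, hρ⟩ : ∃ ρ, ρ = Real.sqrt (1 + δ ^ 2) := ⟨_, rfl⟩
    have hρ0 : 0 ≤ ρ := by rw [hρ]; exact Real.sqrt_nonneg _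
    have hρ2 : ρ ^ 2 = 1 + δ ^ 2 := by rw [hρ, Real.sq_sqrt (by positivity)]
    have hρ1 : 1 ≤ ρ := by nlinarith
    have hρδ : δ ≤ ρ := by nlinarith
    rw [← hρ]
    have h3 : ‖G n j z‖ ^ 2 ≤ (ρ * l + (A + 2)) ^ 2 := by
      rw [← Complex.normSq_eq_norm_sq, Complex.normSq_apply, ← sq, ← sq, ← sq_abs (G n j z).re,
        ← sq_abs (G n j z).im]
      have h4 : |(G n j z).re| ^ 2 ≤ (l + 2) ^ 2 := pow_le_pow_left₀ (abs_nonneg _) h1 2
      have h5 : |(G n j z).im| ^ 2 ≤ (A + δ * l) ^ 2 := pow_le_pow_left₀ (abs_nonneg _) h2 2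
      have h6 : (l + 2) ^ 2 + (A + δ * l) ^ 2 ≤ (ρ * l + (A + 2)) ^ 2 := by
        have e : (ρ * l + (A + 2)) ^ 2 - ((l + 2) ^ 2 + (A + δ * l) ^ 2) =
            (ρ ^ 2 - (1 + δ ^ 2)) * l ^ 2 + 2 * l * (2 * (ρ - 1) + A * (ρ - δ)) + 4 * A := by ring
        rw [hρ2, sub_self, zero_mul, zero_add] at e
        have h7 : 0 ≤ 2 * l * (2 * (ρ - 1) + A * (ρ - δ)) := by
          have : 0 ≤ ρ - 1 := by linarith
          have : 0 ≤ ρ - δ := by linarith
          positivity
        linarith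
      linarith
    have h4 : 0 ≤ ρ * l + (A + 2) := by positivity
    exact (pow_le_pow_iff_left₀ (norm_nonneg _) h4 two_ne_zero).1 h3

/-! ## Real parameters -/

theorem Sys.crit_real (_J : Sys d c ψ h) (hc : ∀ n, (c n).im = 0) (n : ℕ) :
    ∀ j, (crit d c n j).im = 0 := by
  induction n with
  | zero =>
    intro j
    cases j <;> simp [crit]
  | succ n ih =>
    intro j
    cases j with
    | zero => simp [crit]
    | succ j =>
      rw [crit_succ, Complex.add_im, hc n, add_zero]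
      have h1 := ih j
      have h2 : crit d c n j = ((crit d c n j).re : ℂ) := by
        apply Complex.ext <;> simp [h1]
      rw [h2, ← Complex.ofReal_pow, Complex.ofReal_im]

/-- vertical rays -/
noncomputable def vr (z : ℂ) (σ s : ℝ) : ℂ := z + ((σ * s : ℝ) : ℂ) * Complex.I

theorem vr_re (z : ℂ) (σ s : ℝ) : (vr z σ s).re = z.re := by
  simp [vr]

theorem vr_im (z : ℂ) (σ s : ℝ) : (vr z σ s).im = z.im + σ * s := by
  simp [vr]

theorem vr_norm {z : ℂ} {σ s : ℝ} (hσ : 0 ≤ σ * z.im) (hs : 0 ≤ s) : ‖z‖ ≤ ‖vr z σ s‖ := by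
  rw [← pow_le_pow_iff_left₀ (norm_nonneg _) (norm_nonneg _) two_ne_zero,
    ← Complex.normSq_eq_norm_sq, ← Complex.normSq_eq_norm_sq, Complex.normSq_apply,
    Complex.normSq_apply, vr_re, vr_im]
  have h1 : 0 ≤ σ * z.im * s := mul_nonneg hσ hs
  have h2 : 0 ≤ (σ * s) ^ 2 := sq_nonneg _
  nlinarith

theorem vr_tendsto (z : ℂ) {σ : ℝ} (hσ : σ ^ 2 = 1) :
    Tendsto (vr z σ) atTop (Bornology.cobounded ℂ) := by
  rw [← tendsto_norm_atTop_iff_cobounded]
  have h1 : ∀ s : ℝ, s - ‖z‖ ≤ ‖vr z σ s‖ := by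
    intro s
    have h2 := norm_sub_norm_le (((σ * s : ℝ) : ℂ) * Complex.I) (-z)
    rw [sub_neg_eq_add, norm_neg, norm_mul, Complex.norm_I, mul_one, Complex.norm_real] at h2
    have h3 : s ≤ ‖σ * s‖ := by
      rw [Real.norm_eq_abs, abs_mul]
      have h4 : |σ| = 1 := by
        have : |σ| ^ 2 = 1 := by rw [sq_abs, hσ]
        have h5 := abs_nonneg σ
        nlinarith
      rw [h4, one_mul]
      exact le_abs_self s
    have e : ((σ * s : ℝ) : ℂ) * Complex.I + z = vr z σ s := by unfold vr; ring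
    rw [e] at h2
    linarith
  exact tendsto_atTop_mono h1 (tendsto_atTop_add_const_right _ _ tendsto_id)

theorem vr_cont (z : ℂ) (σ : ℝ) : Continuous (vr z σ) := by
  unfold vr
  fun_prop

theorem arg_vr (z : ℂ) {σ : ℝ} (hσ : σ = 1 ∨ σ = -1) :
    Tendsto (fun s => (vr z σ s).arg) atTop (𝓝 (σ * (Real.pi / 2))) := by
  have h1 : Tendsto (fun s : ℝ => ((s⁻¹ : ℝ) : ℂ) * vr z σ s) atTop (𝓝 ((σ : ℂ) * Complex.I)) := by
    have h2 : Tendsto (fun s : ℝ => ((s⁻¹ : ℝ) : ℂ) * z + (σ : ℂ) * Complex.I) atTop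
        (𝓝 (((0 : ℝ) : ℂ) * z + (σ : ℂ) * Complex.I)) := by
      apply Tendsto.add_const
      apply Tendsto.mul_const
      exact (Complex.continuous_ofReal.tendsto 0).comp tendsto_inv_atTop_zero
    rw [Complex.ofReal_zero, zero_mul, zero_add] at h2
    refine h2.congr' ?_
    filter_upwards [eventually_gt_atTop (0 : ℝ)] with s hs
    unfold vr
    have hs' : (s : ℂ) ≠ 0 := by exact_mod_cast hs.ne'
    push_cast
    field_simp
  have hσI : (σ : ℂ) * Complex.I ∈ slitPlane := by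
    rw [mem_slitPlane_iff]
    right
    rcases hσ with h | h <;> simp [h]
  have harg : ((σ : ℂ) * Complex.I).arg = σ * (Real.pi / 2) := by
    rcases hσ with h | h
    · rw [h]; simp
    · rw [h]
      have : (((-1 : ℝ) : ℂ)) * Complex.I = -Complex.I := by push_cast; ring
      rw [this, Complex.arg_neg_I]
      ring
  have h3 := (continuousAt_arg hσI).tendsto.comp h1
  rw [harg] at h3
  refine h3.congr' ?_
  filter_upwards [eventually_gt_atTop (0 : ℝ)] with s hs
  show (((s⁻¹ : ℝ) : ℂ) * vr z σ s).arg = (vr z σ s).arg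
  exact Complex.arg_real_mul _ (by positivity)

/-- rotation in the upper and in the lower half plane -/
theorem im_of_real {ψ g : ℂ → ℂ} {v : ℂ} (hg : Hol g 0)
    (hge : ∀ z, 1 < ‖z‖ → Complex.exp (g z) = (ψ z - v) / z) (hv : v.im = 0)
    (hψ : ∀ z, 1 < ‖z‖ → z.im ≠ 0 → (ψ z).im ≠ 0) {z : ℂ} (hz : 1 < ‖z‖) {σ : ℝ}
    (hσ : σ = 1 ∨ σ = -1) (hzσ : 0 < σ * z.im) : |(g z).im| ≤ Real.pi := by
  have hpi := Real.pi_pos
  have hσ2 : σ ^ 2 = 1 := by rcases hσ with h | h <;> rw [h] <;> norm_num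
  have him : ∀ s, 0 ≤ s → (vr z σ s).im ≠ 0 := by
    intro s hs h0
    rw [vr_im] at h0
    have h1 : σ * (z.im + σ * s) = σ * z.im + s := by
      have : σ * (z.im + σ * s) = σ * z.im + σ ^ 2 * s := by ring
      rw [this, hσ2, one_mul]
    rw [h0, mul_zero] at h1
    linarith
  have hext : ∀ s, 0 ≤ s → 1 < ‖vr z σ s‖ := fun s hs => hz.trans_le (vr_norm hzσ.le hs)
  set θ : ℝ → ℝ := fun s => (g (vr z σ s)).im + (vr z σ s).arg - σ * (Real.pi / 2) with hθ
  have h1 := ray (θ := θ) (by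
    apply ContinuousOn.sub _ continuousOn_const
    apply ContinuousOn.add
    · apply Complex.continuous_im.comp_continuousOn
      exact hg.1.continuousOn.comp (vr_cont z σ).continuousOn fun s hs => hext s hs
    · intro s hs
      apply ContinuousAt.continuousWithinAt
      apply ContinuousAt.comp (f := vr z σ) (g := Complex.arg) _ (vr_cont z σ).continuousAt
      exact continuousAt_arg (mem_slitPlane_iff.2 (Or.inr (him s hs))))
    (by
      intro s hs
      have hw := hext s hs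
      have hw0 := ne_zero_of_ext hw
      set w := vr z σ s with hwd
      have h2 : Complex.exp (g w + Complex.log w) = ψ w - v := by
        rw [Complex.exp_add, hge w hw, Complex.exp_log hw0]
        field_simp
      have h3 : (Complex.exp (g w + Complex.log w)).im ≠ 0 := by
        rw [h2, Complex.sub_im, hv, sub_zero]
        exact hψ w hw (him s hs)
      rw [Complex.exp_im, Complex.add_im, Complex.log_im] at h3
      have h4 : Real.sin ((g w).im + w.arg) ≠ 0 := right_ne_zero_of_mul h3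
      show Real.cos ((g w).im + w.arg - σ * (Real.pi / 2)) ≠ 0
      rcases hσ with h | h
      · rw [h, one_mul, Real.cos_sub_pi_div_two]
        exact h4
      · rw [h, neg_one_mul, sub_neg_eq_add, Real.cos_add_pi_div_two]
        exact neg_ne_zero.2 h4)
    (by
      have h2 := (Complex.continuous_im.tendsto 0).comp (hg.2.comp (vr_tendsto z hσ2))
      have h3 := (h2.add (arg_vr z hσ)).sub_const (σ * (Real.pi / 2))
      simpa using h3)
  have h2 : θ 0 = (g z).im + z.arg - σ * (Real.pi / 2) := by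
    simp [hθ, vr]
  rw [h2, abs_lt] at h1
  have h3 := Complex.neg_pi_lt_arg z
  have h4 := Complex.arg_le_pi z
  rw [abs_le]
  rcases hσ with h | h
  · rw [h, one_mul] at hzσ h1
    have h5 : 0 ≤ z.arg := Complex.arg_nonneg_iff.2 hzσ.le
    constructor <;> linarith [h1.1, h1.2]
  · rw [h] at hzσ h1
    have h5 : z.arg < 0 := Complex.arg_neg_iff.2 (by linarith)
    constructor <;> linarith [h1.1, h1.2]

theorem im_of_real' {ψ g : ℂ → ℂ} {v : ℂ} (hg : Hol g 0)
    (hge : ∀ z, 1 < ‖z‖ → Complex.exp (g z) = (ψ z - v) / z) (hv : v.im = 0)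
    (hψ : ∀ z, 1 < ‖z‖ → z.im ≠ 0 → (ψ z).im ≠ 0) {z : ℂ} (hz : 1 < ‖z‖) : |(g z).im| ≤ Real.pi := by
  rcases lt_trichotomy z.im 0 with h1 | h1 | h1
  · exact im_of_real hg hge hv hψ hz (σ := -1) (Or.inr rfl) (by linarith)
  · -- the real axis
    have h2 : Tendsto (fun s : ℝ => |(g (vr z 1 s)).im|) (𝓝[>] 0) (𝓝 |(g z).im|) := by
      have h3 : ContinuousAt g z := hg.1.continuousOn.continuousAt (isOpen_ext.mem_nhds hz)
      have h4 : Tendsto (vr z 1) (𝓝[>] 0) (𝓝 z) := by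
        have h5 := (vr_cont z 1).tendsto 0
        have h6 : vr z 1 0 = z := by simp [vr]
        rw [h6] at h5
        exact h5.mono_left nhdsWithin_le_nhds
      exact ((Complex.continuous_im.tendsto _).comp (h3.tendsto.comp h4)).abs
    apply le_of_tendsto h2
    filter_upwards [self_mem_nhdsWithin] with s hs
    have hs' : 0 < s := hs
    apply im_of_real hg hge hv hψ _ (σ := 1) (Or.inl rfl)
    · rw [vr_im, h1]
      linarith
    · exact hz.trans_le (vr_norm (by rw [h1]; simp) hs'.le)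
  · exact im_of_real hg hge hv hψ hz (σ := 1) (Or.inl rfl) (by linarith)

end Pool.Agent.W5h55.JK
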