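import Pool.Agent.W5h55.JU.K10

set_option autoImplicit false

/-! # Symmetry for real parameters -/

namespace Pool.Agent.W5h55.JK

open Complex Metric Set Filter Topology MeasureTheory
open Pool.Agent.W677.Mar Pool.Agent.R250.MC Pool.Agent.W5h55.JU

/-- what is needed for the uniqueness far from the set -/
structure Far (d : ℕ → ℕ) (c : ℕ → ℂ) (ψ : ℕ → ℂ → ℂ) : Prop where
  hd : ∀ n, 2 ≤ d n
  hc : ∀ n, ‖c n‖ ≤ 2
  fe : ∀ n z, 1 < ‖z‖ → ψ (n + 1) (z ^ d n) = ψ n z ^ d n + c n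
  cont : ∀ n, ContinuousOn (ψ n) {z : ℂ | 1 < ‖z‖}
  gr : ∀ n z, 4 ≤ ‖z‖ → ‖ψ n z - z‖ ≤ 4 / 15
  lim : ∀ n, Tendsto (fun z => ψ n z - z) (Bornology.cobounded ℂ) (𝓝 0)

variable {d : ℕ → ℕ} {c : ℕ → ℂ} {ψ φ h : ℕ → ℂ → ℂ}

/-- horizontal rays -/
noncomputable def hr (z : ℂ) (s : ℝ) : ℂ := ((1 + s : ℝ) : ℂ) * z

theorem hr_norm {z : ℂ} {s : ℝ} (hs : 0 ≤ s) : ‖z‖ ≤ ‖hr z s‖ := by
  unfold hr
  rw [norm_mul, Complex.norm_real, Real.norm_of_nonneg (by linarith)]
  nlinarith [norm_nonneg z]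

theorem hr_cont (z : ℂ) : Continuous (hr z) := by
  unfold hr
  fun_prop

theorem hr_tendsto {z : ℂ} (hz : 1 < ‖z‖) : Tendsto (hr z) atTop (Bornology.cobounded ℂ) := by
  rw [← tendsto_norm_atTop_iff_cobounded]
  have h1 : ∀ᶠ s : ℝ in atTop, s ≤ ‖hr z s‖ := by
    filter_upwards [eventually_ge_atTop (0 : ℝ)] with s hs
    unfold hr
    rw [norm_mul, Complex.norm_real, Real.norm_of_nonneg (by linarith)]
    nlinarith
  exact tendsto_atTop_mono' _ h1 tendsto_id

theorem exp_eq_one_of_small {w : ℂ} (h1 : Complex.exp w = 1) (h2 : |w.im| < Real.pi / 2) : w = 0 := by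
  have hpi := Real.pi_pos
  obtain ⟨n, hn⟩ := Complex.exp_eq_one_iff.1 h1
  have h3 : w.im = n * (2 * Real.pi) := by
    rw [hn]
    simp
  rw [h3, abs_mul, abs_of_pos (by positivity : 0 < 2 * Real.pi)] at h2
  have h4 : n = 0 := by
    by_contra h5
    have h6 : (1 : ℝ) ≤ |(n : ℝ)| := by
      have := Int.one_le_abs h5
      exact_mod_cast this
    nlinarith
  rw [hn, h4]
  simp

theorem near_one {z v w : ℂ} {r : ℝ} (hz : 4 ≤ ‖z‖) (h : ‖v - z - w‖ ≤ r) : ‖(v - w) / z - 1‖ ≤ r / 4 := by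
  have hz0 : z ≠ 0 := by rw [← norm_pos_iff]; linarith
  have e : (v - w) / z - 1 = (v - z - w) / z := by
    field_simp
    ring
  rw [e, norm_div, div_le_div_iff₀ (by linarith) (by norm_num)]
  have h0 := (norm_nonneg _).trans h
  nlinarith

theorem Far.gr' (F : Far d c ψ) (n : ℕ) {z : ℂ} (hz : 4 ≤ ‖z‖) : ‖ψ n z / z - 1‖ ≤ 1 / 15 := by
  have := near_one (v := ψ n z) (w := 0) (r := 4 / 15) hz (by rw [sub_zero]; exact F.gr n z hz)
  rw [sub_zero] at this
  linarith

theorem Far.gr'' (F : Far d c ψ) (n : ℕ) {z : ℂ} (hz : 4 ≤ ‖z‖) :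
    ‖(ψ (n + 1) z - c n) / z - 1‖ ≤ 34 / 60 := by
  have h1 : ‖ψ (n + 1) z - z - c n‖ ≤ 34 / 15 := by
    refine (norm_sub_le _ _).trans ?_
    have := F.gr (n + 1) z hz
    have := F.hc n
    linarith
  have := near_one hz h1
  linarith

theorem slit_of_near {x : ℂ} {r : ℝ} (h : ‖x - 1‖ ≤ r) (hr : r < 1) : x ∈ slitPlane := by
  rw [mem_slitPlane_iff]
  left
  have h1 := (Complex.abs_re_le_norm (x - 1)).trans h
  rw [Complex.sub_re, Complex.one_re] at h1
  have := (abs_le.1 h1).1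
  linarith

theorem Far.dne (F : Far d c ψ) (n : ℕ) : d n ≠ 0 := by have := F.hd n; omega

theorem norm_pow_ge {z : ℂ} (hz : 4 ≤ ‖z‖) {d : ℕ} (hd : d ≠ 0) : 4 ≤ ‖z ^ d‖ := by
  rw [norm_pow]
  calc (4 : ℝ) ≤ ‖z‖ := hz
    _ ≤ ‖z‖ ^ d := le_self_pow₀ (by linarith) hd

/-- the functional equation for the logarithms -/
theorem Far.log_eq (F : Far d c ψ) (n : ℕ) {z : ℂ} (hz : 4 ≤ ‖z‖) :
    (d n : ℂ) * Complex.log (ψ n z / z) =
      Complex.log ((ψ (n + 1) (z ^ d n) - c n) / z ^ d n) := by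
  have hz1 : 1 < ‖z‖ := by linarith
  set f : ℝ → ℂ := fun s => (d n : ℂ) * Complex.log (ψ n (hr z s) / hr z s) -
    Complex.log ((ψ (n + 1) (hr z s ^ d n) - c n) / hr z s ^ d n) with hf
  have h4 : ∀ s, 0 ≤ s → 4 ≤ ‖hr z s‖ := fun s hs => hz.trans (hr_norm hs)
  have hexp : ∀ s, 0 ≤ s → Complex.exp (f s) = 1 := by
    intro s hs
    have h5 := h4 s hs
    have h6 : 1 < ‖hr z s‖ := by linarith
    have h60 := ne_zero_of_ext h6
    have h7 := slit_of_near (F.gr' n h5) (by norm_num)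
    have h8 := slit_of_near (F.gr'' n (norm_pow_ge h5 (F.dne n))) (by norm_num)
    have h9 : ψ n (hr z s) ≠ 0 := by
      intro h0
      rw [h0, zero_div] at h7
      exact zero_notMem_slitPlane h7
    simp only [hf]
    rw [Complex.exp_sub, Complex.exp_nat_mul, Complex.exp_log (slitPlane_ne_zero h7),
      Complex.exp_log (slitPlane_ne_zero h8), F.fe n _ h6, add_sub_cancel_right, div_pow]
    exact div_self (div_ne_zero (pow_ne_zero _ h9) (pow_ne_zero _ h60))
  have hcont : ContinuousOn f (Ici 0) := by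
    apply ContinuousOn.sub
    · apply continuousOn_const.mul
      apply ContinuousOn.clog
      · apply ContinuousOn.div
        · exact (F.cont n).comp (hr_cont z).continuousOn fun s hs => by
            have := h4 s hs
            show 1 < ‖hr z s‖
            linarith
        · exact (hr_cont z).continuousOn
        · intro s hs
          exact ne_zero_of_ext (by have := h4 s hs; linarith)
      · intro s hs
        exact slit_of_near (F.gr' n (h4 s hs)) (by norm_num)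
    · apply ContinuousOn.clog
      · apply ContinuousOn.div
        · apply ContinuousOn.sub _ continuousOn_const
          exact (F.cont (n + 1)).comp ((hr_cont z).pow (d n)).continuousOn fun s hs => by
            have := norm_pow_ge (h4 s hs) (F.dne n)
            show 1 < ‖hr z s ^ d n‖
            linarith
        · exact ((hr_cont z).pow (d n)).continuousOn
        · intro s hs
          exact pow_ne_zero _ (ne_zero_of_ext (by have := h4 s hs; linarith))
      · intro s hs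
        exact slit_of_near (F.gr'' n (norm_pow_ge (h4 s hs) (F.dne n))) (by norm_num)
  have hq : ∀ (m : ℕ) (w : ℂ), Tendsto (fun z => (ψ m z - w) / z) (Bornology.cobounded ℂ) (𝓝 1) := by
    intro m w
    have h1 : Tendsto (fun z : ℂ => z⁻¹) (Bornology.cobounded ℂ) (𝓝 0) := tendsto_inv₀_cobounded
    have h2 := (((F.lim m).sub_const w).mul h1).add_const 1
    rw [mul_zero, zero_add] at h2
    refine h2.congr' ?_
    filter_upwards [ev_ext] with z hz
    have := ne_zero_of_ext hz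
    field_simp
    ring
  have hlim : Tendsto f atTop (𝓝 0) := by
    have h1 := (hq n 0).comp (hr_tendsto hz1)
    have h2 := (hq (n + 1) (c n)).comp ((tendsto_pow_cob (F.dne n)).comp (hr_tendsto hz1))
    have h3 := (h1.clog (Complex.one_mem_slitPlane)).const_mul (d n : ℂ)
    have h5 := h2.clog (Complex.one_mem_slitPlane)
    have h6 := h3.sub h5
    rw [Complex.log_one, mul_zero, sub_zero] at h6
    refine h6.congr fun s => ?_
    simp [hf, Function.comp]
  have h1 := ray (θ := fun s => (f s).im) (Complex.continuous_im.comp_continuousOn hcont)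
    (by
      intro s hs
      have h2 := hexp s hs
      have h3 := congrArg Complex.re h2
      rw [Complex.exp_re, Complex.one_re] at h3
      intro h5
      rw [h5, mul_zero] at h3
      exact zero_ne_one h3)
    (by
      have := (Complex.continuous_im.tendsto 0).comp hlim
      rw [Complex.zero_im] at this
      exact this)
  have h2 := exp_eq_one_of_small (hexp 0 le_rfl) h1
  have h3 : hr z 0 = z := by simp [hr]
  simp only [hf, h3] at h2
  exact sub_eq_zero.1 h2

theorem log_lip {x y : ℂ} (hx : ‖x - 1‖ ≤ 34 / 60) (hy : ‖y - 1‖ ≤ 34 / 60) :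
    ‖Complex.log x - Complex.log y‖ ≤ 5 / 2 * ‖x - y‖ := by
  apply (convex_closedBall (1 : ℂ) (34 / 60)).norm_image_sub_le_of_norm_deriv_le (𝕜 := ℂ)
    (f := Complex.log) (C := 5 / 2) _ _ (mem_closedBall_iff_norm.2 hy) (mem_closedBall_iff_norm.2 hx)
  · intro w hw
    exact (hasDerivAt_log (slit_of_near (mem_closedBall_iff_norm.1 hw) (by norm_num))).differentiableAt
  · intro w hw
    have h1 := mem_closedBall_iff_norm.1 hw
    rw [(hasDerivAt_log (slit_of_near h1 (by norm_num))).deriv, norm_inv]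
    have h2 := norm_sub_norm_le (1 : ℂ) (1 - w)
    rw [sub_sub_cancel, norm_one, norm_sub_rev 1 w] at h2
    rw [inv_le_comm₀ (by linarith) (by norm_num)]
    linarith

/-- contraction of the difference of two solutions -/
theorem Far.contract (F : Far d c ψ) (F' : Far d c φ) (n : ℕ) {z : ℂ} (hz : 4 ≤ ‖z‖) :
    ‖ψ n z - φ n z‖ ≤ 2 / 3 * ‖ψ (n + 1) (z ^ d n) - φ (n + 1) (z ^ d n)‖ := by
  have hz0 : z ≠ 0 := ne_zero_of_ext (by linarith)
  have hzp : 0 < ‖z‖ := by linarith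
  have hV4 := norm_pow_ge hz (F.dne n)
  have hV0 : z ^ d n ≠ 0 := pow_ne_zero _ hz0
  have hVp : 0 < ‖z ^ d n‖ := by linarith
  have hd2 : (2 : ℝ) ≤ d n := by exact_mod_cast F.hd n
  have hd0 : (d n : ℂ) ≠ 0 := by exact_mod_cast F.dne n
  obtain ⟨U, hU⟩ : ∃ U, U = ‖ψ (n + 1) (z ^ d n) - φ (n + 1) (z ^ d n)‖ := ⟨_, rfl⟩
  have hU0 : 0 ≤ U := by rw [hU]; exact norm_nonneg _
  have hU1 : U ≤ 8 / 15 := by
    rw [hU]
    have e : ψ (n + 1) (z ^ d n) - φ (n + 1) (z ^ d n) =
        (ψ (n + 1) (z ^ d n) - z ^ d n) - (φ (n + 1) (z ^ d n) - z ^ d n) := by ring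
    rw [e]
    refine (norm_sub_le _ _).trans ?_
    have := F.gr (n + 1) _ hV4
    have := F'.gr (n + 1) _ hV4
    linarith
  rw [← hU]
  set p := Complex.log (ψ n z / z) with hp
  set p' := Complex.log (φ n z / z) with hp'
  have h1 : (d n : ℂ) * (p - p') = Complex.log ((ψ (n + 1) (z ^ d n) - c n) / z ^ d n) -
      Complex.log ((φ (n + 1) (z ^ d n) - c n) / z ^ d n) := by
    rw [mul_sub, hp, hp', F.log_eq n hz, F'.log_eq n hz]
  have h2 := log_lip (F.gr'' n hV4) (F'.gr'' n hV4)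
  have e2 : (ψ (n + 1) (z ^ d n) - c n) / z ^ d n - (φ (n + 1) (z ^ d n) - c n) / z ^ d n =
      (ψ (n + 1) (z ^ d n) - φ (n + 1) (z ^ d n)) / z ^ d n := by
    rw [← sub_div]
    congr 1
    ring
  rw [← h1, e2, norm_mul, norm_div, ← hU, Complex.norm_natCast] at h2
  have h3 : ‖p - p'‖ ≤ 5 / 4 * (U / ‖z ^ d n‖) := by
    have h4 : 2 * ‖p - p'‖ ≤ d n * ‖p - p'‖ := mul_le_mul_of_nonneg_right hd2 (norm_nonneg _)
    linarith
  have h4 : ‖z‖ * 4 ≤ ‖z ^ d n‖ := by
    rw [norm_pow]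
    calc ‖z‖ * 4 ≤ ‖z‖ * ‖z‖ := mul_le_mul_of_nonneg_left hz hzp.le
      _ = ‖z‖ ^ 2 := (sq _).symm
      _ ≤ ‖z‖ ^ d n := pow_le_pow_right₀ (by linarith) (F.hd n)
  have h5 : U / ‖z ^ d n‖ ≤ U / (‖z‖ * 4) := div_le_div_of_nonneg_left hU0 (by positivity) h4
  have h6 : ‖p - p'‖ ≤ 5 / 16 * (U / ‖z‖) := by
    have e : U / (‖z‖ * 4) = 1 / 4 * (U / ‖z‖) := by field_simp
    rw [e] at h5
    linarith
  have h7 : U / ‖z‖ ≤ U / 4 := div_le_div_of_nonneg_left hU0 (by norm_num) hz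
  have h8 : ‖p - p'‖ ≤ 1 := by linarith
  have h9 := Complex.norm_exp_sub_one_le h8
  have s1 := slit_of_near (F.gr' n hz) (by norm_num)
  have s2 := slit_of_near (F'.gr' n hz) (by norm_num)
  have e3 : ψ n z - φ n z = z * (Complex.exp p' * (Complex.exp (p - p') - 1)) := by
    rw [mul_sub, mul_one, ← Complex.exp_add, add_sub_cancel, hp, hp',
      Complex.exp_log (slitPlane_ne_zero s1), Complex.exp_log (slitPlane_ne_zero s2)]
    field_simp
  have h10 : ‖Complex.exp p'‖ ≤ 16 / 15 := by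
    rw [hp', Complex.exp_log (slitPlane_ne_zero s2)]
    have h11 := F'.gr' n hz
    have h12 := norm_sub_norm_le (φ n z / z) 1
    rw [norm_one] at h12
    linarith
  rw [e3, norm_mul, norm_mul]
  calc ‖z‖ * (‖Complex.exp p'‖ * ‖Complex.exp (p - p') - 1‖) ≤
      ‖z‖ * (16 / 15 * (2 * (5 / 16 * (U / ‖z‖)))) := by
        apply mul_le_mul_of_nonneg_left _ hzp.le
        apply mul_le_mul h10 _ (norm_nonneg _) (by norm_num)
        linarith
    _ = 2 / 3 * U := by
        have e4 : ‖z‖ * (U / ‖z‖) = U := by field_simp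
        linear_combination (2 / 3) * e4

theorem Far.unique (F : Far d c ψ) (F' : Far d c φ) (n : ℕ) {z : ℂ} (hz : 4 ≤ ‖z‖) :
    ψ n z = φ n z := by
  have h1 : ∀ m n : ℕ, ∀ z : ℂ, 4 ≤ ‖z‖ → ‖ψ n z - φ n z‖ ≤ (2 / 3) ^ m * (8 / 15) := by
    intro m
    induction m with
    | zero =>
      intro n z hz
      have e : ψ n z - φ n z = (ψ n z - z) - (φ n z - z) := by ring
      rw [e, pow_zero, one_mul]
      refine (norm_sub_le _ _).trans ?_
      have := F.gr n _ hz
      have := F'.gr n _ hz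
      linarith
    | succ m ih =>
      intro n z hz
      have h2 := F.contract F' n hz
      have h3 := ih (n + 1) (z ^ d n) (norm_pow_ge hz (F.dne n))
      rw [pow_succ]
      linarith
  have h2 : Tendsto (fun m : ℕ => (2 / 3 : ℝ) ^ m * (8 / 15)) atTop (𝓝 (0 * (8 / 15))) :=
    (tendsto_pow_atTop_nhds_zero_of_lt_one (by norm_num) (by norm_num)).mul_const _
  rw [zero_mul] at h2
  have h3 := ge_of_tendsto' h2 (fun m => h1 m n z hz)
  exact sub_eq_zero.1 (norm_le_zero_iff.1 h3)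

theorem Sys.far (J : Sys d c ψ h) : Far d c ψ :=
  ⟨J.hd, J.c_le, J.fe, fun n => (J.sig n).1.continuousOn, fun n _ hz => J.growth4 n hz, J.b0⟩

theorem Far.conj (F : Far d c ψ) (hc : ∀ n, (c n).im = 0) :
    Far d c (fun n z => (starRingEnd ℂ) (ψ n ((starRingEnd ℂ) z))) := by
  refine ⟨F.hd, F.hc, ?_, ?_, ?_, ?_⟩
  · intro n z hz
    have h1 := F.fe n ((starRingEnd ℂ) z) (by rw [RCLike.norm_conj]; exact hz)
    show (starRingEnd ℂ) (ψ (n + 1) ((starRingEnd ℂ) (z ^ d n))) = _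
    rw [map_pow, h1, map_add, map_pow, Complex.conj_eq_iff_im.2 (hc n)]
  · intro n
    apply Complex.continuous_conj.comp_continuousOn
    exact (F.cont n).comp Complex.continuous_conj.continuousOn fun z hz => by
      show 1 < ‖(starRingEnd ℂ) z‖
      rw [RCLike.norm_conj]
      exact hz
  · intro n z hz
    have h1 := F.gr n ((starRingEnd ℂ) z) (by rw [RCLike.norm_conj]; exact hz)
    have e : (starRingEnd ℂ) (ψ n ((starRingEnd ℂ) z)) - z =
        (starRingEnd ℂ) (ψ n ((starRingEnd ℂ) z) - (starRingEnd ℂ) z) := by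
      rw [map_sub, Complex.conj_conj]
    rw [e, RCLike.norm_conj]
    exact h1
  · intro n
    have h1 : Tendsto (fun z : ℂ => (starRingEnd ℂ) z) (Bornology.cobounded ℂ)
        (Bornology.cobounded ℂ) := by
      rw [← tendsto_norm_atTop_iff_cobounded]
      simp only [RCLike.norm_conj]
      exact tendsto_norm_cobounded_atTop
    have h2 := (Complex.continuous_conj.tendsto 0).comp ((F.lim n).comp h1)
    rw [map_zero] at h2
    refine h2.congr fun z => ?_
    simp [Function.comp]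

/-- **Symmetry.** -/
theorem Sys.symm_real (J : Sys d c ψ h) (hc : ∀ n, (c n).im = 0) (n : ℕ) {z : ℂ} (hz : 1 < ‖z‖) :
    (starRingEnd ℂ) (ψ n ((starRingEnd ℂ) z)) = ψ n z := by
  have h00 : (0 : ℂ) ∈ ball (0 : ℂ) 1 := mem_ball_self one_pos
  have hF := J.far.conj hc
  have hconj : ∀ z : ℂ, 1 < ‖z‖ → 1 < ‖(starRingEnd ℂ) z‖ := fun z hz => by
    rw [RCLike.norm_conj]; exact hz
  have hdiff : DifferentiableOn ℂ (fun z => (starRingEnd ℂ) (ψ n ((starRingEnd ℂ) z)))
      {z : ℂ | 1 < ‖z‖} := by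
    intro z hz
    have h1 : DifferentiableAt ℂ (ψ n) ((starRingEnd ℂ) z) :=
      (J.sig n).1.differentiableAt (isOpen_ext.mem_nhds (hconj z hz))
    have h2 := h1.conj_conj
    rw [Complex.conj_conj] at h2
    exact h2.differentiableWithinAt
  have hu : Hol (fun z => (starRingEnd ℂ) (ψ n ((starRingEnd ℂ) z)) - ψ n z) 0 := by
    refine ⟨hdiff.sub (J.sig n).1, ?_⟩
    have h1 := (hF.lim n).sub (J.b0 n)
    rw [sub_zero] at h1
    refine h1.congr fun z => ?_
    ring
  have hHd := hat_diff hu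
  have hzero : ∀ᶠ w in 𝓝 (0 : ℂ), hat (fun z => (starRingEnd ℂ) (ψ n ((starRingEnd ℂ) z)) - ψ n z) 0 w = 0 := by
    filter_upwards [ball_mem_nhds (0 : ℂ) (by norm_num : (0 : ℝ) < 1 / 4)] with w hw
    by_cases hw0 : w = 0
    · rw [hw0, hat_zero]
    · rw [hat_ne _ _ hw0]
      have h4 : 4 ≤ ‖w⁻¹‖ := by
        rw [norm_inv]
        rw [mem_ball_zero_iff] at hw
        have : 0 < ‖w‖ := norm_pos_iff.2 hw0
        rw [le_inv_comm₀ (by norm_num) this]
        linarith
      rw [hF.unique J.far n h4, sub_self]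
  have hall := (hHd.analyticOnNhd isOpen_ball).eqOn_zero_of_preconnected_of_eventuallyEq_zero
    (convex_ball (0 : ℂ) 1).isPreconnected h00 hzero
  have hzi : z⁻¹ ∈ ball (0 : ℂ) 1 := by
    rw [mem_ball_zero_iff, norm_inv]
    exact inv_lt_one_of_one_lt₀ hz
  have h1 := hall hzi
  rw [hat_ne _ _ (inv_ne_zero (ne_zero_of_ext hz)), inv_inv] at h1
  exact sub_eq_zero.1 h1

/-- **Bounded rotation for real parameters.** -/
theorem Sys.rot_real (J : Sys d c ψ h) (hc : ∀ n, (c n).im = 0) (n j : ℕ) :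
    ∃ g : ℂ → ℂ, Hol g 0 ∧
      (∀ z, 1 < ‖z‖ → Complex.exp (g z) = (ψ n z - crit d c n j) / z) ∧
      ∀ z, 1 < ‖z‖ → |(g z).im| ≤ Real.pi := by
  have hq : Hol (fun z => (ψ n z - crit d c n j) / z) 1 := by
    constructor
    · apply ((J.sig n).1.sub_const _).div differentiableOn_id
      intro z hz
      exact ne_zero_of_ext hz
    · have h1 : Tendsto (fun z : ℂ => z⁻¹) (Bornology.cobounded ℂ) (𝓝 0) := tendsto_inv₀_cobounded
      have h2 := (((J.b0 n).sub_const (crit d c n j)).mul h1).add_const 1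
      rw [mul_zero, zero_add] at h2
      refine h2.congr' ?_
      filter_upwards [ev_ext] with z hz
      have := ne_zero_of_ext hz
      field_simp
      ring
  obtain ⟨g, hg, hge⟩ := exists_log hq (fun z hz =>
    div_ne_zero (sub_ne_zero.2 (J.omit n j z hz)) (ne_zero_of_ext hz))
  refine ⟨g, hg, hge, fun z hz => ?_⟩
  apply im_of_real' hg hge (J.crit_real hc n j) _ hz
  intro z hz him h0
  have h1 := J.symm_real hc n hz
  have h2 : (starRingEnd ℂ) (ψ n z) = ψ n z := Complex.conj_eq_iff_im.2 h0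
  have h3 : ψ n ((starRingEnd ℂ) z) = ψ n z := by
    rw [← Complex.conj_conj (ψ n ((starRingEnd ℂ) z)), h1, h2]
  have h4 := (J.sig n).2.1 (show 1 < ‖(starRingEnd ℂ) z‖ by rw [RCLike.norm_conj]; exact hz) hz h3
  exact him (Complex.conj_eq_iff_im.1 h4)

end Pool.Agent.W5h55.JK
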