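import Pool.Agent.W5h55.JU.K11

set_option autoImplicit false

/-! # Small parameters -/

namespace Pool.Agent.W5h55.JK

open Complex Metric Set Filter Topology MeasureTheory
open Pool.Agent.W677.Mar Pool.Agent.R250.MC Pool.Agent.W5h55.JU

variable {d : ℕ → ℕ} {c : ℕ → ℂ} {ψ h : ℕ → ℂ → ℂ}

theorem Sys.crit_small (_J : Sys d c ψ h) {x : ℝ} (hx : 0 < x) (hxc : ∀ n, x ^ d n + ‖c n‖ ≤ x) (n : ℕ) :
    ∀ j, ‖crit d c n j‖ ≤ x := by
  induction n with
  | zero =>
    intro j
    cases j <;> simp [crit, hx.le]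
  | succ n ih =>
    intro j
    cases j with
    | zero => simp [crit, hx.le]
    | succ j =>
      rw [crit_succ]
      refine (norm_add_le _ _).trans ((add_le_add ?_ le_rfl).trans (hxc n))
      rw [norm_pow]
      exact pow_le_pow_left₀ (norm_nonneg _) (ih j) _

theorem Sys.ψ_large (J : Sys d c ψ h) {x : ℝ} (hxc : ∀ n, x ^ d n + ‖c n‖ ≤ x) (n : ℕ)
    {z : ℂ} (hz : 1 < ‖z‖) : x < ‖ψ n z‖ := by
  by_contra hcon
  push Not at hcon
  have h1 : ∀ m : ℕ, ∃ w : ℂ, 1 < ‖w‖ ∧ ‖z‖ ^ (2 ^ m) ≤ ‖w‖ ∧ ‖ψ (n + m) w‖ ≤ x := by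
    intro m
    induction m with
    | zero => exact ⟨z, hz, by simp, hcon⟩
    | succ m ih =>
      obtain ⟨w, hw, h1, h2⟩ := ih
      refine ⟨w ^ d (n + m), pow_ext hw (J.dne _), ?_, ?_⟩
      · rw [norm_pow, pow_succ, pow_mul]
        calc (‖z‖ ^ 2 ^ m) ^ 2 ≤ ‖w‖ ^ 2 := pow_le_pow_left₀ (by positivity) h1 2
          _ ≤ ‖w‖ ^ d (n + m) := pow_le_pow_right₀ hw.le (J.hd _)
      · rw [← add_assoc, J.fe _ _ hw]
        refine (norm_add_le _ _).trans ((add_le_add ?_ le_rfl).trans (hxc (n + m)))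
        rw [norm_pow]
        exact pow_le_pow_left₀ (norm_nonneg _) h2 _
  obtain ⟨m, hm⟩ := pow_unbounded_of_one_lt (max x 0 + 2) hz
  obtain ⟨w, hw, h2, h3⟩ := h1 m
  have h4 : ‖z‖ ^ m ≤ ‖z‖ ^ (2 ^ m) := pow_le_pow_right₀ hz.le (Nat.lt_pow_self (by norm_num)).le
  have h5 : max x 0 + 2 < ‖w‖ := by linarith
  have h6 := le_max_left x 0
  have h7 := le_max_right x 0
  have h8 := J.growth2 (n + m) (z := w) (by linarith)
  have h9 := norm_sub_norm_le w (w - ψ (n + m) w)
  rw [sub_sub_cancel, norm_sub_rev w] at h9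
  linarith

/-- the logarithm of `1 - v / ψ` -/
theorem Sys.hol_log (J : Sys d c ψ h) (n : ℕ) {x : ℝ} (hψ : ∀ z, 1 < ‖z‖ → x < ‖ψ n z‖) {v : ℂ}
    (hv : ‖v‖ ≤ x) : Hol (fun z => Complex.log (1 - v / ψ n z)) 0 ∧
      (∀ z, 1 < ‖z‖ → |(Complex.log (1 - v / ψ n z)).im| ≤ Real.pi / 2) ∧
      ∀ z, 1 < ‖z‖ → Complex.exp (Complex.log (1 - v / ψ n z)) = (ψ n z - v) / ψ n z := by
  have hx0 : 0 ≤ x := (norm_nonneg v).trans hv
  have hre : ∀ z, 1 < ‖z‖ → 0 < (1 - v / ψ n z).re := by
    intro z hz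
    have h1 := hψ z hz
    have h2 : ‖v / ψ n z‖ < 1 := by
      rw [norm_div, div_lt_one (by linarith)]
      linarith
    have h3 := Complex.re_le_norm (v / ψ n z)
    rw [Complex.sub_re, Complex.one_re]
    linarith
  have hsl : ∀ z, 1 < ‖z‖ → 1 - v / ψ n z ∈ slitPlane := fun z hz => Or.inl (hre z hz)
  refine ⟨⟨?_, ?_⟩, ?_, ?_⟩
  · apply DifferentiableOn.clog
    · apply DifferentiableOn.const_sub
      apply DifferentiableOn.div (differentiableOn_const _) (J.sig n).1
      intro z hz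
      exact J.ne0 n hz
    · intro z hz
      exact hsl z hz
  · have h1 : Tendsto (fun z : ℂ => z⁻¹) (Bornology.cobounded ℂ) (𝓝 0) := tendsto_inv₀_cobounded
    have h2 := (h1.const_mul v).div (hol_q (J.sig n)).2 one_ne_zero
    rw [mul_zero, zero_div] at h2
    have h3 := (h2.const_sub 1).clog (by rw [sub_zero]; exact Complex.one_mem_slitPlane)
    rw [sub_zero, Complex.log_one] at h3
    refine h3.congr' ?_
    filter_upwards [ev_ext] with z hz
    have hz0 := ne_zero_of_ext hz
    have hψ0 := J.ne0 n hz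
    have e : v * z⁻¹ / (ψ n z / z) = v / ψ n z := by field_simp
    simp only [Pi.div_apply]
    rw [e]
  · intro z hz
    rw [Complex.log_im]
    exact (Complex.abs_arg_lt_pi_div_two_iff.2 (Or.inl (hre z hz))).le
  · intro z hz
    have hψ0 := J.ne0 n hz
    rw [Complex.exp_log (slitPlane_ne_zero (hsl z hz))]
    field_simp

/-- **Bounded rotation for small parameters.** -/
theorem Sys.rot_small (J : Sys d c ψ h) {x : ℝ} (hx : 0 < x) (hxc : ∀ n, x ^ d n + ‖c n‖ ≤ x)
    (n j : ℕ) : ∃ g : ℂ → ℂ, Hol g 0 ∧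
      (∀ z, 1 < ‖z‖ → Complex.exp (g z) = (ψ n z - crit d c n j) / z) ∧
      ∀ z, 1 < ‖z‖ → |(g z).im| ≤ Real.pi := by
  have hpi := Real.pi_pos
  have hex : ∀ n, ∃ g : ℂ → ℂ, Hol g 0 ∧ ∀ z, 1 < ‖z‖ → Complex.exp (g z) = ψ n z / z := fun n =>
    exists_log (hol_q (J.sig n)) (fun z hz => div_ne_zero (J.ne0 n hz) (ne_zero_of_ext hz))
  choose g0 hg0 hg0e using hex
  -- far from the set
  have hfar : ∀ n z, 4 ≤ ‖z‖ → |(g0 n z).im| ≤ Real.pi / 2 := by
    intro n z hz
    have hz1 : 1 < ‖z‖ := by linarith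
    have h1 := ray (θ := fun s => (g0 n (hr z s)).im) (by
      apply Complex.continuous_im.comp_continuousOn
      exact (hg0 n).1.continuousOn.comp (hr_cont z).continuousOn fun s hs => hz1.trans_le (hr_norm hs))
      (by
        intro s hs
        have h4 : 4 ≤ ‖hr z s‖ := hz.trans (hr_norm hs)
        have h2 := hg0e n (hr z s) (by linarith)
        have h3 := congrArg Complex.re h2
        rw [Complex.exp_re] at h3
        intro h5
        rw [h5, mul_zero] at h3
        have h6 := J.far.gr' n h4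
        have h7 := (Complex.abs_re_le_norm _).trans h6
        rw [Complex.sub_re, ← h3, Complex.one_re, zero_sub, abs_neg, abs_one] at h7
        norm_num at h7)
      (by
        have := (Complex.continuous_im.tendsto 0).comp ((hg0 n).2.comp (hr_tendsto hz1))
        rw [Complex.zero_im] at this
        exact this)
    have h3 : hr z 0 = z := by simp [hr]
    simp only [h3] at h1
    exact h1.le
  -- all points
  have hall : ∀ N n : ℕ, ∀ z : ℂ, 1 < ‖z‖ → 4 ≤ ‖z‖ ^ (2 ^ N) → |(g0 n z).im| ≤ Real.pi / 2 := by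
    intro N
    induction N with
    | zero =>
      intro n z _ h4
      rw [pow_zero, pow_one] at h4
      exact hfar n z h4
    | succ N ih =>
      intro n z hz h4
      have h1 := ih (n + 1) (z ^ d n) (pow_ext hz (J.dne n)) (by
        rw [norm_pow, ← pow_mul]
        refine h4.trans ?_
        apply pow_le_pow_right₀ hz.le
        rw [pow_succ']
        exact Nat.mul_le_mul_right _ (J.hd n))
      have hcn : ‖c n‖ ≤ x := by
        have := hxc n
        have : 0 ≤ x ^ d n := by positivity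
        linarith
      obtain ⟨l1, l2, l3⟩ := J.hol_log (n + 1) (fun z hz => J.ψ_large hxc (n + 1) hz) hcn
      have hH : Hol (fun z => ((d n : ℂ) * g0 n z - g0 (n + 1) (z ^ d n)) -
          Complex.log (1 - c n / ψ (n + 1) (z ^ d n))) 0 :=
        Hol.sub (Hol.sub (Hol.const_mul (hg0 n) _) (Hol.comp_pow (hg0 (n + 1)) (J.dne n)))
          (Hol.comp_pow l1 (J.dne n))
      have h2 := exp_one hH (fun w hw => by
        have hwd := pow_ext hw (J.dne n)
        have hw0 := ne_zero_of_ext hw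
        have hψ0 := J.ne0 n hw
        have hψ1 := J.ne0 (n + 1) hwd
        rw [Complex.exp_sub, Complex.exp_sub, Complex.exp_nat_mul, hg0e n w hw, hg0e (n + 1) _ hwd,
          l3 _ hwd, div_div]
        have e : ψ (n + 1) (w ^ d n) / w ^ d n * ((ψ (n + 1) (w ^ d n) - c n) /
            ψ (n + 1) (w ^ d n)) = (ψ n w / w) ^ d n := by
          have e2 : ψ (n + 1) (w ^ d n) - c n = ψ n w ^ d n := by rw [J.fe n w hw]; ring
          rw [e2, div_pow]
          field_simp
        rw [e]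
        exact div_self (pow_ne_zero _ (div_ne_zero hψ0 hw0))) hz
      have h3 : (d n : ℝ) * (g0 n z).im = (g0 (n + 1) (z ^ d n)).im +
          (Complex.log (1 - c n / ψ (n + 1) (z ^ d n))).im := by
        have h5 := congrArg Complex.im h2
        rw [Complex.sub_im, Complex.sub_im, Complex.zero_im] at h5
        have h6 : ((d n : ℂ) * g0 n z).im = (d n : ℝ) * (g0 n z).im := by
          have : (d n : ℂ) = ((d n : ℝ) : ℂ) := by push_cast; rfl
          rw [this, Complex.im_ofReal_mul]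
        rw [h6] at h5
        linarith
      have h5 := l2 _ (pow_ext hz (J.dne n))
      have h6 : |(d n : ℝ) * (g0 n z).im| ≤ Real.pi := by
        rw [h3]
        refine (abs_add_le _ _).trans ?_
        linarith
      have hd2 : (2 : ℝ) ≤ d n := by exact_mod_cast J.hd n
      rw [abs_mul, abs_of_nonneg (by linarith)] at h6
      have h7 := mul_le_mul_of_nonneg_right hd2 (abs_nonneg (g0 n z).im)
      linarith
  have hb : ∀ n z, 1 < ‖z‖ → |(g0 n z).im| ≤ Real.pi / 2 := by
    intro n z hz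
    obtain ⟨N, hN⟩ := pow_unbounded_of_one_lt 4 hz
    apply hall N n z hz
    refine hN.le.trans ?_
    apply pow_le_pow_right₀ hz.le
    exact (Nat.lt_pow_self (by norm_num)).le
  obtain ⟨l1, l2, l3⟩ := J.hol_log n (fun z hz => J.ψ_large hxc n hz) (J.crit_small hx hxc n j)
  refine ⟨fun z => g0 n z + Complex.log (1 - crit d c n j / ψ n z), Hol.add (hg0 n) l1, ?_, ?_⟩
  · intro z hz
    have hz0 := ne_zero_of_ext hz
    have hψ0 := J.ne0 n hz
    rw [Complex.exp_add, hg0e n z hz, l3 z hz]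
    field_simp
  · intro z hz
    rw [Complex.add_im]
    refine (abs_add_le _ _).trans ?_
    have := hb n z hz
    have := l2 z hz
    linarith

end Pool.Agent.W5h55.JK
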