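import Pool.Agent.W5h55.JU.J2
import Pool.Agent.Helper240.ZFM.B1

set_option autoImplicit false

/-! # The exterior maps of a non-autonomous iteration `z ^ d n + c n` -/

namespace Pool.Agent.W5h55.JK

open Complex Metric Set Filter Topology MeasureTheory
open Pool.Agent.W677.Mar Pool.Agent.R250.MC Pool.Agent.W5h55.JU

/-- `ψ n ∈ Σ`, `ψ (n + 1) (z ^ d n) = ψ n z ^ d n + c n`. -/
structure Sys (d : ℕ → ℕ) (c : ℕ → ℂ) (ψ h : ℕ → ℂ → ℂ) : Prop where
  sig : ∀ n, IsSig (ψ n) (h n)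
  hd : ∀ n, 2 ≤ d n
  fe : ∀ n z, 1 < ‖z‖ → ψ (n + 1) (z ^ d n) = ψ n z ^ d n + c n

/-- the `j`-th point of the critical orbit at the level `n` (it starts at the level `n - j`) -/
def crit (d : ℕ → ℕ) (c : ℕ → ℂ) : ℕ → ℕ → ℂ
  | _, 0 => 0
  | 0, _ + 1 => 0
  | n + 1, j + 1 => crit d c n j ^ d n + c n

theorem crit_zero (d : ℕ → ℕ) (c : ℕ → ℂ) (n : ℕ) : crit d c n 0 = 0 := by
  cases n <;> rfl

theorem crit_succ (d : ℕ → ℕ) (c : ℕ → ℂ) (n j : ℕ) :
    crit d c (n + 1) (j + 1) = crit d c n j ^ d n + c n := rfl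

variable {d : ℕ → ℕ} {c : ℕ → ℂ} {ψ h : ℕ → ℂ → ℂ}

theorem hol_q {ψ h : ℂ → ℂ} (S : IsSig ψ h) : Hol (fun z => ψ z / z) 1 := by
  constructor
  · apply S.1.div differentiableOn_id
    intro z hz
    exact ne_zero_of_ext hz
  · obtain ⟨b, hb⟩ := S.2.2.1
    have h1 : Tendsto (fun z : ℂ => z⁻¹) (Bornology.cobounded ℂ) (𝓝 0) := tendsto_inv₀_cobounded
    have h2 := (hb.mul h1).add_const 1
    rw [mul_zero, zero_add] at h2
    refine h2.congr' ?_
    filter_upwards [ev_ext] with z hz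
    have := ne_zero_of_ext hz
    field_simp
    ring

theorem Sys.dne (J : Sys d c ψ h) (n : ℕ) : d n ≠ 0 := by have := J.hd n; omega

theorem Sys.crit_one (J : Sys d c ψ h) (n : ℕ) : crit d c (n + 1) 1 = c n := by
  rw [crit_succ, crit_zero, zero_pow (J.dne n), zero_add]

theorem Sys.b0 (J : Sys d c ψ h) (n : ℕ) :
    Tendsto (fun z => ψ n z - z) (Bornology.cobounded ℂ) (𝓝 0) := by
  obtain ⟨b, hb⟩ := (J.sig n).2.2.1
  obtain ⟨b', hb'⟩ := (J.sig (n + 1)).2.2.1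
  have hq := (hol_q (J.sig n)).2
  have h1 : Tendsto (fun z => (ψ n z - z) * ∑ i ∈ Finset.range (d n), (ψ n z / z) ^ i)
      (Bornology.cobounded ℂ) (𝓝 (b * ∑ i ∈ Finset.range (d n), (1 : ℂ) ^ i)) :=
    hb.mul (tendsto_finsetSum _ fun i _ => hq.pow i)
  have h2 : Tendsto (fun z : ℂ => (ψ (n + 1) (z ^ d n) - z ^ d n - c n) * (z ^ (d n - 1))⁻¹)
      (Bornology.cobounded ℂ) (𝓝 ((b' - c n) * 0)) := by
    have h3 : Tendsto (fun z : ℂ => ψ (n + 1) (z ^ d n) - z ^ d n) (Bornology.cobounded ℂ) (𝓝 b') :=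
      hb'.comp (tendsto_pow_cob (J.dne n))
    have h4 : Tendsto (fun z : ℂ => (z ^ (d n - 1))⁻¹) (Bornology.cobounded ℂ) (𝓝 0) :=
      tendsto_inv₀_cobounded.comp (tendsto_pow_cob (by have := J.hd n; omega))
    exact (h3.sub_const _).mul h4
  have h5 : (fun z => (ψ n z - z) * ∑ i ∈ Finset.range (d n), (ψ n z / z) ^ i)
      =ᶠ[Bornology.cobounded ℂ]
      fun z : ℂ => (ψ (n + 1) (z ^ d n) - z ^ d n - c n) * (z ^ (d n - 1))⁻¹ := by
    filter_upwards [ev_ext] with z hz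
    have hz0 := ne_zero_of_ext hz
    have e1 : ψ (n + 1) (z ^ d n) - z ^ d n - c n = ψ n z ^ d n - z ^ d n := by
      rw [J.fe n z hz]; ring
    rw [e1, ← Commute.mul_geom_sum₂ (Commute.all (ψ n z) z), mul_assoc, Finset.sum_mul]
    congr 1
    apply Finset.sum_congr rfl
    intro i hi
    have hi' : i < d n := Finset.mem_range.1 hi
    rw [div_pow]
    have e2 : z ^ (d n - 1) = z ^ i * z ^ (d n - 1 - i) := by rw [← pow_add]; congr 1; omega
    rw [e2]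
    have : z ^ (d n - 1 - i) ≠ 0 := pow_ne_zero _ hz0
    field_simp
  have h6 := tendsto_nhds_unique (h1.congr' h5) h2
  simp only [one_pow, Finset.sum_const, Finset.card_range, mul_zero, nsmul_eq_mul, mul_one] at h6
  have h7 : (d n : ℂ) ≠ 0 := by exact_mod_cast J.dne n
  have h8 : b = 0 := by
    rcases mul_eq_zero.1 h6 with h9 | h9
    · exact h9
    · exact absurd h9 h7
  rw [h8] at hb
  exact hb

theorem om_ext {z : ℂ} (hz : 1 < ‖z‖) (d k : ℕ) : 1 < ‖om d ^ k * z‖ := by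
  rw [norm_mul, norm_om_pow, one_mul]; exact hz

theorem om_ext1 {z : ℂ} (hz : 1 < ‖z‖) (d : ℕ) : 1 < ‖om d * z‖ := by
  rw [norm_mul, norm_om, one_mul]; exact hz

theorem om_mul_pow {d : ℕ} (hd : d ≠ 0) (k : ℕ) (z : ℂ) : (om d ^ k * z) ^ d = z ^ d := by
  rw [mul_pow, ← pow_mul, mul_comm k, pow_mul, om_pow hd, one_pow, one_mul]

theorem Sys.ne0 (J : Sys d c ψ h) (n : ℕ) {z : ℂ} (hz : 1 < ‖z‖) : ψ n z ≠ 0 := by
  intro h0
  have hz1 := om_ext1 hz (d n)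
  have h1 := J.fe n z hz
  have h2 := J.fe n _ hz1
  have e : (om (d n) * z) ^ d n = z ^ d n := by
    have := om_mul_pow (J.dne n) 1 z
    rwa [pow_one] at this
  rw [e, h1, h0, zero_pow (J.dne n)] at h2
  have h3 : ψ n (om (d n) * z) ^ d n = 0 := by
    have := add_right_cancel h2
    exact this.symm
  have h4 : ψ n (om (d n) * z) = 0 := pow_eq_zero_iff (J.dne n) |>.1 h3
  have h5 := (J.sig n).2.1 hz1 hz (h4.trans h0.symm)
  have h6 : om (d n) = 1 := mul_right_cancel₀ (ne_zero_of_ext hz) (h5.trans (one_mul z).symm)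
  exact (om_prim (J.dne n)).ne_one (by have := J.hd n; omega) h6

theorem Sys.sym1 (J : Sys d c ψ h) (n : ℕ) {z : ℂ} (hz : 1 < ‖z‖) :
    ψ n (om (d n) * z) = om (d n) * ψ n z := by
  have hom0 : om (d n) ≠ 0 := by
    rw [← norm_pos_iff, norm_om]; exact one_pos
  have hH : Hol (fun z => ψ n (om (d n) * z) / (om (d n) * ψ n z)) 1 := by
    constructor
    · apply DifferentiableOn.div
      · refine (J.sig n).1.comp ((differentiable_id.const_mul (om (d n))).differentiableOn)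
          fun z hz => ?_
        exact om_ext1 hz (d n)
      · exact (J.sig n).1.const_mul _
      · intro w hw
        exact mul_ne_zero hom0 (J.ne0 n hw)
    · have h1 := ((hol_q (J.sig n)).2.comp (tendsto_mul_cob (norm_om (d n)))).div
        (hol_q (J.sig n)).2 one_ne_zero
      rw [div_one] at h1
      refine h1.congr' ?_
      filter_upwards [ev_ext] with w hw
      have hw0 := ne_zero_of_ext hw
      have hψ := J.ne0 n hw
      show ψ n (om (d n) * w) / (om (d n) * w) / (ψ n w / w) =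
        ψ n (om (d n) * w) / (om (d n) * ψ n w)
      field_simp
  have h1 := root_one (J.dne n) hH (fun w hw => by
    have e : (om (d n) * w) ^ d n = w ^ d n := by
      have := om_mul_pow (J.dne n) 1 w
      rwa [pow_one] at this
    have h2 := J.fe n _ (om_ext1 hw (d n))
    rw [e, J.fe n w hw] at h2
    have h3 := add_right_cancel h2
    rw [div_pow, mul_pow, om_pow (J.dne n), one_mul, ← h3]
    exact div_self (pow_ne_zero _ (J.ne0 n hw))) hz
  rw [div_eq_one_iff_eq (mul_ne_zero hom0 (J.ne0 n hz))] at h1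
  exact h1

theorem Sys.sym (J : Sys d c ψ h) (n : ℕ) {z : ℂ} (hz : 1 < ‖z‖) (k : ℕ) :
    ψ n (om (d n) ^ k * z) = om (d n) ^ k * ψ n z := by
  induction k with
  | zero => simp
  | succ k ih =>
    have e : om (d n) ^ (k + 1) * z = om (d n) * (om (d n) ^ k * z) := by ring
    rw [e, J.sym1 n (om_ext hz (d n) k), ih]
    ring

theorem Sys.omit_succ (J : Sys d c ψ h) {n : ℕ} {v : ℂ} (hv : ∀ z, 1 < ‖z‖ → ψ n z ≠ v) {z : ℂ}
    (hz : 1 < ‖z‖) : ψ (n + 1) z ≠ v ^ d n + c n := by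
  intro h1
  obtain ⟨w, hw⟩ := IsAlgClosed.exists_pow_nat_eq z (Nat.pos_of_ne_zero (J.dne n))
  have hw1 : 1 < ‖w‖ := by
    by_contra h2
    push Not at h2
    have : ‖z‖ ≤ 1 := by
      rw [← hw, norm_pow]
      exact pow_le_one₀ (norm_nonneg _) h2
    linarith
  have h2 := J.fe n w hw1
  rw [hw, h1] at h2
  have h3 : v ^ d n = ψ n w ^ d n := add_right_cancel h2
  by_cases hy : v = 0
  · rw [hy, zero_pow (J.dne n)] at h3
    exact J.ne0 n hw1 (pow_eq_zero_iff (J.dne n) |>.1 h3.symm)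
  · have h4 : (ψ n w / v) ^ d n = 1 := by
      rw [div_pow, ← h3]
      exact div_self (pow_ne_zero _ hy)
    haveI : NeZero (d n) := ⟨J.dne n⟩
    obtain ⟨k, hk, hk'⟩ := (om_prim (J.dne n)).eq_pow_of_pow_eq_one h4
    have h5 : ψ n w = om (d n) ^ k * v := by
      rw [hk']
      field_simp
    have h6 := J.sym n hw1 (d n - k)
    rw [h5, ← mul_assoc, ← pow_add, Nat.sub_add_cancel hk.le, om_pow (J.dne n), one_mul] at h6
    exact hv _ (om_ext hw1 (d n) _) h6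

theorem Sys.omit (J : Sys d c ψ h) (n : ℕ) : ∀ (j : ℕ) (z : ℂ), 1 < ‖z‖ → ψ n z ≠ crit d c n j := by
  induction n with
  | zero =>
    intro j z hz
    have : crit d c 0 j = 0 := by cases j <;> rfl
    rw [this]
    exact J.ne0 0 hz
  | succ n ih =>
    intro j z hz
    cases j with
    | zero => rw [crit_zero]; exact J.ne0 _ hz
    | succ j =>
      rw [crit_succ]
      exact J.omit_succ (ih j) hz

theorem Sys.hol_e (J : Sys d c ψ h) (n : ℕ) : Hol (fun z => ψ n z - z) 0 :=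
  ⟨(J.sig n).1.sub differentiableOn_id, J.b0 n⟩

theorem deriv_sub {ψ h : ℂ → ℂ} (S : IsSig ψ h) {z : ℂ} (hz : 1 < ‖z‖) :
    ‖deriv (fun z => ψ z - z) z‖ ≤ 1 / (‖z‖ ^ 2 - 1) := by
  have h1 : HasDerivAt ψ (deriv ψ z) z :=
    (S.1.differentiableAt (isOpen_ext.mem_nhds hz)).hasDerivAt
  have h2 : deriv (fun z => ψ z - z) z = deriv ψ z - 1 := (h1.sub (hasDerivAt_id z)).deriv
  have hz2 : 0 < ‖z‖ ^ 2 - 1 := by nlinarith
  rw [h2, ← S.2.2.2.2.1 z hz]
  have h3 := goluzin_ext S.sg hz rfl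
  have h4 := Complex.norm_exp_sub_sum_le_exp_norm_sub_sum (h z) 1
  simp only [Finset.range_one, Finset.sum_singleton, pow_zero, Nat.factorial_zero, Nat.cast_one,
    div_one] at h4
  have h5 : Real.exp ‖h z‖ ≤ ‖z‖ ^ 2 / (‖z‖ ^ 2 - 1) := by
    calc Real.exp ‖h z‖ ≤ Real.exp (Real.log (‖z‖ ^ 2 / (‖z‖ ^ 2 - 1))) := Real.exp_le_exp.2 h3
      _ = _ := Real.exp_log (by positivity)
  have e : ‖z‖ ^ 2 / (‖z‖ ^ 2 - 1) - 1 = 1 / (‖z‖ ^ 2 - 1) := by field_simp; ring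
  linarith

theorem Sys.growth (J : Sys d c ψ h) (n : ℕ) {z : ℂ} (hz : 1 < ‖z‖) :
    ‖ψ n z - z‖ ≤ ‖z‖ / (‖z‖ ^ 2 - 1) := by
  have h00 : (0 : ℂ) ∈ ball (0 : ℂ) 1 := mem_ball_self one_pos
  set e : ℂ → ℂ := hat (fun z => ψ n z - z) 0 with he
  have hE := hat_diff (J.hol_e n)
  have hz0 := ne_zero_of_ext hz
  have hzp : 0 < ‖z‖ := norm_pos_iff.2 hz0
  have hz2 : 0 < ‖z‖ ^ 2 - 1 := by nlinarith
  obtain ⟨B, hB⟩ : ∃ B, B = ‖z‖ ^ 2 / (‖z‖ ^ 2 - 1) := ⟨_, rfl⟩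
  have hsub : closedBall (0 : ℂ) ‖z‖⁻¹ ⊆ ball 0 1 := closedBall_subset_ball (inv_lt_one_of_one_lt₀ hz)
  have hne : ∀ w ∈ ball (0 : ℂ) 1, w ∈ closedBall (0 : ℂ) ‖z‖⁻¹ → w ≠ 0 → ‖deriv e w‖ ≤ B := by
    intro w hw hwz hw0
    have h1 := deriv_sub (J.sig n) (inv_ext hw hw0)
    have hwp : 0 < ‖w‖ := norm_pos_iff.2 hw0
    have hw1 : ‖w‖ < 1 := mem_ball_zero_iff.1 hw
    have hwz' : ‖w‖ ≤ ‖z‖⁻¹ := mem_closedBall_zero_iff.1 hwz
    rw [(hat_hasDeriv (J.hol_e n) hw hw0).deriv, norm_mul, norm_neg, norm_inv, norm_pow]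
    rw [norm_inv] at h1
    have hw2 : 0 < 1 - ‖w‖ ^ 2 := by nlinarith
    have e1 : 1 / (‖w‖⁻¹ ^ 2 - 1) * (‖w‖ ^ 2)⁻¹ = 1 / (1 - ‖w‖ ^ 2) := by
      field_simp
    have h2 := mul_le_mul_of_nonneg_right h1 (by positivity : 0 ≤ (‖w‖ ^ 2)⁻¹)
    rw [e1] at h2
    refine h2.trans ?_
    rw [hB, div_le_div_iff₀ hw2 hz2]
    have h3 : ‖w‖ * ‖z‖ ≤ 1 := by
      calc ‖w‖ * ‖z‖ ≤ ‖z‖⁻¹ * ‖z‖ := mul_le_mul_of_nonneg_right hwz' hzp.le
        _ = 1 := inv_mul_cancel₀ hzp.ne'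
    have h4 : (‖w‖ * ‖z‖) ^ 2 ≤ 1 := pow_le_one₀ (by positivity) h3
    nlinarith
  have hall : ∀ w ∈ closedBall (0 : ℂ) ‖z‖⁻¹, ‖deriv e w‖ ≤ B := by
    intro w hw
    by_cases hw0 : w = 0
    · have hcont : ContinuousAt (fun w => ‖deriv e w‖) 0 :=
        ((hE.deriv isOpen_ball).continuousOn.continuousAt (isOpen_ball.mem_nhds h00)).norm
      rw [hw0]
      refine le_of_tendsto (hcont.tendsto.mono_left (nhdsWithin_le_nhds (s := {0}ᶜ))) ?_
      filter_upwards [self_mem_nhdsWithin, nhdsWithin_le_nhds (closedBall_mem_nhds (0 : ℂ)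
        (by positivity : 0 < ‖z‖⁻¹))] with x hx hxb
      exact hne x (hsub hxb) hxb hx
    · exact hne w (hsub hw) hw hw0
  have hzi : z⁻¹ ∈ closedBall (0 : ℂ) ‖z‖⁻¹ := by
    rw [mem_closedBall_zero_iff, norm_inv]
  have h1 := (convex_closedBall (0 : ℂ) ‖z‖⁻¹).norm_image_sub_le_of_norm_deriv_le (𝕜 := ℂ) (f := e)
    (C := B) (x := 0) (y := z⁻¹) (fun w hw => hE.differentiableAt (isOpen_ball.mem_nhds (hsub hw)))
    hall (mem_closedBall_self (by positivity)) hzi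
  rw [he, hat_zero, hat_ne _ _ (inv_ne_zero hz0), inv_inv, sub_zero, sub_zero, norm_inv, hB] at h1
  refine h1.trans (le_of_eq ?_)
  field_simp

/-- omitted values (Bieberbach) -/
theorem Sys.om_le (J : Sys d c ψ h) (n : ℕ) {v : ℂ} (hv : ∀ z, 1 < ‖z‖ → ψ n z ≠ v) : ‖v‖ ≤ 2 := by
  have h00 : (0 : ℂ) ∈ ball (0 : ℂ) 1 := mem_ball_self one_pos
  set e : ℂ → ℂ := hat (fun z => ψ n z - z) 0 with he
  have hE := hat_diff (J.hol_e n)
  have he0 : e 0 = 0 := hat_zero _ _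
  set Q : ℂ → ℂ := fun w => 1 + w * e w - v * w with hQ
  have hQd : DifferentiableOn ℂ Q (ball 0 1) :=
    ((differentiableOn_id.mul hE).const_add 1).sub (differentiableOn_id.const_mul v)
  have hQz : ∀ w ∈ ball (0 : ℂ) 1, w ≠ 0 → Q w = w * (ψ n w⁻¹ - v) := by
    intro w hw hw0
    simp only [hQ, he]
    rw [hat_ne _ _ hw0]
    field_simp
    ring
  have hQ0 : Q 0 = 1 := by simp [hQ]
  have hQne : ∀ w ∈ ball (0 : ℂ) 1, Q w ≠ 0 := by
    intro w hw
    by_cases hw0 : w = 0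
    · rw [hw0, hQ0]; exact one_ne_zero
    · rw [hQz w hw hw0]
      exact mul_ne_zero hw0 (sub_ne_zero.2 (hv _ (inv_ext hw hw0)))
  set g : ℂ → ℂ := fun w => w / Q w with hg
  have hgd : DifferentiableOn ℂ g (ball 0 1) := differentiableOn_id.div hQd hQne
  have hg1 : ∀ w ∈ ball (0 : ℂ) 1, w ≠ 0 → g w = (ψ n w⁻¹ - v)⁻¹ := by
    intro w hw hw0
    have h1 : ψ n w⁻¹ - v ≠ 0 := sub_ne_zero.2 (hv _ (inv_ext hw hw0))
    simp only [hg]
    rw [hQz w hw hw0]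
    field_simp
  have hg0 : ∀ w ∈ ball (0 : ℂ) 1, w ≠ 0 → g w ≠ 0 := by
    intro w hw hw0
    simp only [hg]
    exact div_ne_zero hw0 (hQne w hw)
  have hgz : g 0 = 0 := by simp [hg]
  have hgi : InjOn g (ball 0 1) := by
    intro w hw w' hw' hww
    by_cases hw0 : w = 0
    · by_cases hw0' : w' = 0
      · rw [hw0, hw0']
      · rw [hw0, hgz] at hww
        exact absurd hww.symm (hg0 w' hw' hw0')
    · by_cases hw0' : w' = 0
      · rw [hw0', hgz] at hww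
        exact absurd hww (hg0 w hw hw0)
      · rw [hg1 w hw hw0, hg1 w' hw' hw0'] at hww
        have h1 := inv_injective hww
        have h2 : ψ n w⁻¹ = ψ n w'⁻¹ := by linear_combination h1
        exact inv_injective ((J.sig n).2.1 (inv_ext hw hw0) (inv_ext hw' hw0') h2)
  have hb := ZFM.J_b1.bieb hgd hgi
  -- the derivatives
  have hQder : ∀ w ∈ ball (0 : ℂ) 1, HasDerivAt Q (deriv Q w) w := fun w hw =>
    (hQd.differentiableAt (isOpen_ball.mem_nhds hw)).hasDerivAt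
  have hdg : ∀ w ∈ ball (0 : ℂ) 1, deriv g w = (Q w - w * deriv Q w) / Q w ^ 2 := by
    intro w hw
    have h1 := (hasDerivAt_id w).div (hQder w hw) (hQne w hw)
    have h2 := h1.deriv
    simp only [id, one_mul] at h2
    exact h2
  have hQ'0 : deriv Q 0 = -v := by
    have h1 : HasDerivAt e (deriv e 0) 0 :=
      (hE.differentiableAt (isOpen_ball.mem_nhds h00)).hasDerivAt
    have h2 := (((hasDerivAt_id (0 : ℂ)).mul h1).const_add 1).sub
      ((hasDerivAt_id (0 : ℂ)).const_mul v)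
    have h3 := h2.deriv
    simp only [id, he0] at h3
    have h4 : deriv Q 0 = 1 * 0 + 0 * deriv e 0 - v * 1 := h3
    rw [h4]
    ring
  have hd1 : deriv g 0 = 1 := by
    rw [hdg 0 h00, hQ0]
    simp
  have hd2 : deriv (deriv g) 0 = 2 * v := by
    have h1 : deriv g =ᶠ[𝓝 0] fun w => (Q w - w * deriv Q w) / Q w ^ 2 := by
      filter_upwards [isOpen_ball.mem_nhds h00] with w hw using hdg w hw
    rw [h1.deriv_eq]
    have hQ2 : HasDerivAt (deriv Q) (deriv (deriv Q) 0) 0 :=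
      ((hQd.deriv isOpen_ball).differentiableAt (isOpen_ball.mem_nhds h00)).hasDerivAt
    have h2 := ((hQder 0 h00).sub ((hasDerivAt_id (0 : ℂ)).mul hQ2)).div ((hQder 0 h00).pow 2)
      (pow_ne_zero 2 (hQne 0 h00))
    have h3 := h2.deriv
    have h4 : deriv (fun w => (Q w - w * deriv Q w) / Q w ^ 2) 0 = _ := h3
    rw [h4]
    simp [hQ0, hQ'0]
  rw [hd1, hd2, norm_mul, norm_one, mul_one, Complex.norm_ofNat] at hb
  linarith

theorem Sys.c_le (J : Sys d c ψ h) (n : ℕ) : ‖c n‖ ≤ 2 := by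
  apply J.om_le (n + 1)
  intro z hz
  have := J.omit (n + 1) 1 z hz
  rwa [J.crit_one] at this

theorem Sys.crit_le (J : Sys d c ψ h) (n j : ℕ) : ‖crit d c n j‖ ≤ 2 := J.om_le n (J.omit n j)

theorem pow_add_three {x : ℝ} (hx : 1 ≤ x) {d : ℕ} (hd : 2 ≤ d) : x ^ d + 3 ≤ (x + 1) ^ d := by
  induction d, hd using Nat.le_induction with
  | base => nlinarith
  | succ n hn ih =>
    have h1 : 1 ≤ x ^ n := one_le_pow₀ hx
    calc x ^ (n + 1) + 3 ≤ (x ^ n + 3) * (x + 1) := by rw [pow_succ]; nlinarith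
      _ ≤ (x + 1) ^ n * (x + 1) := mul_le_mul_of_nonneg_right ih (by linarith)
      _ = _ := (pow_succ _ _).symm

theorem Sys.growth2 (J : Sys d c ψ h) (n : ℕ) {z : ℂ} (hz : 2 ≤ ‖z‖) : ‖ψ n z - z‖ ≤ 2 / 3 := by
  refine (J.growth n (by linarith)).trans ?_
  have : 0 < ‖z‖ ^ 2 - 1 := by nlinarith
  rw [div_le_div_iff₀ this (by norm_num)]
  nlinarith

theorem Sys.growth4 (J : Sys d c ψ h) (n : ℕ) {z : ℂ} (hz : 4 ≤ ‖z‖) : ‖ψ n z - z‖ ≤ 4 / 15 := by
  refine (J.growth n (by linarith)).trans ?_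
  have : 0 < ‖z‖ ^ 2 - 1 := by nlinarith
  rw [div_le_div_iff₀ this (by norm_num)]
  nlinarith

theorem Sys.ψ_le (J : Sys d c ψ h) (n : ℕ) {z : ℂ} (hz : 1 < ‖z‖) : ‖ψ n z‖ ≤ ‖z‖ + 1 := by
  have hmain : ∀ N n : ℕ, ∀ z : ℂ, 1 < ‖z‖ → 2 ≤ ‖z‖ ^ (2 ^ N) → ‖ψ n z‖ ≤ ‖z‖ + 1 := by
    intro N
    induction N with
    | zero =>
      intro n z _ h2
      rw [pow_zero, pow_one] at h2
      have h3 := J.growth2 n h2
      have h4 := norm_sub_norm_le (ψ n z) z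
      linarith
    | succ N ih =>
      intro n z hz h2
      have h3 := ih (n + 1) (z ^ d n) (pow_ext hz (J.dne n)) (by
        rw [norm_pow, ← pow_mul]
        refine h2.trans ?_
        apply pow_le_pow_right₀ hz.le
        rw [pow_succ']
        exact Nat.mul_le_mul_right _ (J.hd n))
      have h4 : ‖ψ n z‖ ^ d n ≤ (‖z‖ + 1) ^ d n := by
        have e : ψ n z ^ d n = ψ (n + 1) (z ^ d n) - c n := by rw [J.fe n z hz]; ring
        rw [← norm_pow, e]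
        refine (norm_sub_le _ _).trans ?_
        rw [norm_pow] at h3
        have := pow_add_three hz.le (J.hd n)
        have := J.c_le n
        linarith
      exact (pow_le_pow_iff_left₀ (norm_nonneg _) (by positivity) (J.dne n)).1 h4
  obtain ⟨N, hN⟩ := pow_unbounded_of_one_lt 2 hz
  apply hmain N n z hz
  refine hN.le.trans ?_
  apply pow_le_pow_right₀ hz.le
  exact (Nat.lt_pow_self (by norm_num)).le

/-- distances from the image to points of the disc of radius two -/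
theorem Sys.dist_le (J : Sys d c ψ h) (n : ℕ) {z : ℂ} (hz : 1 < ‖z‖) {v : ℂ} (hv : ‖v‖ ≤ 2) :
    ‖ψ n z - v‖ ≤ ‖z‖ + 3 := by
  refine (norm_sub_le _ _).trans ?_
  have := J.ψ_le n hz
  linarith

theorem Sys.dist_ge (J : Sys d c ψ h) (n : ℕ) {z : ℂ} (hz : 4 ≤ ‖z‖) {v : ℂ} (hv : ‖v‖ ≤ 2) :
    ‖z‖ - 34 / 15 ≤ ‖ψ n z - v‖ := by
  have h1 := J.growth4 n hz
  have h3 := norm_sub_norm_le z (z - (ψ n z - v))
  rw [sub_sub_cancel] at h3
  have h4 : ‖z - (ψ n z - v)‖ ≤ ‖ψ n z - z‖ + ‖v‖ := by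
    have e : z - (ψ n z - v) = v - (ψ n z - z) := by ring
    rw [e]
    refine (norm_sub_le _ _).trans ?_
    linarith
  linarith

end Pool.Agent.W5h55.JK
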