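import Pool.Agent.W5h55.JU.K3

set_option autoImplicit false

/-! # Bounded rotation about the critical orbits (non-autonomous) -/

namespace Pool.Agent.W5h55.JK

open Complex Metric Set Filter Topology MeasureTheory
open Pool.Agent.W677.Mar Pool.Agent.R250.MC Pool.Agent.W5h55.JU

/-- the truncated kernels -/
noncomputable def ker (ψ : ℂ → ℂ) (y : ℕ → ℂ) (j : ℕ) (z : ℂ) : ℝ := max 1 ‖ψ z - y (j + 1)‖⁻¹

/-- `G n j = log ((ψ n - crit n (j + 1)) / z)` grows at most like `ρ log (1 / |ψ - crit|)`. -/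
structure Dyn (ρ B : ℝ) (d : ℕ → ℕ) (c : ℕ → ℂ) (ψ h : ℕ → ℂ → ℂ) (G : ℕ → ℕ → ℂ → ℂ) : Prop where
  sys : Sys d c ψ h
  hρ : 1 ≤ ρ
  hB : 0 ≤ B
  hG : ∀ n j, j < n → Hol (G n j) 0
  eG : ∀ n j, j < n → ∀ z, 1 < ‖z‖ → Complex.exp (G n j z) = (ψ n z - crit d c n (j + 1)) / z
  bd : ∀ n j, j < n → ∀ z, 1 < ‖z‖ → ‖G n j z‖ ≤ ρ * Real.log (ker (ψ n) (crit d c n) j z) + B

variable {ρ B : ℝ} {d : ℕ → ℕ} {c : ℕ → ℂ} {ψ h : ℕ → ℂ → ℂ} {G : ℕ → ℕ → ℂ → ℂ}

theorem Hol.const_mul {f : ℂ → ℂ} (hf : Hol f 0) (c : ℂ) : Hol (fun z => c * f z) 0 := by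
  refine ⟨hf.1.const_mul c, ?_⟩
  have := hf.2.const_mul c
  rwa [mul_zero] at this

theorem Hol.add {f g : ℂ → ℂ} (hf : Hol f 0) (hg : Hol g 0) : Hol (fun z => f z + g z) 0 := by
  refine ⟨hf.1.add hg.1, ?_⟩
  have := hf.2.add hg.2
  rwa [add_zero] at this

theorem Hol.sub {f g : ℂ → ℂ} (hf : Hol f 0) (hg : Hol g 0) : Hol (fun z => f z - g z) 0 := by
  refine ⟨hf.1.sub hg.1, ?_⟩
  have := hf.2.sub hg.2
  rwa [sub_zero] at this

theorem Hol.sum {ι : Type*} (s : Finset ι) {f : ι → ℂ → ℂ} (hf : ∀ i ∈ s, Hol (f i) 0) :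
    Hol (fun z => ∑ i ∈ s, f i z) 0 := by
  refine ⟨DifferentiableOn.fun_sum fun i hi => (hf i hi).1, ?_⟩
  have := tendsto_finsetSum s fun i hi => (hf i hi).2
  simpa using this

/-- the chain rule for the conjugacy -/
theorem Sys.deriv_fe (J : Sys d c ψ h) (n : ℕ) {z : ℂ} (hz : 1 < ‖z‖) :
    z ^ (d n - 1) * deriv (ψ (n + 1)) (z ^ d n) = ψ n z ^ (d n - 1) * deriv (ψ n) z := by
  have hzd := pow_ext hz (J.dne n)
  have h1 : HasDerivAt (ψ n) (deriv (ψ n) z) z :=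
    ((J.sig n).1.differentiableAt (isOpen_ext.mem_nhds hz)).hasDerivAt
  have h2 : HasDerivAt (ψ (n + 1)) (deriv (ψ (n + 1)) (z ^ d n)) (z ^ d n) :=
    ((J.sig (n + 1)).1.differentiableAt (isOpen_ext.mem_nhds hzd)).hasDerivAt
  have h3 := h2.comp z (hasDerivAt_pow (d n) z)
  have h4 : HasDerivAt (fun z => ψ n z ^ d n + c n) (d n * ψ n z ^ (d n - 1) * deriv (ψ n) z) z :=
    (h1.fun_pow (d n)).add_const _
  have h5 : (fun z => ψ n z ^ d n + c n) =ᶠ[𝓝 z] (ψ (n + 1) ∘ fun z => z ^ d n) := by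
    filter_upwards [isOpen_ext.mem_nhds hz] with w hw using (J.fe n w hw).symm
  have h6 := h3.congr_of_eventuallyEq h5
  have h7 := h6.unique h4
  have hd : (d n : ℂ) ≠ 0 := by exact_mod_cast J.dne n
  have h8 : (d n : ℂ) * (z ^ (d n - 1) * deriv (ψ (n + 1)) (z ^ d n)) =
      d n * (ψ n z ^ (d n - 1) * deriv (ψ n) z) := by
    linear_combination h7
  exact mul_left_cancel₀ hd h8

noncomputable def bet (d : ℕ) : ℝ := ((d : ℝ) - 1) / d

theorem Dyn.hrec (D : Dyn ρ B d c ψ h G) (n : ℕ) {z : ℂ} (hz : 1 < ‖z‖) :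
    h n z = h (n + 1) (z ^ d n) - (bet (d n) : ℝ) * G (n + 1) 0 (z ^ d n) := by
  have J := D.sys
  have hd : (d n : ℂ) ≠ 0 := by exact_mod_cast J.dne n
  have hd1 : (((d n - 1 : ℕ) : ℂ)) = (d n : ℂ) - 1 := by
    rw [Nat.cast_sub (by have := J.hd n; omega)]
    simp
  have hH : Hol (fun z => (d n : ℂ) * (h n z - h (n + 1) (z ^ d n)) +
      ((d n - 1 : ℕ) : ℂ) * G (n + 1) 0 (z ^ d n)) 0 :=
    Hol.add (Hol.const_mul (Hol.sub (J.sig n).hol (Hol.comp_pow (J.sig (n + 1)).hol (J.dne n))) _)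
      (Hol.const_mul (Hol.comp_pow (D.hG (n + 1) 0 (Nat.succ_pos n)) (J.dne n)) _)
  have h1 := exp_one hH (fun w hw => by
    have hwd := pow_ext hw (J.dne n)
    have hw0 := ne_zero_of_ext hw
    have hψ := J.ne0 n hw
    have hder := J.deriv_fe n hw
    have e1 := (J.sig n).2.2.2.2.1 w hw
    have e2 := (J.sig (n + 1)).2.2.2.2.1 _ hwd
    have hn1 : deriv (ψ n) w ≠ 0 := by rw [← e1]; exact Complex.exp_ne_zero _
    have hn2 : deriv (ψ (n + 1)) (w ^ d n) ≠ 0 := by rw [← e2]; exact Complex.exp_ne_zero _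
    rw [Complex.exp_add, Complex.exp_nat_mul, Complex.exp_nat_mul, D.eG _ 0 (Nat.succ_pos n) _ hwd,
      Complex.exp_sub, e1, e2, zero_add, J.crit_one, J.fe n w hw, add_sub_cancel_right, ← div_pow,
      ← pow_mul, mul_comm (d n), pow_mul, ← mul_pow]
    have e3 : deriv (ψ n) w / deriv (ψ (n + 1)) (w ^ d n) * (ψ n w / w) ^ (d n - 1) = 1 := by
      rw [div_pow]
      have : w ^ (d n - 1) ≠ 0 := pow_ne_zero _ hw0
      field_simp
      linear_combination -hder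
    rw [e3, one_pow]) hz
  have h2 : (d n : ℂ) * (h n z - (h (n + 1) (z ^ d n) - (bet (d n) : ℝ) * G (n + 1) 0 (z ^ d n))) = 0 := by
    rw [hd1] at h1
    unfold bet
    push_cast
    have e : (d n : ℂ) * (h n z - (h (n + 1) (z ^ d n) - ((d n : ℂ) - 1) / d n *
        G (n + 1) 0 (z ^ d n))) =
        (d n : ℂ) * (h n z - h (n + 1) (z ^ d n)) + ((d n : ℂ) - 1) * G (n + 1) 0 (z ^ d n) := by
      field_simp
      ring
    rw [e]
    exact h1
  rcases mul_eq_zero.1 h2 with h3 | h3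
  · exact absurd h3 hd
  · exact sub_eq_zero.1 h3

theorem prod_om {d : ℕ} (hd : d ≠ 0) (x v z : ℂ) (hz : z ≠ 0) :
    ∏ k ∈ Finset.range d, ((om d ^ k * x - v) / (om d ^ k * z)) = (x ^ d - v ^ d) / z ^ d := by
  have h1 : ∀ x v : ℂ, v ^ d - x ^ d = ∏ k ∈ Finset.range d, (v - om d ^ k * x) := by
    intro x v
    have h2 := X_pow_sub_C_eq_prod (om_prim hd) (α := x) (a := x ^ d) (Nat.pos_of_ne_zero hd) rfl
    have h3 := congrArg (Polynomial.eval v) h2
    rw [Polynomial.eval_prod] at h3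
    simpa using h3
  have h2 := h1 x v
  have h3 := h1 1 0
  rw [zero_pow hd, one_pow] at h3
  have e3 : ∏ k ∈ Finset.range d, ((0 : ℂ) - om d ^ k * 1) =
      (-1) ^ d * ∏ k ∈ Finset.range d, om d ^ k := by
    rw [← Finset.card_range d, ← Finset.prod_const, Finset.card_range, ← Finset.prod_mul_distrib]
    exact Finset.prod_congr rfl fun k _ => by ring
  rw [e3] at h3
  have e2 : ∏ k ∈ Finset.range d, (v - om d ^ k * x) =
      (-1) ^ d * ∏ k ∈ Finset.range d, (om d ^ k * x - v) := by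
    rw [← Finset.card_range d, ← Finset.prod_const, Finset.card_range, ← Finset.prod_mul_distrib]
    exact Finset.prod_congr rfl fun k _ => by ring
  rw [e2] at h2
  have e4 : ((-1 : ℂ) ^ d) * (-1) ^ d = 1 := by
    rw [← mul_pow]
    norm_num
  rw [Finset.prod_div_distrib]
  have e5 : ∏ k ∈ Finset.range d, (om d ^ k * z) = (∏ k ∈ Finset.range d, om d ^ k) * z ^ d := by
    rw [Finset.prod_mul_distrib, Finset.prod_const, Finset.card_range]
  rw [e5]
  set P := ∏ k ∈ Finset.range d, om d ^ k with hP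
  set Q := ∏ k ∈ Finset.range d, (om d ^ k * x - v) with hQ
  have hP0 : P ≠ 0 := by
    intro h0
    rw [h0, mul_zero] at h3
    norm_num at h3
  have hzd : z ^ d ≠ 0 := pow_ne_zero _ hz
  rw [div_eq_div_iff (mul_ne_zero hP0 hzd) hzd]
  have hPe : P = -(-1) ^ d := by linear_combination ((-1 : ℂ) ^ d) * (-h3) - P * e4
  have hQe : Q = (-1) ^ d * (v ^ d - x ^ d) := by linear_combination (-(-1 : ℂ) ^ d) * h2 - Q * e4
  rw [hPe, hQe]
  ring

theorem Dyn.grec (D : Dyn ρ B d c ψ h G) (n j : ℕ) (hj : j < n) {z : ℂ} (hz : 1 < ‖z‖) :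
    ∑ k ∈ Finset.range (d n), G n j (om (d n) ^ k * z) = G (n + 1) (j + 1) (z ^ d n) := by
  have J := D.sys
  have hH : Hol (fun z => ∑ k ∈ Finset.range (d n), G n j (om (d n) ^ k * z) -
      G (n + 1) (j + 1) (z ^ d n)) 0 :=
    Hol.sub (Hol.sum _ fun k _ => Hol.comp_mul (D.hG n j hj) (norm_om_pow (d n) k))
      (Hol.comp_pow (D.hG (n + 1) (j + 1) (Nat.succ_lt_succ hj)) (J.dne n))
  have h1 := exp_one hH (fun w hw => by
    have hwd := pow_ext hw (J.dne n)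
    have hw0 := ne_zero_of_ext hw
    rw [Complex.exp_sub, Complex.exp_sum, D.eG _ _ (Nat.succ_lt_succ hj) _ hwd]
    have e1 : ∀ k ∈ Finset.range (d n), Complex.exp (G n j (om (d n) ^ k * w)) =
        (om (d n) ^ k * ψ n w - crit d c n (j + 1)) / (om (d n) ^ k * w) := by
      intro k _
      rw [D.eG _ _ hj _ (om_ext hw (d n) k), J.sym n hw k]
    rw [Finset.prod_congr rfl e1, prod_om (J.dne n) _ _ _ hw0]
    have e2 : ψ (n + 1) (w ^ d n) - crit d c (n + 1) (j + 1 + 1) =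
        ψ n w ^ d n - crit d c n (j + 1) ^ d n := by
      rw [J.fe n w hw, crit_succ]
      ring
    rw [e2]
    apply div_self
    apply div_ne_zero _ (pow_ne_zero _ hw0)
    rw [← e2]
    exact sub_ne_zero.2 (J.omit _ _ _ hwd)) hz
  exact sub_eq_zero.1 h1

theorem one_le_ker (ψ : ℂ → ℂ) (y : ℕ → ℂ) (j : ℕ) (z : ℂ) : 1 ≤ ker ψ y j z := le_max_left _ _

theorem ker_pos (ψ : ℂ → ℂ) (y : ℕ → ℂ) (j : ℕ) (z : ℂ) : 0 < ker ψ y j z :=
  lt_of_lt_of_le one_pos (one_le_ker ψ y j z)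

theorem log_ker_nonneg (ψ : ℂ → ℂ) (y : ℕ → ℂ) (j : ℕ) (z : ℂ) : 0 ≤ Real.log (ker ψ y j z) :=
  Real.log_nonneg (one_le_ker ψ y j z)

theorem Sys.ker_cont (J : Sys d c ψ h) (n j : ℕ) :
    ContinuousOn (ker (ψ n) (crit d c n) j) {z : ℂ | 1 < ‖z‖} := by
  unfold ker
  have h1 : ContinuousOn (fun z => ‖ψ n z - crit d c n (j + 1)‖⁻¹) {z : ℂ | 1 < ‖z‖} := by
    apply ContinuousOn.inv₀
    · exact ((J.sig n).1.continuousOn.sub continuousOn_const).norm
    · intro z hz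
      exact norm_ne_zero_iff.2 (sub_ne_zero.2 (J.omit _ _ _ hz))
  exact ((continuous_const (y := (1 : ℝ))).max continuous_id).comp_continuousOn h1

theorem Sys.ker_top (J : Sys d c ψ h) (n j : ℕ) {z : ℂ} (hz : 4 ≤ ‖z‖) :
    ker (ψ n) (crit d c n) j z = 1 := by
  unfold ker
  apply max_eq_left
  apply inv_le_one_of_one_le₀
  have := J.dist_ge n hz (J.crit_le n (j + 1))
  linarith

theorem log4 : Real.log 4 ≤ 2 := by
  have h1 : (4 : ℝ) = 2 ^ 2 := by norm_num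
  rw [h1, Real.log_pow]
  have := Real.log_two_lt_d9
  push_cast
  linarith

/-- the real part of the logarithm -/
theorem Sys.re_le (J : Sys d c ψ h) (n j : ℕ) {g : ℂ} {z : ℂ} (hz : 1 < ‖z‖)
    (hg : Complex.exp g = (ψ n z - crit d c n (j + 1)) / z) :
    |g.re| ≤ Real.log (ker (ψ n) (crit d c n) j z) + 2 := by
  have hzp : 0 < ‖z‖ := by linarith
  have hdist : 0 < ‖ψ n z - crit d c n (j + 1)‖ := norm_pos_iff.2 (sub_ne_zero.2 (J.omit _ _ _ hz))
  have h1 : Real.exp g.re = ‖ψ n z - crit d c n (j + 1)‖ / ‖z‖ := by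
    rw [← Complex.norm_exp, hg, norm_div]
  have h2 : g.re = Real.log (‖ψ n z - crit d c n (j + 1)‖ / ‖z‖) := by
    rw [← h1, Real.log_exp]
  have hl := log_ker_nonneg (ψ n) (crit d c n) j z
  have h4 := log4
  have hup : g.re ≤ 2 := by
    rw [h2]
    refine le_trans (Real.log_le_log (by positivity) ?_) h4
    rw [div_le_iff₀ hzp]
    have := J.dist_le n hz (J.crit_le n (j + 1))
    linarith
  have hlow : -g.re ≤ Real.log (ker (ψ n) (crit d c n) j z) + 2 := by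
    have h5 : Real.log ((ker (ψ n) (crit d c n) j z)⁻¹ / 4) ≤ g.re := by
      rw [h2]
      apply Real.log_le_log (by have := ker_pos (ψ n) (crit d c n) j z; positivity)
      rcases le_or_gt ‖z‖ 4 with h6 | h6
      · apply div_le_div₀ hdist.le _ hzp h6
        rw [inv_le_comm₀ (ker_pos _ _ j z) hdist]
        exact le_max_right _ _
      · rw [J.ker_top n j h6.le, inv_one, div_le_div_iff₀ (by norm_num) hzp]
        have := J.dist_ge n h6.le (J.crit_le n (j + 1))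
        linarith
    rw [Real.log_div (by have := ker_pos (ψ n) (crit d c n) j z; positivity) (by norm_num),
      Real.log_inv] at h5
    linarith
  exact abs_le.2 ⟨by linarith, by linarith⟩

end Pool.Agent.W5h55.JK
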