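import Pool.Agent.W5h55.JU.K4

set_option autoImplicit false

/-! # The weights and the rough pointwise inequality (non-autonomous) -/

namespace Pool.Agent.W5h55.JK

open Complex Metric Set Filter Topology MeasureTheory
open Pool.Agent.W677.Mar Pool.Agent.R250.MC Pool.Agent.W5h55.JU

variable {ρ B : ℝ} {d : ℕ → ℕ} {c : ℕ → ℂ} {ψ h : ℕ → ℂ → ℂ} {G : ℕ → ℕ → ℂ → ℂ}

noncomputable def Phi (ψ : ℂ → ℂ) (y : ℕ → ℂ) (q : ℝ) (k : ℕ) (z : ℂ) : ℝ :=
  1 + ∑ i ∈ Finset.range k, (1 / 4 : ℝ) ^ (i + 1) * ker ψ y i z ^ q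

/-- the weights of the logarithms -/
noncomputable def wt (d : ℕ → ℕ) : ℕ → ℕ → ℝ
  | 0, _ => 0
  | k + 1, 0 => bet (d k)
  | k + 1, i + 1 => wt d k i / d k

noncomputable def SS (d : ℕ → ℕ) (G : ℕ → ℕ → ℂ → ℂ) (k : ℕ) (z : ℂ) : ℂ :=
  ∑ i ∈ Finset.range k, ((wt d k i : ℝ) : ℂ) * G k i z

noncomputable def sg (ψ : ℂ → ℂ) (y : ℕ → ℂ) (k : ℕ) (z : ℂ) : ℝ :=
  ∑ i ∈ Finset.range k, (1 / 4 : ℝ) ^ i * Real.log (ker ψ y i z)

noncomputable def Gam (d : ℕ → ℕ) (G : ℕ → ℕ → ℂ → ℂ) (t : ℂ) (k : ℕ) (z : ℂ) : ℝ :=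
  Real.exp (-((starRingEnd ℂ) t * SS d G k z).re)

noncomputable def EE (d : ℕ → ℕ) (G : ℕ → ℕ → ℂ → ℂ) (t : ℂ) (k : ℕ) (V : ℂ) : ℝ :=
  Real.exp (-(bet (d k) * ((starRingEnd ℂ) t * G (k + 1) 0 V).re))

theorem geo4 (k : ℕ) : ∑ i ∈ Finset.range k, (1 / 4 : ℝ) ^ (i + 1) ≤ 1 / 3 := by
  have h : ∀ k : ℕ, ∑ i ∈ Finset.range k, (1 / 4 : ℝ) ^ (i + 1) = (1 - (1 / 4) ^ k) / 3 := by
    intro k
    induction k with
    | zero => simp
    | succ k ih =>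
      rw [Finset.sum_range_succ, ih, pow_succ]
      ring
  rw [h]
  have : 0 ≤ (1 / 4 : ℝ) ^ k := by positivity
  linarith

theorem geo4' (k : ℕ) : ∑ i ∈ Finset.range k, (1 / 4 : ℝ) ^ i ≤ 4 / 3 := by
  have h : ∀ i ∈ Finset.range k, (1 / 4 : ℝ) ^ i = 4 * (1 / 4 : ℝ) ^ (i + 1) := by
    intro i _
    rw [pow_succ]
    ring
  rw [Finset.sum_congr rfl h, ← Finset.mul_sum]
  have := geo4 k
  linarith

theorem one_le_Phi (ψ : ℂ → ℂ) (y : ℕ → ℂ) (q : ℝ) (k : ℕ) (z : ℂ) : 1 ≤ Phi ψ y q k z := by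
  unfold Phi
  have : 0 ≤ ∑ i ∈ Finset.range k, (1 / 4 : ℝ) ^ (i + 1) * ker ψ y i z ^ q :=
    Finset.sum_nonneg fun i _ => mul_nonneg (by positivity) (Real.rpow_nonneg (ker_pos ψ y i z).le _)
  linarith

theorem ker0_le_Phi (ψ : ℂ → ℂ) (y : ℕ → ℂ) (q : ℝ) (k : ℕ) (z : ℂ) :
    ker ψ y 0 z ^ q ≤ 4 * Phi ψ y q (k + 1) z := by
  unfold Phi
  rw [Finset.sum_range_succ']
  have : 0 ≤ ∑ i ∈ Finset.range k, (1 / 4 : ℝ) ^ (i + 1 + 1) * ker ψ y (i + 1) z ^ q :=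
    Finset.sum_nonneg fun i _ =>
      mul_nonneg (by positivity) (Real.rpow_nonneg (ker_pos ψ y _ z).le _)
  rw [zero_add, pow_one]
  linarith

theorem Phi_sq (ψ : ℂ → ℂ) (y : ℕ → ℂ) (q : ℝ) (k : ℕ) (z : ℂ) :
    Phi ψ y q k z ^ 2 ≤ 2 * Phi ψ y (2 * q) k z := by
  unfold Phi
  set x := ∑ i ∈ Finset.range k, (1 / 4 : ℝ) ^ (i + 1) * ker ψ y i z ^ q with hx
  set X := ∑ i ∈ Finset.range k, (1 / 4 : ℝ) ^ (i + 1) * ker ψ y i z ^ (2 * q) with hX
  have h1 : x ^ 2 ≤ (∑ i ∈ Finset.range k, (1 / 4 : ℝ) ^ (i + 1)) * X := by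
    rw [hx, hX]
    apply Finset.sum_sq_le_sum_mul_sum_of_sq_eq_mul
    · intro i _
      positivity
    · intro i _
      exact mul_nonneg (by positivity) (Real.rpow_nonneg (ker_pos ψ y i z).le _)
    · intro i _
      rw [mul_pow, ← Real.rpow_natCast (ker ψ y i z ^ q) 2, ← Real.rpow_mul (ker_pos ψ y i z).le,
        mul_comm q]
      push_cast
      ring
  have hX0 : 0 ≤ X := Finset.sum_nonneg fun i _ =>
    mul_nonneg (by positivity) (Real.rpow_nonneg (ker_pos ψ y i z).le _)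
  have h2 := mul_le_mul_of_nonneg_right (geo4 k) hX0
  nlinarith [sq_nonneg (1 - x)]

theorem Sys.av_Phi (J : Sys d c ψ h) (q : ℝ) (k : ℕ) {z : ℂ} (hz : 1 < ‖z‖) :
    av (d k) (Phi (ψ k) (crit d c k) q k) z = 1 + ∑ i ∈ Finset.range k, (1 / 4 : ℝ) ^ (i + 1) *
      ((1 / (d k : ℝ)) * ∑ l ∈ Finset.range (d k),
        (max 1 ‖om (d k) ^ l * ψ k z - crit d c k (i + 1)‖⁻¹) ^ q) := by
  have hd0 : (d k : ℝ) ≠ 0 := by exact_mod_cast J.dne k
  unfold av Phi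
  rw [Finset.sum_add_distrib, mul_add, Finset.sum_const, Finset.card_range, nsmul_eq_mul, mul_one]
  congr 1
  · field_simp
  · rw [Finset.sum_comm, Finset.mul_sum]
    apply Finset.sum_congr rfl
    intro i _
    rw [← Finset.mul_sum]
    rw [← mul_assoc, mul_comm (1 / (d k : ℝ)), mul_assoc]
    congr 2
    apply Finset.sum_congr rfl
    intro l _
    unfold ker
    rw [J.sym k hz l]

theorem Sys.ker0_eq (J : Sys d c ψ h) (k : ℕ) (V : ℂ) :
    ker (ψ (k + 1)) (crit d c (k + 1)) 0 V = max 1 ‖ψ (k + 1) V - c k‖⁻¹ := by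
  unfold ker
  rw [zero_add, J.crit_one]

/-- the average of `Phi` over the roots -/
theorem Sys.avPhi (J : Sys d c ψ h) {q s : ℝ} (hq0 : 0 < q) (hq1 : q < 1) (hs : 0 ≤ s) (k : ℕ)
    (hsq : s + q / d k ≤ q) {z : ℂ} (hz : 1 < ‖z‖) (h4 : ‖z ^ d k‖ ≤ 4) :
    ker (ψ (k + 1)) (crit d c (k + 1)) 0 (z ^ d k) ^ s *
      av (d k) (Phi (ψ k) (crit d c k) q k) z ≤
      34 / (1 - q) * ker (ψ (k + 1)) (crit d c (k + 1)) 0 (z ^ d k) ^ (s + q / d k) +
        56 * (d k : ℝ) ^ (q - 1) * Phi (ψ (k + 1)) (crit d c (k + 1)) q (k + 1) (z ^ d k) := by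
  have hd1 : 1 ≤ d k := by have := J.hd k; omega
  have hd0 : (0 : ℝ) < d k := by exact_mod_cast hd1
  have h1q : 0 < 1 - q := by linarith
  have hzd := pow_ext hz (J.dne k)
  set V := z ^ d k with hV
  have hKe := J.ker0_eq k V
  set K := ker (ψ (k + 1)) (crit d c (k + 1)) 0 V with hK
  have hK1 : 1 ≤ K := one_le_ker _ _ 0 V
  have hK0 : 0 < K := by linarith
  have hkey : ∀ i ∈ Finset.range k, (1 / 4 : ℝ) ^ (i + 1) * (K ^ s * ((1 / (d k : ℝ)) *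
      ∑ l ∈ Finset.range (d k), (max 1 ‖om (d k) ^ l * ψ k z - crit d c k (i + 1)‖⁻¹) ^ q)) ≤
      (1 / 4 : ℝ) ^ (i + 1) * (17 / (1 - q) * K ^ (s + q / d k)) +
        56 * (d k : ℝ) ^ (q - 1) * ((1 / 4 : ℝ) ^ (i + 1 + 1) *
          ker (ψ (k + 1)) (crit d c (k + 1)) (i + 1) V ^ q) := by
    intro i _
    have h1 := avg_a (d := d k) hd1 (x := ψ k z) (y := crit d c k (i + 1)) (c := c k)
      (X := ψ (k + 1) V) (Y := crit d c (k + 1) (i + 1 + 1))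
      (J.fe k z hz) (crit_succ _ _ _ _) (J.ne0 k hz) (J.omit _ _ _ hzd) (by
        have := J.dist_le (k + 1) hzd (J.c_le k)
        linarith) hq0 hq1 hs hsq
    rw [← hKe] at h1
    have h2 := mul_le_mul_of_nonneg_left h1 (by positivity : 0 ≤ (1 / 4 : ℝ) ^ (i + 1))
    refine h2.trans (le_of_eq ?_)
    simp only [ker]
    ring
  have h1 := Finset.sum_le_sum hkey
  rw [Finset.sum_add_distrib, ← Finset.sum_mul, ← Finset.mul_sum] at h1
  have h2 := mul_le_mul_of_nonneg_right (geo4 k)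
    (by positivity : 0 ≤ 17 / (1 - q) * K ^ (s + q / d k))
  rw [J.av_Phi q k hz, mul_add, mul_one, Finset.mul_sum]
  have e1 : ∀ i ∈ Finset.range k, K ^ s * ((1 / 4 : ℝ) ^ (i + 1) * ((1 / (d k : ℝ)) *
      ∑ l ∈ Finset.range (d k), (max 1 ‖om (d k) ^ l * ψ k z - crit d c k (i + 1)‖⁻¹) ^ q)) =
      (1 / 4 : ℝ) ^ (i + 1) * (K ^ s * ((1 / (d k : ℝ)) *
      ∑ l ∈ Finset.range (d k), (max 1 ‖om (d k) ^ l * ψ k z - crit d c k (i + 1)‖⁻¹) ^ q)) :=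
    fun i _ => by ring
  rw [Finset.sum_congr rfl e1]
  have has' : K ^ s ≤ K ^ (s + q / d k) := by
    apply Real.rpow_le_rpow_of_exponent_le hK1
    have : 0 ≤ q / d k := by positivity
    linarith
  have hKp : 0 ≤ K ^ (s + q / d k) := by positivity
  have hPhi : ∑ i ∈ Finset.range k, ((1 / 4 : ℝ) ^ (i + 1 + 1) *
      ker (ψ (k + 1)) (crit d c (k + 1)) (i + 1) V ^ q) ≤
      Phi (ψ (k + 1)) (crit d c (k + 1)) q (k + 1) V := by
    unfold Phi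
    rw [Finset.sum_range_succ']
    have : 0 ≤ (1 / 4 : ℝ) ^ (0 + 1) * ker (ψ (k + 1)) (crit d c (k + 1)) 0 V ^ q :=
      mul_nonneg (by positivity) (Real.rpow_nonneg (ker_pos _ _ _ V).le _)
    linarith
  have h3 : 56 * (d k : ℝ) ^ (q - 1) * ∑ i ∈ Finset.range k, ((1 / 4 : ℝ) ^ (i + 1 + 1) *
      ker (ψ (k + 1)) (crit d c (k + 1)) (i + 1) V ^ q) ≤
      56 * (d k : ℝ) ^ (q - 1) * Phi (ψ (k + 1)) (crit d c (k + 1)) q (k + 1) V :=
    mul_le_mul_of_nonneg_left hPhi (by positivity)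
  have h5 : K ^ (s + q / d k) + 1 / 3 * (17 / (1 - q) * K ^ (s + q / d k)) ≤
      34 / (1 - q) * K ^ (s + q / d k) := by
    have e2 : K ^ (s + q / d k) + 1 / 3 * (17 / (1 - q) * K ^ (s + q / d k)) =
        (1 + 17 / 3 * (1 / (1 - q))) * K ^ (s + q / d k) := by ring
    rw [e2]
    apply mul_le_mul_of_nonneg_right _ hKp
    have h6 : 1 ≤ 1 / (1 - q) := by
      rw [le_div_iff₀ h1q]
      linarith
    have e3 : 34 / (1 - q) = 34 * (1 / (1 - q)) := by ring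
    rw [e3]
    linarith
  linarith

/-- the average of `Phi` far from the set -/
theorem Sys.avPhi_top (J : Sys d c ψ h) {q : ℝ} (hq0 : 0 < q) (hq1 : q < 1) (k : ℕ) {z : ℂ}
    (hz : 1 < ‖z‖) (h4 : 4 < ‖z ^ d k‖) :
    av (d k) (Phi (ψ k) (crit d c k) q k) z ≤ 8 / (1 - q) := by
  have hd1 : 1 ≤ d k := by have := J.hd k; omega
  have h1q : 0 < 1 - q := by linarith
  have hzd := pow_ext hz (J.dne k)
  rw [J.av_Phi q k hz]
  have hψd : ψ k z ^ d k = ψ (k + 1) (z ^ d k) - c k := by rw [J.fe k z hz]; ring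
  have hx1 : 1 ≤ ‖ψ k z‖ := by
    by_contra h1
    push Not at h1
    have h2 : ‖ψ k z‖ ^ d k ≤ 1 := pow_le_one₀ (norm_nonneg _) h1.le
    rw [← norm_pow, hψd] at h2
    have := J.dist_ge (k + 1) h4.le (J.c_le k)
    linarith
  have hkey : ∀ i ∈ Finset.range k, (1 / 4 : ℝ) ^ (i + 1) * ((1 / (d k : ℝ)) *
      ∑ l ∈ Finset.range (d k), (max 1 ‖om (d k) ^ l * ψ k z - crit d c k (i + 1)‖⁻¹) ^ q) ≤
      (1 / 4 : ℝ) ^ (i + 1) * (8 / (1 - q)) := by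
    intro i _
    apply mul_le_mul_of_nonneg_left _ (by positivity)
    have e1 : ψ k z ^ d k - crit d c k (i + 1) ^ d k =
        ψ (k + 1) (z ^ d k) - crit d c (k + 1) (i + 1 + 1) := by
      rw [hψd, crit_succ d c k (i + 1)]
      ring
    apply avg_top hd1 hx1 _ _ hq0 hq1
    · rw [← sub_ne_zero, e1]
      exact sub_ne_zero.2 (J.omit _ _ _ hzd)
    · rw [e1]
      have h1 := J.dist_ge (k + 1) h4.le (J.crit_le (k + 1) (i + 1 + 1))
      have h2 : max ‖ψ k z‖ ‖crit d c k (i + 1)‖ ^ d k ≤ ‖z ^ d k‖ + 3 := by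
        rcases max_cases ‖ψ k z‖ ‖crit d c k (i + 1)‖ with ⟨h3, _⟩ | ⟨h3, _⟩
        · rw [h3, ← norm_pow, hψd]
          exact J.dist_le (k + 1) hzd (J.c_le k)
        · rw [h3, ← norm_pow]
          have e2 : crit d c k (i + 1) ^ d k = crit d c (k + 1) (i + 1 + 1) - c k := by
            rw [crit_succ d c k (i + 1)]; ring
          rw [e2]
          refine (norm_sub_le _ _).trans ?_
          have := J.crit_le (k + 1) (i + 1 + 1)
          have := J.c_le k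
          linarith
      linarith
  have h1 := Finset.sum_le_sum hkey
  rw [← Finset.sum_mul] at h1
  have h2 := mul_le_mul_of_nonneg_right (geo4 k) (by positivity : 0 ≤ 8 / (1 - q))
  have h6 : 1 ≤ 1 / (1 - q) := by
    rw [le_div_iff₀ h1q]
    linarith
  have e3 : 8 / (1 - q) = 8 * (1 / (1 - q)) := by ring
  linarith

/-- products are dominated by sums -/
theorem ag {ψ : ℂ → ℂ} {y : ℕ → ℂ} {q p : ℝ} (hq : 0 < q) (hp : 0 ≤ p) (hpq : 4 / 3 * p ≤ q) (k : ℕ)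
    (z : ℂ) : Real.exp (p * sg ψ y k z) ≤ 4 * Phi ψ y q k z := by
  have h1 := amgm k (w := fun i => p / q * (1 / 4 : ℝ) ^ i) (u := fun i => q * Real.log (ker ψ y i z))
    (fun i => by positivity) (by
      rw [← Finset.mul_sum]
      calc p / q * ∑ i ∈ Finset.range k, (1 / 4 : ℝ) ^ i ≤ p / q * (4 / 3) :=
            mul_le_mul_of_nonneg_left (geo4' k) (by positivity)
        _ ≤ 1 := by
          rw [div_mul_eq_mul_div, div_le_one hq]
          linarith)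
  have e1 : ∑ i ∈ Finset.range k, p / q * (1 / 4 : ℝ) ^ i * (q * Real.log (ker ψ y i z)) =
      p * sg ψ y k z := by
    unfold sg
    rw [Finset.mul_sum]
    apply Finset.sum_congr rfl
    intro i _
    field_simp
  rw [e1] at h1
  refine h1.trans ?_
  unfold Phi
  rw [mul_add, mul_one, Finset.mul_sum]
  have h2 : ∀ i ∈ Finset.range k, p / q * (1 / 4 : ℝ) ^ i * Real.exp (q * Real.log (ker ψ y i z)) ≤
      4 * ((1 / 4 : ℝ) ^ (i + 1) * ker ψ y i z ^ q) := by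
    intro i _
    have hk := ker_pos ψ y i z
    have e2 : Real.exp (q * Real.log (ker ψ y i z)) = ker ψ y i z ^ q := by
      rw [Real.rpow_def_of_pos hk, mul_comm]
    rw [e2, ← mul_assoc]
    apply mul_le_mul_of_nonneg_right _ (Real.rpow_nonneg hk.le _)
    have h4 : p / q ≤ 1 := by
      rw [div_le_one hq]
      linarith
    have h5 : 0 ≤ (1 / 4 : ℝ) ^ i := by positivity
    rw [pow_succ]
    nlinarith
  have h3 := Finset.sum_le_sum h2
  linarith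

theorem sg_nonneg (ψ : ℂ → ℂ) (y : ℕ → ℂ) (k : ℕ) (z : ℂ) : 0 ≤ sg ψ y k z :=
  Finset.sum_nonneg fun i _ => mul_nonneg (by positivity) (log_ker_nonneg ψ y i z)

theorem bet_nonneg (J : Sys d c ψ h) (n : ℕ) : 0 ≤ bet (d n) := by
  have hd1 : (2 : ℝ) ≤ d n := by exact_mod_cast J.hd n
  unfold bet
  apply div_nonneg <;> linarith

theorem bet_le (J : Sys d c ψ h) (n : ℕ) : bet (d n) ≤ 1 := by
  have hd1 : (2 : ℝ) ≤ d n := by exact_mod_cast J.hd n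
  unfold bet
  rw [div_le_one (by linarith)]
  linarith

theorem wt_bd (J : Sys d c ψ h) (hd4 : ∀ n, 4 ≤ d n) (k : ℕ) :
    ∀ i, 0 ≤ wt d k i ∧ wt d k i ≤ (1 / 4 : ℝ) ^ i := by
  induction k with
  | zero => intro i; unfold wt; constructor <;> positivity
  | succ k ih =>
    intro i
    cases i with
    | zero =>
      unfold wt
      rw [pow_zero]
      exact ⟨bet_nonneg J k, bet_le J k⟩
    | succ i =>
      unfold wt
      obtain ⟨h1, h2⟩ := ih i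
      have h4 : (4 : ℝ) ≤ d k := by exact_mod_cast hd4 k
      refine ⟨by positivity, ?_⟩
      rw [div_le_iff₀ (by linarith), pow_succ]
      have : 0 ≤ (1 / 4 : ℝ) ^ i := by positivity
      nlinarith

theorem Dyn.term_le (D : Dyn ρ B d c ψ h G) (hd4 : ∀ n, 4 ≤ d n) (k i : ℕ) (hi : i < k) {z : ℂ}
    (hz : 1 < ‖z‖) : ‖((wt d k i : ℝ) : ℂ) * G k i z‖ ≤
      ρ * ((1 / 4 : ℝ) ^ i * Real.log (ker (ψ k) (crit d c k) i z)) + (1 / 4 : ℝ) ^ i * B := by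
  obtain ⟨h1, h2⟩ := wt_bd D.sys hd4 k i
  rw [norm_mul, Complex.norm_real, Real.norm_of_nonneg h1]
  have h3 := D.bd k i hi z hz
  have h4 : 0 ≤ ρ * Real.log (ker (ψ k) (crit d c k) i z) + B := by
    have := log_ker_nonneg (ψ k) (crit d c k) i z
    have := D.hρ
    have := D.hB
    positivity
  calc wt d k i * ‖G k i z‖ ≤ (1 / 4 : ℝ) ^ i * (ρ * Real.log (ker (ψ k) (crit d c k) i z) + B) :=
        mul_le_mul h2 h3 (norm_nonneg _) (by positivity)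
    _ = _ := by ring

theorem Dyn.SS_le (D : Dyn ρ B d c ψ h G) (hd4 : ∀ n, 4 ≤ d n) (k : ℕ) {z : ℂ} (hz : 1 < ‖z‖) :
    ‖SS d G k z‖ ≤ ρ * (sg (ψ k) (crit d c k) k z + 2 * B) := by
  unfold SS sg
  refine (norm_sum_le _ _).trans ?_
  refine (Finset.sum_le_sum fun i hi => D.term_le hd4 k i (Finset.mem_range.1 hi) hz).trans ?_
  rw [Finset.sum_add_distrib, ← Finset.sum_mul, ← Finset.mul_sum]
  have h1 := geo4' k
  have hB := D.hB
  have hρ := D.hρ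
  nlinarith

theorem wt_succ (d : ℕ → ℕ) (k i : ℕ) : wt d (k + 1) (i + 1) = wt d k i / d k := rfl

theorem wt_zero (d : ℕ → ℕ) (k : ℕ) : wt d (k + 1) 0 = bet (d k) := rfl

theorem Dyn.SS_av (D : Dyn ρ B d c ψ h G) (k : ℕ) {z : ℂ} (hz : 1 < ‖z‖) :
    ∑ l ∈ Finset.range (d k), SS d G k (om (d k) ^ l * z) =
      (d k : ℂ) * (SS d G (k + 1) (z ^ d k) - (bet (d k) : ℝ) * G (k + 1) 0 (z ^ d k)) := by
  have hd0 : (d k : ℂ) ≠ 0 := by exact_mod_cast D.sys.dne k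
  unfold SS
  rw [Finset.sum_comm, Finset.sum_range_succ' _ k, wt_zero, add_sub_cancel_right, Finset.mul_sum]
  apply Finset.sum_congr rfl
  intro i hi
  rw [← Finset.mul_sum, D.grec k i (Finset.mem_range.1 hi) hz, wt_succ]
  push_cast
  field_simp

theorem Dyn.m_le (D : Dyn ρ B d c ψ h G) (hd4 : ∀ n, 4 ≤ d n) (k : ℕ) {V : ℂ} (hV : 1 < ‖V‖) :
    ‖SS d G (k + 1) V - (bet (d k) : ℝ) * G (k + 1) 0 V‖ ≤
      ρ * (sg (ψ (k + 1)) (crit d c (k + 1)) (k + 1) V + 2 * B) := by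
  unfold SS sg
  rw [Finset.sum_range_succ' _ k, wt_zero, add_sub_cancel_right, Finset.sum_range_succ' _ k]
  refine (norm_sum_le _ _).trans ?_
  refine (Finset.sum_le_sum fun i hi => D.term_le hd4 (k + 1) (i + 1)
    (Nat.succ_lt_succ (Finset.mem_range.1 hi)) hV).trans ?_
  rw [Finset.sum_add_distrib, ← Finset.sum_mul, ← Finset.mul_sum]
  have h2 := geo4 k
  have h4 : 0 ≤ (1 / 4 : ℝ) ^ 0 * Real.log (ker (ψ (k + 1)) (crit d c (k + 1)) 0 V) :=
    mul_nonneg (by positivity) (log_ker_nonneg _ _ 0 V)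
  have hB := D.hB
  have hρ := D.hρ
  nlinarith

theorem Dyn.EE_le (D : Dyn ρ B d c ψ h G) {t : ℂ} (ht : ‖t‖ ≤ 1) (k : ℕ) {V : ℂ} (hV : 1 < ‖V‖) :
    EE d G t k V ≤ Real.exp B *
      ker (ψ (k + 1)) (crit d c (k + 1)) 0 V ^ (bet (d k) * (ρ * ‖t‖)) := by
  have hk := ker_pos (ψ (k + 1)) (crit d c (k + 1)) 0 V
  have hb0 := bet_nonneg D.sys k
  have hb1 := bet_le D.sys k
  have hB := D.hB
  have hρ := D.hρ
  unfold EE
  rw [Real.rpow_def_of_pos hk, ← Real.exp_add]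
  apply Real.exp_le_exp.2
  have h1 : |((starRingEnd ℂ) t * G (k + 1) 0 V).re| ≤ ‖t‖ * ‖G (k + 1) 0 V‖ := by
    refine (Complex.abs_re_le_norm _).trans ?_
    rw [norm_mul, RCLike.norm_conj]
  have h2 := D.bd (k + 1) 0 (Nat.succ_pos k) V hV
  have h3 := neg_abs_le ((starRingEnd ℂ) t * G (k + 1) 0 V).re
  have h4 := norm_nonneg t
  have h5 : ‖t‖ * ‖G (k + 1) 0 V‖ ≤
      ‖t‖ * (ρ * Real.log (ker (ψ (k + 1)) (crit d c (k + 1)) 0 V) + B) :=
    mul_le_mul_of_nonneg_left h2 h4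
  have h6 : -((starRingEnd ℂ) t * G (k + 1) 0 V).re ≤
      ‖t‖ * (ρ * Real.log (ker (ψ (k + 1)) (crit d c (k + 1)) 0 V) + B) := by linarith
  have h7 := mul_le_mul_of_nonneg_left h6 hb0
  have h8 : bet (d k) * ‖t‖ ≤ 1 := by nlinarith
  have h9 : bet (d k) * ‖t‖ * B ≤ 1 * B := mul_le_mul_of_nonneg_right h8 hB
  linarith

/-- **the rough inequality** -/
theorem Dyn.rough (D : Dyn ρ B d c ψ h G) {q : ℝ} (hq0 : 0 < q) (hq1 : q < 1) {t : ℂ}
    (htq : ρ * ‖t‖ ≤ q) (k : ℕ) {z : ℂ} (hz : 1 < ‖z‖) (h4 : ‖z ^ d k‖ ≤ 4) :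
    EE d G t k (z ^ d k) * av (d k) (Phi (ψ k) (crit d c k) q k) z ≤
      192 * Real.exp B / (1 - q) * Phi (ψ (k + 1)) (crit d c (k + 1)) q (k + 1) (z ^ d k) := by
  have J := D.sys
  have hρ := D.hρ
  have ht0 := norm_nonneg t
  have ht1 : ‖t‖ ≤ 1 := by nlinarith
  have hd1 : 1 ≤ d k := by have := J.hd k; omega
  have hd1' : (1 : ℝ) ≤ d k := by exact_mod_cast hd1
  have hd0 : (0 : ℝ) < d k := by linarith
  have h1q : 0 < 1 - q := by linarith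
  have hzd := pow_ext hz (J.dne k)
  set V := z ^ d k with hV
  have hb0 := bet_nonneg J k
  have hb1 := bet_le J k
  have hs : bet (d k) * (ρ * ‖t‖) + q / d k ≤ q := by
    have h1 : bet (d k) * (ρ * ‖t‖) ≤ bet (d k) * q := mul_le_mul_of_nonneg_left htq hb0
    have e1 : bet (d k) * q + q / d k = q := by
      unfold bet
      field_simp
      ring
    linarith
  have h1 := J.avPhi hq0 hq1 (s := bet (d k) * (ρ * ‖t‖)) (by positivity) k hs hz h4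
  rw [← hV] at h1
  obtain ⟨K, hK⟩ : ∃ K, K = ker (ψ (k + 1)) (crit d c (k + 1)) 0 V := ⟨_, rfl⟩
  obtain ⟨P, hP⟩ : ∃ P, P = Phi (ψ (k + 1)) (crit d c (k + 1)) q (k + 1) V := ⟨_, rfl⟩
  have hK1 : 1 ≤ K := by rw [hK]; exact one_le_ker _ _ 0 V
  have hPhi : 1 ≤ P := by rw [hP]; exact one_le_Phi _ _ q (k + 1) V
  have h2 : K ^ (bet (d k) * (ρ * ‖t‖) + q / d k) ≤ 4 * P := by
    rw [hP]
    refine (Real.rpow_le_rpow_of_exponent_le hK1 hs).trans ?_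
    rw [hK]
    exact ker0_le_Phi _ _ q k V
  have hdq : (d k : ℝ) ^ (q - 1) ≤ 1 := Real.rpow_le_one_of_one_le_of_nonpos hd1' (by linarith)
  have hav : 0 ≤ av (d k) (Phi (ψ k) (crit d c k) q k) z := by
    unfold av
    apply mul_nonneg (by positivity)
    exact Finset.sum_nonneg fun l _ => by
      have := one_le_Phi (ψ k) (crit d c k) q k (om (d k) ^ l * z)
      linarith
  have hE := D.EE_le ht1 k hzd
  rw [← hK, ← hP] at h1
  rw [← hK] at hE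
  rw [← hP]
  have hx := Real.exp_pos B
  have h6 : 1 ≤ 1 / (1 - q) := by
    rw [le_div_iff₀ h1q]
    linarith
  calc EE d G t k V * av (d k) (Phi (ψ k) (crit d c k) q k) z
      ≤ (Real.exp B * K ^ (bet (d k) * (ρ * ‖t‖))) * av (d k) (Phi (ψ k) (crit d c k) q k) z :=
        mul_le_mul_of_nonneg_right hE hav
    _ = Real.exp B * (K ^ (bet (d k) * (ρ * ‖t‖)) * av (d k) (Phi (ψ k) (crit d c k) q k) z) := by
        ring
    _ ≤ Real.exp B * (34 / (1 - q) * K ^ (bet (d k) * (ρ * ‖t‖) + q / d k) +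
        56 * (d k : ℝ) ^ (q - 1) * P) := mul_le_mul_of_nonneg_left h1 hx.le
    _ ≤ Real.exp B * (34 / (1 - q) * (4 * P) + 56 * 1 * P) := by gcongr
    _ = Real.exp B * (136 * (1 / (1 - q)) + 56) * P := by ring
    _ ≤ Real.exp B * (192 * (1 / (1 - q))) * P := by
        apply mul_le_mul_of_nonneg_right _ (by linarith)
        apply mul_le_mul_of_nonneg_left _ hx.le
        linarith
    _ = _ := by ring

end Pool.Agent.W5h55.JK
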