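import Pool.Agent.W5h55.JU.K5

set_option autoImplicit false

/-! # The fine pointwise inequality (non-autonomous) -/

namespace Pool.Agent.W5h55.JK

open Complex Metric Set Filter Topology MeasureTheory
open Pool.Agent.W677.Mar Pool.Agent.R250.MC Pool.Agent.W5h55.JU

variable {ρ B : ℝ} {d : ℕ → ℕ} {c : ℕ → ℂ} {ψ h : ℕ → ℂ → ℂ} {G : ℕ → ℕ → ℂ → ℂ}

theorem re_bound (t w : ℂ) : |((starRingEnd ℂ) t * w).re| ≤ ‖t‖ * ‖w‖ := by
  refine (Complex.abs_re_le_norm _).trans ?_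
  rw [norm_mul, RCLike.norm_conj]

theorem Dyn.Gam_le (D : Dyn ρ B d c ψ h G) (hd4 : ∀ n, 4 ≤ d n) (t : ℂ) (k : ℕ) {z : ℂ}
    (hz : 1 < ‖z‖) :
    Gam d G t k z ≤ Real.exp (ρ * ‖t‖ * (sg (ψ k) (crit d c k) k z + 2 * B)) := by
  unfold Gam
  apply Real.exp_le_exp.2
  have h1 := re_bound t (SS d G k z)
  have h2 := neg_abs_le ((starRingEnd ℂ) t * SS d G k z).re
  have h3 := mul_le_mul_of_nonneg_left (D.SS_le hd4 k hz) (norm_nonneg t)
  linarith

theorem Dyn.Gam_inv_le (D : Dyn ρ B d c ψ h G) (hd4 : ∀ n, 4 ≤ d n) (t : ℂ) (k : ℕ) {z : ℂ}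
    (hz : 1 < ‖z‖) :
    (Gam d G t k z)⁻¹ ≤ Real.exp (ρ * ‖t‖ * (sg (ψ k) (crit d c k) k z + 2 * B)) := by
  unfold Gam
  rw [← Real.exp_neg, neg_neg]
  apply Real.exp_le_exp.2
  have h1 := re_bound t (SS d G k z)
  have h2 := le_abs_self ((starRingEnd ℂ) t * SS d G k z).re
  have h3 := mul_le_mul_of_nonneg_left (D.SS_le hd4 k hz) (norm_nonneg t)
  linarith

theorem exp_Phi {ψ : ℂ → ℂ} {y : ℕ → ℂ} (hB : 0 ≤ B) {τ : ℝ} (hτ : τ ≤ 1 / 16)
    {q : ℝ} (hq : 1 / 4 ≤ q) (k : ℕ) (z : ℂ) :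
    Real.exp (τ * (sg ψ y k z + 2 * B)) ≤ 4 * Real.exp B * Phi ψ y q k z := by
  have h1 := ag (ψ := ψ) (y := y) (q := q) (p := 1 / 16) (by linarith) (by norm_num) (by linarith) k z
  have hs := sg_nonneg ψ y k z
  have h2 : Real.exp (τ * (sg ψ y k z + 2 * B)) ≤ Real.exp (1 / 16 * sg ψ y k z) * Real.exp B := by
    rw [← Real.exp_add]
    apply Real.exp_le_exp.2
    have h3 : τ * (sg ψ y k z + 2 * B) ≤ 1 / 16 * (sg ψ y k z + 2 * B) :=
      mul_le_mul_of_nonneg_right hτ (by linarith)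
    linarith
  have h3 := mul_le_mul_of_nonneg_right h1 (Real.exp_pos B).le
  linarith

noncomputable def Yl (d : ℕ → ℕ) (G : ℕ → ℕ → ℂ → ℂ) (t : ℂ) (k : ℕ) (z : ℂ) (l : ℕ) : ℝ :=
  -((starRingEnd ℂ) t * (SS d G k (om (d k) ^ l * z) -
    (SS d G (k + 1) (z ^ d k) - (bet (d k) : ℝ) * G (k + 1) 0 (z ^ d k)))).re

theorem EG (d : ℕ → ℕ) (G : ℕ → ℕ → ℂ → ℂ) (t : ℂ) (k : ℕ) (z : ℂ) (l : ℕ) :
    EE d G t k (z ^ d k) * Gam d G t k (om (d k) ^ l * z) =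
      Gam d G t (k + 1) (z ^ d k) * Real.exp (Yl d G t k z l) := by
  unfold EE Gam Yl
  rw [← Real.exp_add, ← Real.exp_add]
  congr 1
  have e : (starRingEnd ℂ) t * (SS d G k (om (d k) ^ l * z) -
      (SS d G (k + 1) (z ^ d k) - (bet (d k) : ℝ) * G (k + 1) 0 (z ^ d k))) =
      (starRingEnd ℂ) t * SS d G k (om (d k) ^ l * z) - (starRingEnd ℂ) t * SS d G (k + 1) (z ^ d k) +
        (bet (d k) : ℝ) * ((starRingEnd ℂ) t * G (k + 1) 0 (z ^ d k)) := by ring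
  rw [e, Complex.add_re, Complex.sub_re, Complex.re_ofReal_mul]
  ring

theorem Dyn.sum_Yl (D : Dyn ρ B d c ψ h G) (t : ℂ) (k : ℕ) {z : ℂ} (hz : 1 < ‖z‖) :
    ∑ l ∈ Finset.range (d k), Yl d G t k z l = 0 := by
  unfold Yl
  rw [Finset.sum_neg_distrib, ← Complex.re_sum, ← Finset.mul_sum,
    Finset.sum_sub_distrib, D.SS_av k hz, Finset.sum_const, Finset.card_range, nsmul_eq_mul, sub_self,
    mul_zero, Complex.zero_re, neg_zero]

theorem Dyn.Yl_le (D : Dyn ρ B d c ψ h G) (hd4 : ∀ n, 4 ≤ d n) (t : ℂ) (k : ℕ) {z : ℂ}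
    (hz : 1 < ‖z‖) (l : ℕ) :
    |Yl d G t k z l| ≤ ρ * ‖t‖ * (sg (ψ k) (crit d c k) k (om (d k) ^ l * z) +
      sg (ψ (k + 1)) (crit d c (k + 1)) (k + 1) (z ^ d k) + 4 * B) := by
  unfold Yl
  rw [abs_neg]
  refine (re_bound t _).trans ?_
  have h1 := D.SS_le hd4 k (om_ext hz (d k) l)
  have h2 := D.m_le hd4 k (pow_ext hz (D.sys.dne k))
  have h3 := norm_sub_le (SS d G k (om (d k) ^ l * z))
    (SS d G (k + 1) (z ^ d k) - (bet (d k) : ℝ) * G (k + 1) 0 (z ^ d k))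
  have h4 := mul_le_mul_of_nonneg_left (h3.trans (add_le_add h1 h2)) (norm_nonneg t)
  linarith

/-- the averages of the exponential weights -/
theorem Dyn.fineG (D : Dyn ρ B d c ψ h G) (hd4 : ∀ n, 4 ≤ d n) {t : ℂ} (ht : ρ * ‖t‖ ≤ 1 / 16)
    (k : ℕ) {z : ℂ} (hz : 1 < ‖z‖) (h4 : ‖z ^ d k‖ ≤ 4) :
    EE d G t k (z ^ d k) * av (d k) (Gam d G t k) z ≤ Gam d G t (k + 1) (z ^ d k) +
      4000000 * Real.exp B * (ρ * ‖t‖) ^ 2 *
        Phi (ψ (k + 1)) (crit d c (k + 1)) (1 / 2) (k + 1) (z ^ d k) := by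
  have J := D.sys
  have hB := D.hB
  have hρ := D.hρ
  have hd0 : (0 : ℝ) < d k := by exact_mod_cast (by have := hd4 k; omega : 0 < d k)
  have hd1 : (1 : ℝ) ≤ d k := by exact_mod_cast (by have := hd4 k; omega : 1 ≤ d k)
  have hzd := pow_ext hz (J.dne k)
  have hg : 0 < Gam d G t (k + 1) (z ^ d k) := Real.exp_pos _
  have ht0 := norm_nonneg t
  obtain ⟨τ, hτ⟩ : ∃ τ, τ = ρ * ‖t‖ := ⟨_, rfl⟩
  have hτ0 : 0 ≤ τ := by rw [hτ]; positivity
  set V := z ^ d k with hV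
  set g := Gam d G t (k + 1) V with hgd
  set P := Phi (ψ (k + 1)) (crit d c (k + 1)) (1 / 4) (k + 1) V with hP
  have hP1 : 1 ≤ P := one_le_Phi _ _ _ _ _
  have hx := Real.exp_pos B
  rw [← hτ] at ht ⊢
  -- each term
  have hterm : ∀ l ∈ Finset.range (d k), g * Real.exp (Yl d G t k z l) ≤ g + g * Yl d G t k z l +
      8192 * Real.exp B * τ ^ 2 * P * Phi (ψ k) (crit d c k) (1 / 4) k (om (d k) ^ l * z) := by
    intro l _
    have h1 := exp_le_quad (Yl d G t k z l)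
    have h2 := mul_le_mul_of_nonneg_left h1 hg.le
    obtain ⟨s', hs'⟩ : ∃ s', s' = sg (ψ (k + 1)) (crit d c (k + 1)) (k + 1) V := ⟨_, rfl⟩
    obtain ⟨s, hs⟩ : ∃ s, s = sg (ψ k) (crit d c k) k (om (d k) ^ l * z) := ⟨_, rfl⟩
    have hs0 : 0 ≤ s := by rw [hs]; exact sg_nonneg _ _ _ _
    have hs'0 : 0 ≤ s' := by rw [hs']; exact sg_nonneg _ _ _ _
    obtain ⟨Q, hQ⟩ : ∃ Q, Q = s + s' + 4 * B := ⟨_, rfl⟩
    have hQ0 : 0 ≤ Q := by rw [hQ]; positivity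
    have hY := D.Yl_le hd4 t k hz l
    rw [← hV, ← hs, ← hs', ← hQ, ← hτ] at hY
    have h3 : Yl d G t k z l ^ 2 ≤ τ ^ 2 * (512 * Real.exp (Q / 16)) := by
      rw [← sq_abs]
      calc |Yl d G t k z l| ^ 2 ≤ (τ * Q) ^ 2 := pow_le_pow_left₀ (abs_nonneg _) hY 2
        _ = τ ^ 2 * (256 * (Q / 16) ^ 2) := by ring
        _ ≤ τ ^ 2 * (256 * (2 * Real.exp (Q / 16))) := by
            apply mul_le_mul_of_nonneg_left _ (sq_nonneg _)
            apply mul_le_mul_of_nonneg_left _ (by norm_num)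
            exact sq_le_exp (by positivity)
        _ = _ := by ring
    have h5 : Real.exp |Yl d G t k z l| ≤ Real.exp (Q / 16) := by
      apply Real.exp_le_exp.2
      have : τ * Q ≤ 1 / 16 * Q := mul_le_mul_of_nonneg_right ht hQ0
      linarith
    have h6 : Yl d G t k z l ^ 2 * Real.exp |Yl d G t k z l| ≤
        τ ^ 2 * (512 * Real.exp (Q / 16)) * Real.exp (Q / 16) :=
      mul_le_mul h3 h5 (Real.exp_pos _).le (by positivity)
    have h7 : g ≤ Real.exp (1 / 16 * (s' + 2 * B)) := by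
      refine (D.Gam_le hd4 t (k + 1) hzd).trans ?_
      rw [← hs', ← hτ]
      apply Real.exp_le_exp.2
      exact mul_le_mul_of_nonneg_right ht (by linarith)
    have h8 : g * (Yl d G t k z l ^ 2 * Real.exp |Yl d G t k z l|) ≤
        Real.exp (1 / 16 * (s' + 2 * B)) * (τ ^ 2 * (512 * Real.exp (Q / 16)) *
          Real.exp (Q / 16)) := mul_le_mul h7 h6 (by positivity) (by positivity)
    have h9 : Real.exp (1 / 16 * (s' + 2 * B)) * (τ ^ 2 * (512 * Real.exp (Q / 16)) *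
          Real.exp (Q / 16)) = 512 * τ ^ 2 * (Real.exp (3 / 16 * s') * Real.exp (1 / 8 * s) *
          Real.exp (5 / 8 * B)) := by
      have e : Real.exp (3 / 16 * s') * Real.exp (1 / 8 * s) * Real.exp (5 / 8 * B) =
          Real.exp (1 / 16 * (s' + 2 * B)) * (Real.exp (Q / 16) * Real.exp (Q / 16)) := by
        rw [← Real.exp_add, ← Real.exp_add, ← Real.exp_add, ← Real.exp_add]
        congr 1
        rw [hQ]
        ring
      rw [e]
      ring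
    rw [h9] at h8
    have h10 : Real.exp (3 / 16 * s') ≤ 4 * P := by
      rw [hs', hP]
      exact ag (by norm_num) (by norm_num) (by norm_num) (k + 1) V
    have h11 : Real.exp (1 / 8 * s) ≤ 4 * Phi (ψ k) (crit d c k) (1 / 4) k (om (d k) ^ l * z) := by
      rw [hs]
      exact ag (by norm_num) (by norm_num) (by norm_num) k _
    have h12 : Real.exp (5 / 8 * B) ≤ Real.exp B := by
      apply Real.exp_le_exp.2
      linarith
    have hPl : 1 ≤ Phi (ψ k) (crit d c k) (1 / 4) k (om (d k) ^ l * z) := one_le_Phi _ _ _ _ _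
    have h13 : Real.exp (3 / 16 * s') * Real.exp (1 / 8 * s) * Real.exp (5 / 8 * B) ≤
        (4 * P) * (4 * Phi (ψ k) (crit d c k) (1 / 4) k (om (d k) ^ l * z)) * Real.exp B := by
      apply mul_le_mul (mul_le_mul h10 h11 (by positivity) (by positivity)) h12 (by positivity)
        (by positivity)
    have h14 := mul_le_mul_of_nonneg_left h13 (by positivity : 0 ≤ 512 * τ ^ 2)
    linarith
  have hsum := Finset.sum_le_sum hterm
  rw [Finset.sum_add_distrib, Finset.sum_add_distrib, ← Finset.mul_sum, ← Finset.mul_sum,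
    D.sum_Yl t k hz, Finset.sum_const, Finset.card_range, nsmul_eq_mul, mul_zero, add_zero,
    ← Finset.mul_sum] at hsum
  have e1 : EE d G t k V * av (d k) (Gam d G t k) z = (1 / (d k : ℝ)) *
      (g * ∑ l ∈ Finset.range (d k), Real.exp (Yl d G t k z l)) := by
    have e : EE d G t k V * ∑ l ∈ Finset.range (d k), Gam d G t k (om (d k) ^ l * z) =
        g * ∑ l ∈ Finset.range (d k), Real.exp (Yl d G t k z l) := by
      rw [Finset.mul_sum, Finset.mul_sum]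
      exact Finset.sum_congr rfl fun l _ => EG d G t k z l
    unfold av
    rw [← e]
    ring
  rw [e1]
  have h1 := mul_le_mul_of_nonneg_left hsum (by positivity : 0 ≤ 1 / (d k : ℝ))
  refine h1.trans ?_
  have e2 : (1 / (d k : ℝ)) * ((d k : ℝ) * g + 8192 * Real.exp B * τ ^ 2 * P *
      ∑ l ∈ Finset.range (d k), Phi (ψ k) (crit d c k) (1 / 4) k (om (d k) ^ l * z)) =
      g + 8192 * Real.exp B * τ ^ 2 * P * av (d k) (Phi (ψ k) (crit d c k) (1 / 4) k) z := by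
    unfold av
    rw [mul_add]
    have e : (1 / (d k : ℝ)) * ((d k : ℝ) * g) = g := by field_simp
    rw [e]
    ring
  rw [e2]
  -- the average of the weights
  have hav := J.avPhi (q := 1 / 4) (s := 0) (by norm_num) (by norm_num) le_rfl k (by
    rw [zero_add]
    exact div_le_self (by norm_num) hd1) hz h4
  rw [Real.rpow_zero, one_mul, zero_add, ← hV, ← hP] at hav
  have hK1 := one_le_ker (ψ (k + 1)) (crit d c (k + 1)) 0 V
  have h2 : ker (ψ (k + 1)) (crit d c (k + 1)) 0 V ^ ((1 / 4 : ℝ) / d k) ≤ 4 * P :=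
    (Real.rpow_le_rpow_of_exponent_le hK1 (div_le_self (by norm_num) hd1)).trans
      (ker0_le_Phi _ _ (1 / 4) k V)
  have hdq : (d k : ℝ) ^ ((1 / 4 : ℝ) - 1) ≤ 1 :=
    Real.rpow_le_one_of_one_le_of_nonpos hd1 (by norm_num)
  have h3 : av (d k) (Phi (ψ k) (crit d c k) (1 / 4) k) z ≤ 240 * P := by
    have h5 : 56 * (d k : ℝ) ^ ((1 / 4 : ℝ) - 1) * P ≤ 56 * 1 * P := by gcongr
    have e3 : 34 / (1 - 1 / 4 : ℝ) = 136 / 3 := by norm_num
    rw [e3] at hav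
    have h6 : (136 / 3 : ℝ) * ker (ψ (k + 1)) (crit d c (k + 1)) 0 V ^ ((1 / 4 : ℝ) / d k) ≤
        136 / 3 * (4 * P) := by gcongr
    linarith
  have h5 := Phi_sq (ψ (k + 1)) (crit d c (k + 1)) (1 / 4) (k + 1) V
  rw [← hP, show (2 * (1 / 4) : ℝ) = 1 / 2 by norm_num] at h5
  obtain ⟨P2, hP2⟩ : ∃ P2, P2 = Phi (ψ (k + 1)) (crit d c (k + 1)) (1 / 2) (k + 1) V := ⟨_, rfl⟩
  rw [← hP2] at h5 ⊢
  have h9 : 1 ≤ P2 := by rw [hP2]; exact one_le_Phi _ _ _ _ _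
  have h6 : 8192 * Real.exp B * τ ^ 2 * P * av (d k) (Phi (ψ k) (crit d c k) (1 / 4) k) z ≤
      8192 * Real.exp B * τ ^ 2 * P * (240 * P) :=
    mul_le_mul_of_nonneg_left h3 (by positivity)
  have h7 : 8192 * Real.exp B * τ ^ 2 * P * (240 * P) =
      (8192 * 240) * (Real.exp B * τ ^ 2) * P ^ 2 := by ring
  have h8 : (8192 * 240) * (Real.exp B * τ ^ 2) * P ^ 2 ≤
      (8192 * 240) * (Real.exp B * τ ^ 2) * (2 * P2) :=
    mul_le_mul_of_nonneg_left h5 (by positivity)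
  have h10 : 0 ≤ (Real.exp B * τ ^ 2) * P2 := by positivity
  linarith

/-- the constant `C₄` -/
noncomputable def C4 (B : ℝ) : ℝ := 8 * Real.exp B * (36992 * Real.exp B ^ 2) ^ 2

theorem C4_nonneg (B : ℝ) : 0 ≤ C4 B := by unfold C4; positivity

/-- the averages of the kernels -/
theorem Dyn.fineP (D : Dyn ρ B d c ψ h G) (hd8 : ∀ n, 8 ≤ d n) {t : ℂ} (ht : ρ * ‖t‖ ≤ 1 / 16) (k : ℕ)
    (hdB : 56 * Real.exp B * (d k : ℝ) ^ (-(1 / 2) : ℝ) ≤ 1 / 4) {z : ℂ}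
    (hz : 1 < ‖z‖) (h4 : ‖z ^ d k‖ ≤ 4) :
    EE d G t k (z ^ d k) * av (d k) (Phi (ψ k) (crit d c k) (1 / 2) k) z ≤
      C4 B * Gam d G t (k + 1) (z ^ d k) +
      1 / 2 * Phi (ψ (k + 1)) (crit d c (k + 1)) (1 / 2) (k + 1) (z ^ d k) := by
  have J := D.sys
  have hB := D.hB
  have hρ := D.hρ
  have hd4 : ∀ n, 4 ≤ d n := fun n => by have := hd8 n; omega
  have hd8' : (8 : ℝ) ≤ d k := by exact_mod_cast hd8 k
  have hd0 : (0 : ℝ) < d k := by linarith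
  have hzd := pow_ext hz (J.dne k)
  have hb0 := bet_nonneg J k
  have hb1 := bet_le J k
  have ht0 := norm_nonneg t
  have ht1 : ‖t‖ ≤ 1 := by nlinarith
  have hg : 0 < Gam d G t (k + 1) (z ^ d k) := Real.exp_pos _
  obtain ⟨τ, hτ⟩ : ∃ τ, τ = ρ * ‖t‖ := ⟨_, rfl⟩
  have hτ0 : 0 ≤ τ := by rw [hτ]; positivity
  set V := z ^ d k with hV
  set g := Gam d G t (k + 1) V with hgd
  obtain ⟨P, hP⟩ : ∃ P, P = Phi (ψ (k + 1)) (crit d c (k + 1)) (1 / 2) (k + 1) V := ⟨_, rfl⟩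
  have hP1 : 1 ≤ P := by rw [hP]; exact one_le_Phi _ _ _ _ _
  obtain ⟨x, hx⟩ : ∃ x, x = Real.exp B := ⟨_, rfl⟩
  have hx0 : 0 < x := by rw [hx]; exact Real.exp_pos _
  rw [← hx] at hdB
  have hbt : bet (d k) * τ ≤ 1 / 16 := by
    rw [← hτ] at ht
    nlinarith
  have hqd : (1 / 2 : ℝ) / d k ≤ 1 / 16 := by
    rw [div_le_iff₀ hd0]
    linarith
  obtain ⟨K, hK⟩ : ∃ K, K = ker (ψ (k + 1)) (crit d c (k + 1)) 0 V := ⟨_, rfl⟩
  have hK1 : 1 ≤ K := by rw [hK]; exact one_le_ker _ _ 0 V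
  have hK0 : 0 < K := by linarith
  have h1 := J.avPhi (q := 1 / 2) (s := bet (d k) * τ) (by norm_num) (by norm_num) (by positivity) k
    (by linarith) hz h4
  rw [← hV, ← hP, ← hK, show (34 / (1 - 1 / 2) : ℝ) = 68 by norm_num,
    show ((1 / 2 : ℝ) - 1) = -(1 / 2) by norm_num] at h1
  have hav : 0 ≤ av (d k) (Phi (ψ k) (crit d c k) (1 / 2) k) z := by
    unfold av
    apply mul_nonneg (by positivity)
    exact Finset.sum_nonneg fun l _ => by
      have := one_le_Phi (ψ k) (crit d c k) (1 / 2) k (om (d k) ^ l * z)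
      linarith
  have hE := D.EE_le ht1 k hzd
  rw [← hx, ← hK, ← hτ] at hE
  rw [← hP]
  obtain ⟨v, hv⟩ : ∃ v, v = K ^ (1 / 8 : ℝ) := ⟨_, rfl⟩
  have hv1 : 1 ≤ v := by rw [hv]; exact Real.one_le_rpow hK1 (by norm_num)
  have hv4 : v ^ 4 ≤ 4 * P := by
    have e : v ^ 4 = K ^ (1 / 2 : ℝ) := by
      rw [hv, ← Real.rpow_natCast, ← Real.rpow_mul hK0.le]
      norm_num
    rw [e, hK, hP]
    exact ker0_le_Phi _ _ (1 / 2) k V
  have h2 : K ^ (bet (d k) * τ + (1 / 2 : ℝ) / d k) ≤ v := by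
    rw [hv]
    exact Real.rpow_le_rpow_of_exponent_le hK1 (by linarith)
  have h3 : EE d G t k V * av (d k) (Phi (ψ k) (crit d c k) (1 / 2) k) z ≤
      68 * x * v + 1 / 4 * P := by
    calc EE d G t k V * av (d k) (Phi (ψ k) (crit d c k) (1 / 2) k) z
        ≤ (x * K ^ (bet (d k) * τ)) * av (d k) (Phi (ψ k) (crit d c k) (1 / 2) k) z :=
          mul_le_mul_of_nonneg_right hE hav
      _ = x * (K ^ (bet (d k) * τ) * av (d k) (Phi (ψ k) (crit d c k) (1 / 2) k) z) := by ring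
      _ ≤ x * (68 * K ^ (bet (d k) * τ + (1 / 2 : ℝ) / d k) +
          56 * (d k : ℝ) ^ (-(1 / 2) : ℝ) * P) := mul_le_mul_of_nonneg_left h1 hx0.le
      _ ≤ x * (68 * v + 56 * (d k : ℝ) ^ (-(1 / 2) : ℝ) * P) := by gcongr
      _ = 68 * x * v + (56 * x * (d k : ℝ) ^ (-(1 / 2) : ℝ)) * P := by ring
      _ ≤ 68 * x * v + 1 / 4 * P := by
          have := mul_le_mul_of_nonneg_right hdB (by linarith : 0 ≤ P)
          linarith
  -- the linear term
  have h5 : 68 * x * v ≤ 1 / 8 * P + 36992 * x ^ 2 := by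
    have h6 : v ≤ v ^ 2 / (2176 * x) + 544 * x := by
      have h7 : 0 ≤ (v - 1088 * x) ^ 2 / (2176 * x) := by positivity
      have e : (v - 1088 * x) ^ 2 / (2176 * x) = v ^ 2 / (2176 * x) + 544 * x - v := by
        field_simp
        ring
      linarith
    have h7 : v ^ 2 ≤ v ^ 4 := pow_le_pow_right₀ hv1 (by norm_num)
    have h8 : v ^ 2 / (2176 * x) ≤ 4 * P / (2176 * x) := by
      apply div_le_div_of_nonneg_right (h7.trans hv4) (by positivity)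
    have h9 : 68 * x * v ≤ 68 * x * (4 * P / (2176 * x) + 544 * x) := by
      apply mul_le_mul_of_nonneg_left _ (by positivity)
      linarith
    have e : 68 * x * (4 * P / (2176 * x) + 544 * x) = 1 / 8 * P + 36992 * x ^ 2 := by
      field_simp
      ring
    linarith
  -- the constant term
  have h6 : 36992 * x ^ 2 ≤ 1 / 8 * P + C4 B * g := by
    have h7 : g⁻¹ ≤ 4 * x * P := by
      refine (D.Gam_inv_le hd4 t (k + 1) hzd).trans ?_
      rw [hx, hP]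
      exact exp_Phi hB ht (by norm_num) _ _
    obtain ⟨c', hc⟩ : ∃ c', c' = 36992 * x ^ 2 := ⟨_, rfl⟩
    have hc0 : 0 < c' := by rw [hc]; positivity
    have h8 : C4 B = 8 * x * c' ^ 2 := by
      unfold C4
      rw [hc, hx]
    rw [h8, ← hc]
    have h9 : c' ≤ g⁻¹ / (32 * x) + 8 * x * c' ^ 2 * g := by
      have h10 : 0 ≤ (1 - 16 * x * c' * g) ^ 2 / (32 * x * g) := by positivity
      have e : (1 - 16 * x * c' * g) ^ 2 / (32 * x * g) =
          g⁻¹ / (32 * x) + 8 * x * c' ^ 2 * g - c' := by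
        field_simp
        ring
      linarith
    have h10 : g⁻¹ / (32 * x) ≤ 1 / 8 * P := by
      rw [div_le_iff₀ (by positivity)]
      linarith
    linarith
  linarith

/-- the weights -/
noncomputable def WW (ρ B : ℝ) (d : ℕ → ℕ) (c : ℕ → ℂ) (ψ : ℕ → ℂ → ℂ) (G : ℕ → ℕ → ℂ → ℂ) (t : ℂ)
    (k : ℕ) (z : ℂ) : ℝ :=
  Gam d G t k z + 8000000 * Real.exp B * (ρ * ‖t‖) ^ 2 * Phi (ψ k) (crit d c k) (1 / 2) k z

/-- the constant `C₅` -/
noncomputable def C5 (B : ℝ) : ℝ := 8000000 * Real.exp B * C4 B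

theorem C5_nonneg (B : ℝ) : 0 ≤ C5 B := by
  unfold C5
  have := C4_nonneg B
  positivity

theorem av_add_mul (d : ℕ) (f g : ℂ → ℝ) (c : ℝ) (z : ℂ) :
    av d (fun z => f z + c * g z) z = av d f z + c * av d g z := by
  unfold av
  rw [Finset.sum_add_distrib, mul_add, ← Finset.mul_sum]
  ring

/-- **the fine inequality** -/
theorem Dyn.fine (D : Dyn ρ B d c ψ h G) (hd8 : ∀ n, 8 ≤ d n) {t : ℂ} (ht : ρ * ‖t‖ ≤ 1 / 16) (k : ℕ)
    (hdB : 56 * Real.exp B * (d k : ℝ) ^ (-(1 / 2) : ℝ) ≤ 1 / 4) {z : ℂ}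
    (hz : 1 < ‖z‖) (h4 : ‖z ^ d k‖ ≤ 4) :
    EE d G t k (z ^ d k) * av (d k) (WW ρ B d c ψ G t k) z ≤
      (1 + C5 B * (ρ * ‖t‖) ^ 2) * WW ρ B d c ψ G t (k + 1) (z ^ d k) := by
  have h1 := D.fineG (fun n => by have := hd8 n; omega) ht k hz h4
  have h2 := D.fineP hd8 ht k hdB hz h4
  have e : av (d k) (WW ρ B d c ψ G t k) z = av (d k) (Gam d G t k) z +
      8000000 * Real.exp B * (ρ * ‖t‖) ^ 2 * av (d k) (Phi (ψ k) (crit d c k) (1 / 2) k) z :=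
    av_add_mul (d k) _ _ _ z
  rw [e]
  unfold WW C5
  set V := z ^ d k with hV
  set g := Gam d G t (k + 1) V with hgd
  set P := Phi (ψ (k + 1)) (crit d c (k + 1)) (1 / 2) (k + 1) V with hP
  have hg : 0 < g := Real.exp_pos _
  have hP1 : 1 ≤ P := one_le_Phi _ _ _ _ _
  obtain ⟨τ, hτ⟩ : ∃ τ, τ = ρ * ‖t‖ := ⟨_, rfl⟩
  rw [← hτ] at h1 ⊢
  obtain ⟨K, hK⟩ : ∃ K, K = 8000000 * Real.exp B := ⟨_, rfl⟩
  have hK0 : 0 < K := by rw [hK]; positivity
  have hC := C4_nonneg B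
  rw [← hK]
  have h3 := mul_le_mul_of_nonneg_left h2 (by positivity : 0 ≤ K * τ ^ 2)
  have e2 : 4000000 * Real.exp B * τ ^ 2 * P = K * τ ^ 2 * P / 2 := by rw [hK]; ring
  rw [e2] at h1
  have h5 : 0 ≤ K * C4 B * τ ^ 2 * (K * τ ^ 2 * P) := by positivity
  nlinarith

end Pool.Agent.W5h55.JK
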