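import Pool.Agent.W5h55.JU.K6

set_option autoImplicit false

/-! # The recursion for the integrals (non-autonomous) -/

namespace Pool.Agent.W5h55.JK

open Complex Metric Set Filter Topology MeasureTheory
open Pool.Agent.W677.Mar Pool.Agent.R250.MC Pool.Agent.W5h55.JU

variable {ρ B : ℝ} {d : ℕ → ℕ} {c : ℕ → ℂ} {ψ h : ℕ → ℂ → ℂ} {G : ℕ → ℕ → ℂ → ℂ}

theorem av_cont (d : ℕ) {g : ℂ → ℝ} (hg : ContinuousOn g {z : ℂ | 1 < ‖z‖}) :
    ContinuousOn (av d g) {z : ℂ | 1 < ‖z‖} := by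
  unfold av
  apply ContinuousOn.mul continuousOn_const
  apply continuousOn_finsetSum
  intro l _
  exact hg.comp (continuous_const.mul continuous_id).continuousOn fun z hz => om_ext hz d l

theorem av_le {d : ℕ} {f g : ℂ → ℝ} {c : ℝ} {z : ℂ} (hfg : ∀ l, f (om d ^ l * z) ≤ c * g (om d ^ l * z)) :
    av d f z ≤ c * av d g z := by
  unfold av
  rw [← mul_assoc, mul_comm c, mul_assoc]
  apply mul_le_mul_of_nonneg_left _ (by positivity)
  rw [Finset.mul_sum]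
  exact Finset.sum_le_sum fun l _ => hfg l

theorem Dyn.av_g (D : Dyn ρ B d c ψ h G) (t : ℂ) (k : ℕ) (W : ℂ → ℝ) {z : ℂ} (hz : 1 < ‖z‖) :
    av (d k) (fun z => Real.exp ((starRingEnd ℂ) t * h k z).re * W z) z =
      Real.exp ((starRingEnd ℂ) t * h (k + 1) (z ^ d k)).re *
        (EE d G t k (z ^ d k) * av (d k) W z) := by
  have h1 : ∀ l ∈ Finset.range (d k), Real.exp ((starRingEnd ℂ) t * h k (om (d k) ^ l * z)).re *
      W (om (d k) ^ l * z) = (Real.exp ((starRingEnd ℂ) t * h (k + 1) (z ^ d k)).re *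
      EE d G t k (z ^ d k)) * W (om (d k) ^ l * z) := by
    intro l _
    congr 1
    rw [D.hrec k (om_ext hz (d k) l), om_mul_pow (D.sys.dne k)]
    unfold EE
    rw [← Real.exp_add]
    congr 1
    rw [show (starRingEnd ℂ) t * (h (k + 1) (z ^ d k) - (bet (d k) : ℂ) * G (k + 1) 0 (z ^ d k)) =
      (starRingEnd ℂ) t * h (k + 1) (z ^ d k) - (bet (d k) : ℂ) * ((starRingEnd ℂ) t *
        G (k + 1) 0 (z ^ d k)) by ring, Complex.sub_re, Complex.re_ofReal_mul]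
    ring
  unfold av
  rw [Finset.sum_congr rfl h1, ← Finset.mul_sum]
  ring

theorem h_cont {ψ h : ℂ → ℂ} (S : IsSig ψ h) (t : ℂ) :
    ContinuousOn (fun z => Real.exp ((starRingEnd ℂ) t * h z).re) {z : ℂ | 1 < ‖z‖} := by
  apply Real.continuous_exp.comp_continuousOn
  apply Complex.continuous_re.comp_continuousOn
  exact continuousOn_const.mul S.2.2.2.1.continuousOn

theorem h_far {ψ h : ℂ → ℂ} (S : IsSig ψ h) {t : ℂ} (ht : ‖t‖ ≤ 1) {z : ℂ} (hz : 4 < ‖z‖) :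
    Real.exp ((starRingEnd ℂ) t * h z).re ≤ Real.exp 1 := by
  have hz1 : 1 < ‖z‖ := by linarith
  have hz2 : 0 < ‖z‖ ^ 2 - 1 := by nlinarith
  have h1 := goluzin_ext S.sg hz1 rfl
  have h2 : Real.log (‖z‖ ^ 2 / (‖z‖ ^ 2 - 1)) ≤ 1 := by
    have h3 := Real.log_le_sub_one_of_pos (x := ‖z‖ ^ 2 / (‖z‖ ^ 2 - 1)) (by positivity)
    have h4 : ‖z‖ ^ 2 / (‖z‖ ^ 2 - 1) ≤ 2 := by
      rw [div_le_iff₀ hz2]
      nlinarith
    linarith
  apply Real.exp_le_exp.2
  calc ((starRingEnd ℂ) t * h z).re ≤ ‖(starRingEnd ℂ) t * h z‖ := Complex.re_le_norm _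
    _ = ‖t‖ * ‖h z‖ := by rw [norm_mul, RCLike.norm_conj]
    _ ≤ 1 * 1 := mul_le_mul ht (h1.trans h2) (norm_nonneg _) zero_le_one
    _ = 1 := one_mul 1

theorem Dyn.step (D : Dyn ρ B d c ψ h G) {t : ℂ} (k : ℕ) {W W' : ℂ → ℝ}
    (hWc : ContinuousOn W {z : ℂ | 1 < ‖z‖}) (hWc' : ContinuousOn W' {z : ℂ | 1 < ‖z‖}) {Λ : ℝ} {r : ℝ}
    (hr : 1 < r)
    (hw : ∀ z, ‖z‖ = r → EE d G t k (z ^ d k) * av (d k) W z ≤ Λ * W' (z ^ d k)) :
    ∫ θ in (0 : ℝ)..(2 * Real.pi), Real.exp ((starRingEnd ℂ) t * h k (cc r θ)).re * W (cc r θ) ≤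
      Λ * ∫ θ in (0 : ℝ)..(2 * Real.pi), Real.exp ((starRingEnd ℂ) t *
        h (k + 1) (cc (r ^ d k) θ)).re * W' (cc (r ^ d k) θ) := by
  have J := D.sys
  have hpi := Real.pi_pos
  have hgc : ContinuousOn (fun z => Real.exp ((starRingEnd ℂ) t * h k z).re * W z)
      {z : ℂ | 1 < ‖z‖} := (h_cont (J.sig k) t).mul hWc
  have hgc' : ContinuousOn (fun z => Real.exp ((starRingEnd ℂ) t * h (k + 1) z).re * W' z)
      {z : ℂ | 1 < ‖z‖} := (h_cont (J.sig (k + 1)) t).mul hWc'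
  have h1 := int_av (J.dne k) hgc hr
  have h2 := int_pow (J.dne k) hgc' hr
  rw [← h1, ← h2, ← intervalIntegral.integral_const_mul]
  apply intervalIntegral.integral_mono_on (by positivity)
  · exact (contOn_cc (av_cont (d k) hgc) hr).intervalIntegrable _ _
  · apply Continuous.intervalIntegrable
    apply continuous_const.mul
    exact hgc'.comp_continuous ((cc_cont r).pow (d k)) fun θ => pow_ext (cc_ext hr θ) (J.dne k)
  · intro θ _
    rw [D.av_g t k W (cc_ext hr θ)]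
    have h3 := hw (cc r θ) (norm_cc (by linarith) θ)
    have h4 := mul_le_mul_of_nonneg_left h3
      (Real.exp_pos ((starRingEnd ℂ) t * h (k + 1) (cc r θ ^ d k)).re).le
    refine h4.trans (le_of_eq ?_)
    ring

theorem Dyn.base (D : Dyn ρ B d c ψ h G) {t : ℂ} (ht : ‖t‖ ≤ 1) (k : ℕ) {W : ℂ → ℝ}
    (hWc : ContinuousOn W {z : ℂ | 1 < ‖z‖}) (hW0 : ∀ z, 1 < ‖z‖ → 0 ≤ W z) {T : ℝ} {r : ℝ}
    (hr : 1 < r) (h4 : 4 < r ^ d k) (hw : ∀ z, ‖z‖ = r → av (d k) W z ≤ T) :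
    ∫ θ in (0 : ℝ)..(2 * Real.pi), Real.exp ((starRingEnd ℂ) t * h k (cc r θ)).re * W (cc r θ) ≤
      2 * Real.pi * Real.exp (B + 1) * T := by
  have J := D.sys
  have hpi := Real.pi_pos
  have hgc : ContinuousOn (fun z => Real.exp ((starRingEnd ℂ) t * h k z).re * W z)
      {z : ℂ | 1 < ‖z‖} := (h_cont (J.sig k) t).mul hWc
  have h1 := int_av (J.dne k) hgc hr
  rw [← h1]
  have h2 : ∫ θ in (0 : ℝ)..(2 * Real.pi), av (d k) (fun z =>
      Real.exp ((starRingEnd ℂ) t * h k z).re * W z) (cc r θ) ≤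
      ∫ _θ in (0 : ℝ)..(2 * Real.pi), Real.exp (B + 1) * T := by
    apply intervalIntegral.integral_mono_on (by positivity)
    · exact (contOn_cc (av_cont (d k) hgc) hr).intervalIntegrable _ _
    · exact intervalIntegrable_const
    · intro θ _
      have hz := cc_ext hr θ
      have hzd := pow_ext hz (J.dne k)
      rw [D.av_g t k W hz]
      have h3 : 4 < ‖cc r θ ^ d k‖ := by
        rw [norm_pow, norm_cc (by linarith)]
        exact h4
      have h5 := h_far (J.sig (k + 1)) ht h3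
      have h6 := D.EE_le ht k hzd
      rw [J.ker_top (k + 1) 0 h3.le, Real.one_rpow, mul_one] at h6
      have h7 := hw (cc r θ) (norm_cc (by linarith) θ)
      have h8 : 0 ≤ av (d k) W (cc r θ) := by
        unfold av
        exact mul_nonneg (by positivity) (Finset.sum_nonneg fun l _ => hW0 _ (om_ext hz (d k) l))
      have hE0 : 0 ≤ EE d G t k (cc r θ ^ d k) := (Real.exp_pos _).le
      calc Real.exp ((starRingEnd ℂ) t * h (k + 1) (cc r θ ^ d k)).re *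
            (EE d G t k (cc r θ ^ d k) * av (d k) W (cc r θ)) ≤ Real.exp 1 * (Real.exp B * T) := by
              apply mul_le_mul h5 (mul_le_mul h6 h7 h8 (Real.exp_pos _).le) (by positivity)
                (Real.exp_pos _).le
        _ = Real.exp (B + 1) * T := by
            rw [← mul_assoc, ← Real.exp_add]
            congr 2
            ring
  rw [intervalIntegral.integral_const, smul_eq_mul, sub_zero] at h2
  linarith

/-- products of the degrees -/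
def PP (d : ℕ → ℕ) (k n : ℕ) : ℕ := ∏ m ∈ Finset.range n, d (k + m)

theorem PP_zero (d : ℕ → ℕ) (k : ℕ) : PP d k 0 = 1 := by simp [PP]

theorem PP_succ (d : ℕ → ℕ) (k n : ℕ) : PP d k (n + 1) = d k * PP d (k + 1) n := by
  unfold PP
  rw [Finset.prod_range_succ', add_zero, mul_comm]
  congr 1
  apply Finset.prod_congr rfl
  intro m _
  congr 1
  ring

theorem Sys.PP_pos (J : Sys d c ψ h) (k n : ℕ) : 0 < PP d k n :=
  Finset.prod_pos fun m _ => Nat.pos_of_ne_zero (J.dne _)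

theorem le_PP {D₀ : ℕ} (hd : ∀ n, D₀ ≤ d n) (k n : ℕ) : D₀ ^ n ≤ PP d k n := by
  unfold PP
  calc D₀ ^ n = ∏ _m ∈ Finset.range n, D₀ := by simp
    _ ≤ _ := Finset.prod_le_prod' fun m _ => hd _

theorem Dyn.recur (D : Dyn ρ B d c ψ h G) {t : ℂ} (ht : ‖t‖ ≤ 1) {W : ℕ → ℂ → ℝ}
    (hWc : ∀ k, ContinuousOn (W k) {z : ℂ | 1 < ‖z‖}) (hW0 : ∀ k z, 1 < ‖z‖ → 0 ≤ W k z) {Λ T : ℝ}
    (hΛ : 0 ≤ Λ)
    (h1 : ∀ k z, 1 < ‖z‖ → ‖z ^ d k‖ ≤ 4 →
      EE d G t k (z ^ d k) * av (d k) (W k) z ≤ Λ * W (k + 1) (z ^ d k))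
    (h2 : ∀ k z, 1 < ‖z‖ → 4 < ‖z ^ d k‖ → av (d k) (W k) z ≤ T) (n : ℕ) :
    ∀ (k : ℕ) (r : ℝ), 1 < r → r ^ (PP d k n) ≤ 4 → 4 < r ^ (PP d k (n + 1)) →
    ∫ θ in (0 : ℝ)..(2 * Real.pi), Real.exp ((starRingEnd ℂ) t * h k (cc r θ)).re * W k (cc r θ) ≤
      Λ ^ n * (2 * Real.pi * Real.exp (B + 1) * T) := by
  have J := D.sys
  induction n with
  | zero =>
    intro k r hr _ h4
    rw [PP_succ, PP_zero, mul_one] at h4
    rw [pow_zero, one_mul]
    apply D.base ht k (hWc k) (hW0 k) hr h4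
    intro z hz
    apply h2 k z (by rw [hz]; exact hr)
    rw [norm_pow, hz]
    exact h4
  | succ n ih =>
    intro k r hr h3 h4
    have hrd : 1 < r ^ d k := one_lt_pow₀ hr (J.dne k)
    rw [PP_succ] at h3 h4
    have h5 : r ^ d k ≤ 4 := by
      refine le_trans ?_ h3
      apply pow_le_pow_right₀ hr.le
      exact Nat.le_mul_of_pos_right _ (J.PP_pos _ _)
    have h6 := D.step (t := t) k (Λ := Λ) (hWc k) (hWc (k + 1)) hr (fun z hz => by
      apply h1 k z (by rw [hz]; exact hr)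
      rw [norm_pow, hz]
      exact h5)
    have h7 := ih (k + 1) (r ^ d k) hrd (by rw [← pow_mul]; exact h3)
      (by rw [← pow_mul]; exact h4)
    have h8 := mul_le_mul_of_nonneg_left h7 hΛ
    refine (h6.trans h8).trans (le_of_eq ?_)
    ring

theorem Sys.level (J : Sys d c ψ h) {D₀ : ℕ} (hD₀ : 2 ≤ D₀) (hd : ∀ n, D₀ ≤ d n) {r : ℝ} (hr : 1 < r)
    (h4 : r ≤ 4) :
    ∃ n : ℕ, r ^ (PP d 0 n) ≤ 4 ∧ 4 < r ^ (PP d 0 (n + 1)) ∧
      (n : ℝ) * Real.log D₀ ≤ Real.log (r ^ 2 / (r ^ 2 - 1)) + 2 := by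
  classical
  have hex : ∃ m : ℕ, 4 < r ^ (PP d 0 m) := by
    obtain ⟨n, hn⟩ := pow_unbounded_of_one_lt 4 hr
    refine ⟨n, hn.trans_le ?_⟩
    apply pow_le_pow_right₀ hr.le
    exact (Nat.lt_pow_self (by omega)).le.trans (le_PP hd 0 n)
  have hm := Nat.find_spec hex
  set m := Nat.find hex with hmd
  have hm0 : m ≠ 0 := by
    intro h0
    rw [h0, PP_zero, pow_one] at hm
    linarith
  obtain ⟨n, hn⟩ : ∃ n, m = n + 1 := ⟨m - 1, by omega⟩
  have hn4 : r ^ (PP d 0 n) ≤ 4 := by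
    have := Nat.find_min hex (m := n) (by omega)
    push Not at this
    exact this
  refine ⟨n, hn4, by rw [← hn]; exact hm, ?_⟩
  have hr0 : 0 < r := by linarith
  have hd0 : (0 : ℝ) < D₀ := by exact_mod_cast (by omega : 0 < D₀)
  have hlr : 0 < Real.log r := Real.log_pos hr
  have hr2 : 0 < r ^ 2 - 1 := by nlinarith
  have hn5 : r ^ (D₀ ^ n) ≤ 4 := (pow_le_pow_right₀ hr.le (le_PP hd 0 n)).trans hn4
  have h1 : (D₀ : ℝ) ^ n * Real.log r ≤ 2 := by
    have h2 := Real.log_le_log (by positivity) hn5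
    rw [Real.log_pow] at h2
    push_cast at h2
    exact h2.trans log4
  have h2 : 1 - (r ^ 2)⁻¹ ≤ 2 * Real.log r := by
    have h3 := Real.one_sub_inv_le_log_of_pos (x := r ^ 2) (by positivity)
    rw [Real.log_pow] at h3
    push_cast at h3
    exact h3
  have h3 : (D₀ : ℝ) ^ n * (1 - (r ^ 2)⁻¹) ≤ 4 := by
    have h5 := mul_le_mul_of_nonneg_left h2 (by positivity : 0 ≤ (D₀ : ℝ) ^ n)
    linarith
  have h5 : (D₀ : ℝ) ^ n ≤ 4 * (r ^ 2 / (r ^ 2 - 1)) := by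
    have e : 1 - (r ^ 2)⁻¹ = (r ^ 2 - 1) / r ^ 2 := by field_simp
    rw [e] at h3
    rw [← mul_div_assoc, le_div_iff₀ hr2]
    rw [← mul_div_assoc, div_le_iff₀ (by positivity)] at h3
    exact h3
  have h6 := Real.log_le_log (by positivity) h5
  rw [Real.log_pow, Real.log_mul (by norm_num) (by positivity)] at h6
  have := log4
  linarith

/-- **exponential moments** -/
theorem Dyn.moment (D : Dyn ρ B d c ψ h G) {D₀ : ℕ} (hD₀ : 2 ≤ D₀) (hd : ∀ n, D₀ ≤ d n) {t : ℂ}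
    (ht : ‖t‖ ≤ 1) {W : ℕ → ℂ → ℝ}
    (hWc : ∀ k, ContinuousOn (W k) {z : ℂ | 1 < ‖z‖}) (hW0 : ∀ k z, 1 < ‖z‖ → 0 ≤ W k z)
    (hW1 : ∀ z, 1 < ‖z‖ → 1 ≤ W 0 z) {Λ T : ℝ} (hΛ : 1 ≤ Λ) (hT : 0 ≤ T)
    (h1 : ∀ k z, 1 < ‖z‖ → ‖z ^ d k‖ ≤ 4 →
      EE d G t k (z ^ d k) * av (d k) (W k) z ≤ Λ * W (k + 1) (z ^ d k))
    (h2 : ∀ k z, 1 < ‖z‖ → 4 < ‖z ^ d k‖ → av (d k) (W k) z ≤ T) {r : ℝ} (hr : 1 < r) :
    ∫ θ in (0 : ℝ)..(2 * Real.pi), Real.exp ((starRingEnd ℂ) t * h 0 (cc r θ)).re ≤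
      (2 * Real.pi * Real.exp (B + 1) * (T + 1)) *
        Real.exp (Real.log Λ / Real.log D₀ * (Real.log (r ^ 2 / (r ^ 2 - 1)) + 2)) := by
  have J := D.sys
  have hpi := Real.pi_pos
  have hB := D.hB
  have hL := L_pos hr
  have hlΛ : 0 ≤ Real.log Λ := Real.log_nonneg hΛ
  have hd1 : (1 : ℝ) < D₀ := by exact_mod_cast (by omega : 1 < D₀)
  have hld : 0 < Real.log D₀ := Real.log_pos hd1
  have hE1 : 1 ≤ Real.exp (Real.log Λ / Real.log D₀ * (Real.log (r ^ 2 / (r ^ 2 - 1)) + 2)) :=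
    Real.one_le_exp (by positivity)
  rcases le_or_gt r 4 with h4 | h4
  · obtain ⟨n, hn1, hn2, hn3⟩ := J.level hD₀ hd hr h4
    have h5 := D.recur ht hWc hW0 (by linarith) h1 h2 n 0 r hr hn1 hn2
    have h6 : ∫ θ in (0 : ℝ)..(2 * Real.pi), Real.exp ((starRingEnd ℂ) t * h 0 (cc r θ)).re ≤
        ∫ θ in (0 : ℝ)..(2 * Real.pi),
          Real.exp ((starRingEnd ℂ) t * h 0 (cc r θ)).re * W 0 (cc r θ) := by
      apply intervalIntegral.integral_mono_on (by positivity)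
      · exact (contOn_cc (h_cont (J.sig 0) t) hr).intervalIntegrable _ _
      · exact (contOn_cc ((h_cont (J.sig 0) t).mul (hWc 0)) hr).intervalIntegrable _ _
      · intro θ _
        exact le_mul_of_one_le_right (Real.exp_pos _).le (hW1 _ (cc_ext hr θ))
    have h7 : Λ ^ n ≤
        Real.exp (Real.log Λ / Real.log D₀ * (Real.log (r ^ 2 / (r ^ 2 - 1)) + 2)) := by
      rw [← Real.exp_log (pow_pos (by linarith : 0 < Λ) n), Real.log_pow]
      apply Real.exp_le_exp.2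
      rw [div_mul_eq_mul_div, le_div_iff₀ hld]
      have := mul_le_mul_of_nonneg_left hn3 hlΛ
      linarith
    calc _ ≤ Λ ^ n * (2 * Real.pi * Real.exp (B + 1) * T) := h6.trans h5
      _ ≤ Real.exp (Real.log Λ / Real.log D₀ * (Real.log (r ^ 2 / (r ^ 2 - 1)) + 2)) *
          (2 * Real.pi * Real.exp (B + 1) * (T + 1)) := by
          apply mul_le_mul h7 _ (by positivity) (Real.exp_pos _).le
          apply mul_le_mul_of_nonneg_left _ (by positivity)
          linarith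
      _ = _ := by ring
  · have h6 : ∫ θ in (0 : ℝ)..(2 * Real.pi), Real.exp ((starRingEnd ℂ) t * h 0 (cc r θ)).re ≤
        ∫ _θ in (0 : ℝ)..(2 * Real.pi), Real.exp 1 := by
      apply intervalIntegral.integral_mono_on (by positivity)
      · exact (contOn_cc (h_cont (J.sig 0) t) hr).intervalIntegrable _ _
      · exact intervalIntegrable_const
      · intro θ _
        apply h_far (J.sig 0) ht
        rw [norm_cc (by linarith)]
        exact h4
    rw [intervalIntegral.integral_const, smul_eq_mul, sub_zero] at h6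
    refine h6.trans ?_
    have h7 : Real.exp 1 ≤ Real.exp (B + 1) := Real.exp_le_exp.2 (by linarith)
    have h8 : 2 * Real.pi * Real.exp 1 ≤ 2 * Real.pi * Real.exp (B + 1) * (T + 1) := by
      calc 2 * Real.pi * Real.exp 1 ≤ 2 * Real.pi * Real.exp (B + 1) :=
            mul_le_mul_of_nonneg_left h7 (by positivity)
        _ ≤ 2 * Real.pi * Real.exp (B + 1) * (T + 1) := le_mul_of_one_le_right (by positivity) (by linarith)
    exact h8.trans (le_mul_of_one_le_right (by positivity) hE1)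

theorem Sys.Phi_cont (J : Sys d c ψ h) (q : ℝ) (n k : ℕ) :
    ContinuousOn (Phi (ψ n) (crit d c n) q k) {z : ℂ | 1 < ‖z‖} := by
  unfold Phi
  apply continuousOn_const.add
  apply continuousOn_finsetSum
  intro i _
  apply continuousOn_const.mul
  exact (J.ker_cont n i).rpow_const fun z _ => Or.inl (ker_pos _ _ i z).ne'

theorem Dyn.Gam_cont (D : Dyn ρ B d c ψ h G) (t : ℂ) (k : ℕ) :
    ContinuousOn (Gam d G t k) {z : ℂ | 1 < ‖z‖} := by
  unfold Gam SS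
  apply Real.continuous_exp.comp_continuousOn
  apply ContinuousOn.neg
  apply Complex.continuous_re.comp_continuousOn
  apply continuousOn_const.mul
  apply continuousOn_finsetSum
  intro i hi
  exact continuousOn_const.mul (D.hG k i (Finset.mem_range.1 hi)).1.continuousOn

/-- the rough moment bound -/
theorem Dyn.moment_rough (D : Dyn ρ B d c ψ h G) {D₀ : ℕ} (hD₀ : 2 ≤ D₀) (hd : ∀ n, D₀ ≤ d n) {q : ℝ}
    (hq0 : 0 < q) (hq1 : q < 1) {t : ℂ} (ht : ρ * ‖t‖ ≤ q) {r : ℝ} (hr : 1 < r) :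
    ∫ θ in (0 : ℝ)..(2 * Real.pi), Real.exp ((starRingEnd ℂ) t * h 0 (cc r θ)).re ≤
      (2 * Real.pi * Real.exp (B + 1) * (8 / (1 - q) + 1)) *
        Real.exp (Real.log (192 * Real.exp B / (1 - q)) / Real.log D₀ *
          (Real.log (r ^ 2 / (r ^ 2 - 1)) + 2)) := by
  have h1q : 0 < 1 - q := by linarith
  have hB := D.hB
  have hρ := D.hρ
  have ht0 := norm_nonneg t
  apply D.moment hD₀ hd (W := fun k => Phi (ψ k) (crit d c k) q k) (by nlinarith : ‖t‖ ≤ 1)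
    (fun k => D.sys.Phi_cont q k k)
    (fun k z _ => by have := one_le_Phi (ψ k) (crit d c k) q k z; linarith)
    (fun z _ => one_le_Phi (ψ 0) (crit d c 0) q 0 z)
    _ (by positivity) (fun k z hz h4 => D.rough hq0 hq1 ht k hz h4)
    (fun k z hz h4 => D.sys.avPhi_top hq0 hq1 k hz h4) hr
  rw [le_div_iff₀ h1q]
  have : 1 ≤ Real.exp B := Real.one_le_exp hB
  linarith

/-- the fine moment bound -/
theorem Dyn.moment_fine (D : Dyn ρ B d c ψ h G) {D₀ : ℕ} (hD₀ : 8 ≤ D₀) (hd : ∀ n, D₀ ≤ d n) {t : ℂ}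
    (ht : ρ * ‖t‖ ≤ 1 / 16)
    (hdB : 56 * Real.exp B * (D₀ : ℝ) ^ (-(1 / 2) : ℝ) ≤ 1 / 4)
    (hdC : 8 * C5 B * ρ ^ 2 ≤ Real.log D₀) {r : ℝ} (hr : 1 < r) :
    ∫ θ in (0 : ℝ)..(2 * Real.pi), Real.exp ((starRingEnd ℂ) t * h 0 (cc r θ)).re ≤
      (2 * Real.pi * Real.exp (B + 1) * (640000 * Real.exp B + 1) * Real.exp 1) *
        Real.exp (1 / 8 * ‖t‖ ^ 2 * Real.log (r ^ 2 / (r ^ 2 - 1))) := by
  have hB := D.hB
  have hρ := D.hρ
  have hd8 : ∀ n, 8 ≤ d n := fun n => hD₀.trans (hd n)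
  have hd4 : ∀ n, 4 ≤ d n := fun n => by have := hd8 n; omega
  have hL := L_pos hr
  have hC5 := C5_nonneg B
  have ht0 := norm_nonneg t
  have hτ0 : 0 ≤ ρ * ‖t‖ := by positivity
  have ht1 : ‖t‖ ≤ 1 / 16 := by nlinarith
  have hτ2 : (ρ * ‖t‖) ^ 2 ≤ 1 / 256 := by nlinarith
  have ht2 : ‖t‖ ^ 2 ≤ 1 := by nlinarith
  have hx := Real.exp_pos B
  have hpi := Real.pi_pos
  have hd1 : (1 : ℝ) < D₀ := by exact_mod_cast (by omega : 1 < D₀)
  have hld : 0 < Real.log D₀ := Real.log_pos hd1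
  have h1 := D.moment (by omega) hd (W := WW ρ B d c ψ G t) (Λ := 1 + C5 B * (ρ * ‖t‖) ^ 2)
    (T := 640000 * Real.exp B) (by linarith : ‖t‖ ≤ 1) (fun k => by
      unfold WW
      exact (D.Gam_cont t k).add (continuousOn_const.mul (D.sys.Phi_cont _ k k)))
    (fun k z hz => by
      unfold WW
      have := one_le_Phi (ψ k) (crit d c k) (1 / 2) k z
      have h2 : 0 < Gam d G t k z := Real.exp_pos _
      positivity)
    (fun z hz => by
      unfold WW
      have h2 : Gam d G t 0 z = 1 := by simp [Gam, SS]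
      rw [h2]
      have := one_le_Phi (ψ 0) (crit d c 0) (1 / 2) 0 z
      have : 0 ≤ 8000000 * Real.exp B * (ρ * ‖t‖) ^ 2 *
        Phi (ψ 0) (crit d c 0) (1 / 2) 0 z := by positivity
      linarith)
    (by nlinarith [sq_nonneg (ρ * ‖t‖)]) (by positivity)
    (fun k z hz h4 => D.fine hd8 ht k (by
      refine le_trans ?_ hdB
      apply mul_le_mul_of_nonneg_left _ (by positivity)
      apply Real.rpow_le_rpow_of_nonpos (by linarith) _ (by norm_num)
      exact_mod_cast hd k) hz h4)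
    (fun k z hz h4 => by
      have h3 := D.sys.avPhi_top (q := 1 / 2) (by norm_num) (by norm_num) k hz h4
      have h5 : av (d k) (WW ρ B d c ψ G t k) z ≤ (40000 * Real.exp B) *
          av (d k) (Phi (ψ k) (crit d c k) (1 / 2) k) z := by
        apply av_le
        intro l
        have hzl := om_ext hz (d k) l
        unfold WW
        have h6 := (D.Gam_le hd4 t k hzl).trans (exp_Phi (q := 1 / 2) hB ht (by norm_num) k _)
        have h7 := one_le_Phi (ψ k) (crit d c k) (1 / 2) k (om (d k) ^ l * z)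
        have h8 : 8000000 * Real.exp B * (ρ * ‖t‖) ^ 2 *
            Phi (ψ k) (crit d c k) (1 / 2) k (om (d k) ^ l * z) ≤
            8000000 * Real.exp B * (1 / 256) *
            Phi (ψ k) (crit d c k) (1 / 2) k (om (d k) ^ l * z) := by gcongr
        have h9 : 0 ≤ Real.exp B * Phi (ψ k) (crit d c k) (1 / 2) k (om (d k) ^ l * z) := by
          positivity
        linarith
      have h6 : (8 / (1 - 1 / 2) : ℝ) = 16 := by norm_num
      rw [h6] at h3
      have h7 := mul_le_mul_of_nonneg_left h3 (by positivity : 0 ≤ 40000 * Real.exp B)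
      linarith) hr
  refine h1.trans ?_
  rw [mul_assoc _ (Real.exp 1), ← Real.exp_add]
  apply mul_le_mul_of_nonneg_left _ (by positivity)
  apply Real.exp_le_exp.2
  have h2 : Real.log (1 + C5 B * (ρ * ‖t‖) ^ 2) ≤ C5 B * (ρ * ‖t‖) ^ 2 := by
    have := Real.log_le_sub_one_of_pos (x := 1 + C5 B * (ρ * ‖t‖) ^ 2) (by positivity)
    linarith
  have h3 : Real.log (1 + C5 B * (ρ * ‖t‖) ^ 2) / Real.log D₀ ≤ 1 / 8 * ‖t‖ ^ 2 := by
    rw [div_le_iff₀ hld]
    have h5 := mul_le_mul_of_nonneg_right hdC (sq_nonneg ‖t‖)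
    have e : C5 B * (ρ * ‖t‖) ^ 2 = C5 B * ρ ^ 2 * ‖t‖ ^ 2 := by ring
    linarith
  have h4 : Real.log (1 + C5 B * (ρ * ‖t‖) ^ 2) / Real.log D₀ *
      (Real.log (r ^ 2 / (r ^ 2 - 1)) + 2) ≤
      1 / 8 * ‖t‖ ^ 2 * (Real.log (r ^ 2 / (r ^ 2 - 1)) + 2) :=
    mul_le_mul_of_nonneg_right h3 (by linarith)
  linarith

end Pool.Agent.W5h55.JK
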