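import Pool.Agent.W5h55.JU.K7
import Pool.Agent.W5h55.JU.J8

set_option autoImplicit false

/-! # The strong Marshall bound (non-autonomous iteration) -/

namespace Pool.Agent.W5h55.JK

open Complex Metric Set Filter Topology MeasureTheory
open Pool.Agent.W677.Mar Pool.Agent.R250.MC Pool.Agent.W5h55.JU

/-- the family -/
def Fm (ρ B : ℝ) (D₀ : ℕ) (g : ℝ → ℂ) (L : ℝ) : Prop :=
  ∃ (d : ℕ → ℕ) (c : ℕ → ℂ) (ψ h : ℕ → ℂ → ℂ) (G : ℕ → ℕ → ℂ → ℂ), (∀ n, D₀ ≤ d n) ∧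
    Dyn ρ B d c ψ h G ∧
    ∃ R : ℝ, 1 < R ∧ g = (fun θ => h 0 (cc R θ)) ∧ L = Real.log (R ^ 2 / (R ^ 2 - 1))

theorem Fm_basic (ρ B : ℝ) (D₀ : ℕ) (g : ℝ → ℂ) (L : ℝ) (hF : Fm ρ B D₀ g L) :
    Continuous g ∧ 0 < L ∧ ∀ x, ‖g x‖ ≤ L := by
  obtain ⟨d, c, ψ, h, G, _, D, R, hR, hg, hL⟩ := hF
  refine ⟨?_, ?_, ?_⟩
  · rw [hg]
    exact (D.sys.sig 0).2.2.2.1.continuousOn.comp_continuous (cc_cont R) fun θ => cc_ext hR θ
  · rw [hL]
    exact L_pos hR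
  · intro x
    rw [hg, hL]
    exact goluzin_ext (D.sys.sig 0).sg hR (norm_cc (by linarith) x)

/-- choice of the degree -/
theorem exists_deg (ρ B X ε : ℝ) (hε : 0 < ε) : ∃ D₀ : ℕ, 8 ≤ D₀ ∧
    56 * Real.exp B * (D₀ : ℝ) ^ (-(1 / 2) : ℝ) ≤ 1 / 4 ∧ 8 * C5 B * ρ ^ 2 ≤ Real.log D₀ ∧
    Real.log X / Real.log D₀ ≤ ε := by
  have h1 : Tendsto (fun d : ℕ => 56 * Real.exp B * (d : ℝ) ^ (-(1 / 2) : ℝ)) atTop (𝓝 0) := by
    have h2 := (tendsto_rpow_neg_atTop (by norm_num : (0 : ℝ) < 1 / 2)).comp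
      (tendsto_natCast_atTop_atTop (R := ℝ))
    have h3 := h2.const_mul (56 * Real.exp B)
    rw [mul_zero] at h3
    exact h3
  have h4 : Tendsto (fun d : ℕ => Real.log (d : ℝ)) atTop atTop :=
    Real.tendsto_log_atTop.comp tendsto_natCast_atTop_atTop
  have h5 : Tendsto (fun d : ℕ => Real.log X / Real.log (d : ℝ)) atTop (𝓝 0) :=
    tendsto_const_nhds.div_atTop h4
  have h6 := ((eventually_ge_atTop 8).and (h1.eventually_le_const (by norm_num : (0 : ℝ) < 1 / 4))).and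
    ((h4.eventually_ge_atTop (8 * C5 B * ρ ^ 2)).and (h5.eventually_le_const hε))
  obtain ⟨D₀, hD₀⟩ := h6.exists
  exact ⟨D₀, hD₀.1.1, hD₀.1.2, hD₀.2.1, hD₀.2.2⟩

/-- **The strong Marshall bound.** -/
theorem main {a ρ B : ℝ} (ha0 : 0 < a) (hρ : 1 ≤ ρ) (haρ : a * ρ < 1) : ∃ (D₀ : ℕ) (C : ℝ),
    ∀ (d : ℕ → ℕ) (c : ℕ → ℂ) (ψ h : ℕ → ℂ → ℂ) (G : ℕ → ℕ → ℂ → ℂ), (∀ n, D₀ ≤ d n) →
    Dyn ρ B d c ψ h G → ∀ R : ℝ, 1 < R → ∫ θ in (0:ℝ)..(2 * Real.pi),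
      Real.exp (a * ‖h 0 (cc R θ)‖ ^ 2 / Real.log (R ^ 2 / (R ^ 2 - 1))) ≤ C := by
  have hρ0 : 0 < ρ := by linarith
  have ha1 : a < 1 := by nlinarith
  obtain ⟨q, hq⟩ : ∃ q, q = (1 + a * ρ) / 2 := ⟨_, rfl⟩
  have haρ0 : 0 < a * ρ := by positivity
  have hq0 : 0 < q := by rw [hq]; linarith
  have hq1 : q < 1 := by rw [hq]; linarith
  obtain ⟨ε, hε⟩ : ∃ ε, ε = (1 - a * ρ) / (128 * ρ ^ 2) := ⟨_, rfl⟩
  have hε0 : 0 < ε := by rw [hε]; apply div_pos <;> [linarith; positivity]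
  obtain ⟨D₀, hd8, hd1, hd2, hd3⟩ := exists_deg ρ B (192 * Real.exp B / (1 - q)) ε hε0
  have hfine : ∀ t : ℂ, ρ * ‖t‖ ≤ 1 / 16 → MB (Fm ρ B D₀) (2 * Real.pi * Real.exp (B + 1) *
      (640000 * Real.exp B + 1) * Real.exp 1) t (1 / 8 * ‖t‖ ^ 2) := by
    intro t ht g L hg
    obtain ⟨d, c, ψ, h, G, hd, D, R, hR, hg, hL⟩ := hg
    rw [hg, hL]
    exact D.moment_fine hd8 hd ht hd1 hd2 hR
  have hrough : ∀ t : ℂ, ρ * ‖t‖ ≤ q → MB (Fm ρ B D₀) ((2 * Real.pi * Real.exp (B + 1) *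
      (8 / (1 - q) + 1)) * Real.exp (ε * 2)) t ε := by
    intro t ht g L hg
    obtain ⟨d, c, ψ, h, G, hd, D, R, hR, hg, hL⟩ := hg
    rw [hg, hL]
    refine (D.moment_rough (by omega) hd hq0 hq1 ht hR).trans ?_
    have h1q : 0 < 1 - q := by linarith
    have hL0 := L_pos hR
    have hpi := Real.pi_pos
    rw [mul_assoc _ (Real.exp (ε * 2)), ← Real.exp_add]
    apply mul_le_mul_of_nonneg_left _ (by positivity)
    apply Real.exp_le_exp.2
    have := mul_le_mul_of_nonneg_right hd3 (by linarith : 0 ≤ Real.log (R ^ 2 / (R ^ 2 - 1)) + 2)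
    linarith
  obtain ⟨C, hC⟩ := criterion (Fm_basic ρ B D₀) (a := a) (κ := 1 / 8) (u0 := 1 / (128 * ρ))
    (C0 := 2 * Real.pi * Real.exp (B + 1) * (640000 * Real.exp B + 1) * Real.exp 1) ha0
    (by norm_num) (by positivity) (by linarith) (fun t ht => hfine t (by
      have h1 := mul_le_mul_of_nonneg_left ht hρ0.le
      have e : ρ * (1 / (128 * ρ) / (1 / 8)) = 1 / 16 := by field_simp; norm_num
      rw [e] at h1
      exact h1))
    (by
      intro u hu1 hu2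
      have hu0 : 0 < ‖u‖ := lt_of_lt_of_le (by positivity) hu1
      have hune : u ≠ 0 := norm_pos_iff.1 hu0
      have hsc : ∀ s : ℝ, ((starRingEnd ℂ) ((s : ℂ) * u) * u).re = s * ‖u‖ ^ 2 := by
        intro s
        rw [map_mul, Complex.conj_ofReal, mul_assoc, Complex.re_ofReal_mul, mul_comm _ u,
          Complex.mul_conj, Complex.ofReal_re, Complex.normSq_eq_norm_sq]
      have hnm : ∀ s : ℝ, 0 ≤ s → ‖(s : ℂ) * u‖ = s * ‖u‖ := by
        intro s hs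
        rw [norm_mul, Complex.norm_real, Real.norm_of_nonneg hs]
      have hau : a * ‖u‖ ^ 2 < ‖u‖ ^ 2 := mul_lt_of_lt_one_left (by positivity) ha1
      rcases le_or_gt (ρ * ‖u‖) (1 / 64) with h1 | h1
      · refine ⟨_, _, ((4 : ℝ) : ℂ) * u, hfine _ (by rw [hnm _ (by norm_num)]; linarith), ?_⟩
        rw [hsc, hnm _ (by norm_num)]
        nlinarith
      · rcases le_or_gt (ρ * ‖u‖) (1 / 32) with h2 | h2
        · refine ⟨_, _, ((1 / 16 / (ρ * ‖u‖) : ℝ) : ℂ) * u, hfine _ (by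
            rw [hnm _ (by positivity)]
            apply le_of_eq
            field_simp), ?_⟩
          rw [hsc, hnm _ (by positivity)]
          have e : 1 / 16 / (ρ * ‖u‖) * ‖u‖ ^ 2 = 1 / 16 * ‖u‖ / ρ := by field_simp
          have e2 : 1 / 16 / (ρ * ‖u‖) * ‖u‖ = 1 / 16 / ρ := by field_simp
          rw [e, e2]
          have h3 : ‖u‖ ≤ 1 / 32 / ρ := by
            rw [le_div_iff₀ hρ0]
            linarith
          have h4 : 1 / 64 / ρ < ‖u‖ := by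
            rw [div_lt_iff₀ hρ0]
            linarith
          have h5 : ‖u‖ ^ 2 ≤ 1 / 32 * (‖u‖ / ρ) := by
            calc ‖u‖ ^ 2 = ‖u‖ * ‖u‖ := sq _
              _ ≤ ‖u‖ * (1 / 32 / ρ) := mul_le_mul_of_nonneg_left h3 hu0.le
              _ = _ := by ring
          have h6 : 1 / 8 * (1 / 16 / ρ) ^ 2 < 1 / 32 * (‖u‖ / ρ) := by
            have h7 : 1 / 64 / ρ / ρ < ‖u‖ / ρ := div_lt_div_of_pos_right h4 hρ0
            have e3 : 1 / 8 * (1 / 16 / ρ) ^ 2 = 1 / 32 * (1 / 64 / ρ / ρ) := by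
              field_simp
              norm_num
            rw [e3]
            linarith
          have e4 : 1 / 16 * ‖u‖ / ρ = 1 / 16 * (‖u‖ / ρ) := by ring
          rw [e4]
          linarith
        · refine ⟨_, _, ((q / (ρ * ‖u‖) : ℝ) : ℂ) * u, hrough _ (by
            rw [hnm _ (by positivity)]
            apply le_of_eq
            field_simp), ?_⟩
          rw [hsc]
          have e : q / (ρ * ‖u‖) * ‖u‖ ^ 2 = q * ‖u‖ / ρ := by field_simp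
          rw [e, hε, hq]
          have h3 : a * ‖u‖ ^ 2 ≤ a * ‖u‖ := by
            apply mul_le_mul_of_nonneg_left _ ha0.le
            nlinarith
          have e2 : (1 + a * ρ) / 2 * ‖u‖ / ρ - (1 - a * ρ) / (128 * ρ ^ 2) - a * ‖u‖ =
              (1 - a * ρ) / (2 * ρ ^ 2) * (ρ * ‖u‖ - 1 / 64) := by
            field_simp
            ring
          have h4 : 0 < (1 - a * ρ) / (2 * ρ ^ 2) * (ρ * ‖u‖ - 1 / 64) := by
            apply mul_pos
            · apply div_pos <;> [linarith; positivity]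
            · linarith
          linarith)
  refine ⟨D₀, C, fun d c ψ h G hd D R hR => ?_⟩
  exact hC _ _ ⟨d, c, ψ, h, G, hd, D, R, hR, rfl, rfl⟩

end Pool.Agent.W5h55.JK
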